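import Pool.Agent.H314.Dir.Dirichlet

set_option autoImplicit false
open MeasureTheory Filter Topology Set Metric

namespace Pool.Agent.K1H28.ES
open Pool.Agent.H314.Dir

variable {d : ℕ}

/-- strict maximum principle on bounded open sets -/
theorem bmax {U : Set (Eu d)} (hU : IsOpen U) (hb : Bornology.IsBounded U) {w : Eu d → ℝ}
    (hc : ContinuousOn w (closure U)) (hf : ∀ x ∈ frontier U, w x ≤ 0)
    (hi : ∀ x ∈ U, 0 < w x → ContDiffAt ℝ 2 w x ∧ 0 < lap w x) :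
    ∀ x ∈ closure U, w x ≤ 0 := by
  intro x0 hx0
  by_contra hcon
  rw [not_le] at hcon
  have hcomp : IsCompact (closure U) :=
    Metric.isCompact_of_isClosed_isBounded isClosed_closure hb.closure
  obtain ⟨x1, hx1, hmax⟩ := hcomp.exists_isMaxOn ⟨x0, hx0⟩ hc
  have h1 : 0 < w x1 := lt_of_lt_of_le hcon (hmax hx0)
  have hx1U : x1 ∈ U := by
    by_contra h
    have : x1 ∈ frontier U := by
      rw [frontier, hU.interior_eq]
      exact ⟨hx1, h⟩
    linarith [hf x1 this]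
  obtain ⟨h2, h3⟩ := hi x1 hx1U h1
  have h4 : IsLocalMax w x1 := by
    filter_upwards [hU.mem_nhds hx1U] with y hy
    exact hmax (subset_closure hy)
  linarith [lap_nonpos_of_isLocalMax h2 h4]

theorem contDiff_norm_sub_sq (c : Eu d) : ContDiff ℝ 2 (fun y : Eu d => ‖y - c‖ ^ 2) :=
  (contDiff_id.sub contDiff_const).norm_sq ℝ

theorem lap_norm_sub_sq (c x : Eu d) : lap (fun y : Eu d => ‖y - c‖ ^ 2) x = 2 * d := by
  have h1 := lap_radial (d := d) (g := fun r => r) (g' := fun _ => 1) (g'' := fun _ => 0) c x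
    (Eventually.of_forall fun r => hasDerivAt_id r) (hasDerivAt_const _ _)
    (contDiff_norm_sub_sq c).contDiffAt
  rw [h1]; ring

theorem contDiff_exp_sq (b : ℝ) (c : Eu d) :
    ContDiff ℝ 2 (fun y : Eu d => Real.exp (b * ‖y - c‖ ^ 2)) :=
  (contDiff_const.mul (contDiff_norm_sub_sq c)).exp

theorem lap_exp_sq (b : ℝ) (c x : Eu d) :
    lap (fun y : Eu d => Real.exp (b * ‖y - c‖ ^ 2)) x =
      Real.exp (b * ‖x - c‖ ^ 2) * (4 * b ^ 2 * ‖x - c‖ ^ 2 + 2 * d * b) := by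
  have hd : ∀ r : ℝ, HasDerivAt (fun r => Real.exp (b * r)) (b * Real.exp (b * r)) r := by
    intro r
    have h1 : HasDerivAt (fun r : ℝ => b * r) b r := by
      simpa using (hasDerivAt_id r).const_mul b
    refine h1.exp.congr_deriv ?_
    ring
  have h1 := lap_radial (d := d) (g := fun r => Real.exp (b * r))
    (g' := fun r => b * Real.exp (b * r)) (g'' := fun r => b * (b * Real.exp (b * r))) c x
    (Eventually.of_forall fun r => hd r) ((hd _).const_mul b)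
    (contDiff_exp_sq b c).contDiffAt
  rw [h1]; ring

/-- the constant in the exterior ball barrier -/
noncomputable def AA (d : ℕ) (Λ : ℝ) : ℝ := 21 * (d + Λ / 2 + 1)

theorem AA_pos (d : ℕ) {Λ : ℝ} (h : 0 ≤ Λ) : 0 < AA d Λ := by unfold AA; positivity

theorem exp_three_le : Real.exp 3 ≤ 21 := by
  have h1 := Real.exp_one_lt_d9
  have h2 : Real.exp 3 = Real.exp 1 ^ 3 := by
    rw [← Real.exp_nat_mul]; norm_num
  rw [h2]
  have h3 := Real.exp_pos 1
  have h4 : Real.exp 1 ^ 3 ≤ (2.7182818286 : ℝ) ^ 3 := pow_le_pow_left₀ h3.le h1.le 3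
  norm_num at h4 ⊢
  linarith

/-- barrier built on an exterior ball -/
theorem barrier_ext {Ω : Set (Eu d)} (hΩ : IsOpen Ω) {p ν : Eu d} {ρ0 r Λ S : ℝ} (hν : ‖ν‖ = 1)
    (hρ0 : 0 < ρ0) (hr : 0 < r) (hr1 : r ≤ 1) (hr2 : r * (d + 1) ≤ ρ0)
    (hext : ball (p - ρ0 • ν) ρ0 ∩ Ω = ∅) (hΛ : 0 ≤ Λ) (hS : 0 ≤ S) {g : Eu d → ℝ}
    (hc : ContinuousOn g (closure (Ω ∩ ball p r)))
    (hb : ∀ x ∈ frontier Ω, x ∈ closedBall p r → g x ≤ 0)
    (hS' : ∀ x ∈ Ω, x ∈ closedBall p r → g x ≤ S)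
    (hi : ∀ x ∈ Ω, x ∈ ball p r → 0 < g x → ContDiffAt ℝ 2 g x ∧ -(Λ * S) ≤ lap g x) :
    ∀ x ∈ Ω, x ∈ ball p r → g x ≤ S * (AA d Λ * (‖x - p‖ ^ 2 + 2 * ρ0 * inner ℝ (x - p) ν) /
      (ρ0 * r) + ‖x - p‖ ^ 2 / r ^ 2) := by
  rcases hS.eq_or_lt with hS0 | hSpos
  · intro x hx hxr
    rw [← hS0, zero_mul]
    have := hS' x hx (ball_subset_closedBall hxr)
    linarith
  set q : Eu d := p - ρ0 • ν with hq
  set α : ℝ := 1 / (ρ0 * r) with hα
  have hαpos : 0 < α := by positivity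
  set A := AA d Λ with hA
  have hApos : 0 < A := AA_pos d hΛ
  have hnq : ∀ x : Eu d, ‖x - q‖ ^ 2 = ‖x - p‖ ^ 2 + 2 * ρ0 * inner ℝ (x - p) ν + ρ0 ^ 2 := by
    intro x
    have e : x - q = (x - p) + ρ0 • ν := by rw [hq]; abel
    rw [e, norm_add_sq_real, inner_smul_right, norm_smul, hν, Real.norm_eq_abs, abs_of_pos hρ0]
    ring
  have hqcl : ∀ x ∈ closure Ω, ρ0 ^ 2 ≤ ‖x - q‖ ^ 2 := by
    intro x hx
    have h1 : x ∉ ball q ρ0 := by
      intro hxb
      obtain ⟨y, hy1, hy2⟩ := mem_closure_iff.1 hx (ball q ρ0) isOpen_ball hxb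
      have : y ∈ ball q ρ0 ∩ Ω := ⟨hy1, hy2⟩
      rw [hext] at this
      exact this
    rw [mem_ball, not_lt, dist_eq_norm] at h1
    exact pow_le_pow_left₀ hρ0.le h1 2
  set Ψ : Eu d → ℝ := fun x => (A + (-(A * Real.exp (α * ρ0 ^ 2))) * Real.exp ((-α) * ‖x - q‖ ^ 2)) +
    (1 / r ^ 2) * ‖x - p‖ ^ 2 with hΨ
  have hΨ' : ∀ x, Ψ x = A * (1 - Real.exp (-(α * (‖x - q‖ ^ 2 - ρ0 ^ 2)))) + ‖x - p‖ ^ 2 / r ^ 2 := by
    intro x
    have e : -(α * (‖x - q‖ ^ 2 - ρ0 ^ 2)) = α * ρ0 ^ 2 + (-α) * ‖x - q‖ ^ 2 := by ring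
    rw [e, Real.exp_add, hΨ]
    ring
  have hc1 : ContDiff ℝ 2 (fun x : Eu d =>
      (-(A * Real.exp (α * ρ0 ^ 2))) * Real.exp ((-α) * ‖x - q‖ ^ 2)) :=
    contDiff_const.mul (contDiff_exp_sq _ _)
  have hc2 : ContDiff ℝ 2 (fun x : Eu d => A +
      (-(A * Real.exp (α * ρ0 ^ 2))) * Real.exp ((-α) * ‖x - q‖ ^ 2)) :=
    contDiff_const.add hc1
  have hc3 : ContDiff ℝ 2 (fun x : Eu d => (1 / r ^ 2) * ‖x - p‖ ^ 2) :=
    contDiff_const.mul (contDiff_norm_sub_sq p)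
  have hcΨ : ContDiff ℝ 2 Ψ := hc2.add hc3
  have hlapΨ : ∀ x, lap Ψ x = (-(A * Real.exp (α * ρ0 ^ 2))) * (Real.exp ((-α) * ‖x - q‖ ^ 2) *
      (4 * (-α) ^ 2 * ‖x - q‖ ^ 2 + 2 * d * (-α))) + (1 / r ^ 2) * (2 * d) := by
    intro x
    have e1 : lap Ψ x = lap (fun x : Eu d => A +
      (-(A * Real.exp (α * ρ0 ^ 2))) * Real.exp ((-α) * ‖x - q‖ ^ 2)) x +
      lap (fun x : Eu d => (1 / r ^ 2) * ‖x - p‖ ^ 2) x := lap_add hc2.contDiffAt hc3.contDiffAt
    have e2 : lap (fun x : Eu d => A +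
      (-(A * Real.exp (α * ρ0 ^ 2))) * Real.exp ((-α) * ‖x - q‖ ^ 2)) x =
      lap (fun _ : Eu d => A) x + lap (fun x : Eu d =>
        (-(A * Real.exp (α * ρ0 ^ 2))) * Real.exp ((-α) * ‖x - q‖ ^ 2)) x :=
      lap_add contDiffAt_const hc1.contDiffAt
    rw [e1, e2, lap_const, lap_const_mul _ (contDiff_exp_sq _ _).contDiffAt, lap_exp_sq,
      lap_const_mul _ (contDiff_norm_sub_sq p).contDiffAt, lap_norm_sub_sq]
    ring
  have hrρ : r ≤ ρ0 := by
    have : (0:ℝ) ≤ d := Nat.cast_nonneg d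
    nlinarith [mul_nonneg hr.le this]
  have hinn : ∀ x ∈ closedBall p r, ‖x - q‖ ^ 2 - ρ0 ^ 2 ≤ r ^ 2 + 2 * ρ0 * r := by
    intro x hx
    rw [hnq]
    rw [mem_closedBall, dist_eq_norm] at hx
    have h1 : inner ℝ (x - p) ν ≤ r := by
      have := real_inner_le_norm (x - p) ν
      rw [hν, mul_one] at this
      linarith
    have h2 : ‖x - p‖ ^ 2 ≤ r ^ 2 := pow_le_pow_left₀ (norm_nonneg _) hx 2
    linarith [mul_le_mul_of_nonneg_left h1 (by positivity : 0 ≤ 2 * ρ0)]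
  have hΨlap : ∀ x ∈ Ω, x ∈ ball p r → lap Ψ x < -Λ := by
    intro x hx hxr
    rw [hlapΨ]
    set s := ‖x - q‖ ^ 2 with hs
    have hs1 : ρ0 ^ 2 ≤ s := hqcl x (subset_closure hx)
    have hs2 := hinn x (ball_subset_closedBall hxr)
    have hT : 1 / 21 ≤ Real.exp (α * ρ0 ^ 2) * Real.exp ((-α) * s) := by
      rw [← Real.exp_add]
      have h1 : -3 ≤ α * ρ0 ^ 2 + (-α) * s := by
        have h2 : α * (s - ρ0 ^ 2) ≤ 3 := by
          have h3 : α * (s - ρ0 ^ 2) ≤ α * (r ^ 2 + 2 * ρ0 * r) :=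
            mul_le_mul_of_nonneg_left hs2 hαpos.le
          refine h3.trans ?_
          rw [hα, one_div, inv_mul_le_iff₀ (by positivity)]
          linarith [mul_le_mul_of_nonneg_right hrρ hr.le]
        linarith
      have h2 : Real.exp (-3) ≤ Real.exp (α * ρ0 ^ 2 + (-α) * s) := Real.exp_le_exp.2 h1
      have h3 : 1 / 21 ≤ Real.exp (-3) := by
        rw [Real.exp_neg, ← one_div]
        exact one_div_le_one_div_of_le (Real.exp_pos 3) exp_three_le
      linarith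
    set T := Real.exp (α * ρ0 ^ 2) * Real.exp ((-α) * s) with hTd
    have h4 : 2 * (ρ0 / r) ≤ 4 * α * s - 2 * d := by
      have h5 : ρ0 / r ≤ α * s := by
        have : α * ρ0 ^ 2 = ρ0 / r := by
          rw [hα]; field_simp
        rw [← this]
        exact mul_le_mul_of_nonneg_left hs1 hαpos.le
      have h6 : (d : ℝ) + 1 ≤ ρ0 / r := by
        rw [le_div_iff₀ hr]; linarith
      linarith
    have h5 : (0 : ℝ) < 2 * (ρ0 / r) := by positivity
    have h6 : A * (1 / 21) * (α * (2 * (ρ0 / r))) ≤ A * T * (α * (4 * α * s - 2 * d)) := by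
      refine mul_le_mul ?_ ?_ (by positivity) (by positivity)
      · exact mul_le_mul_of_nonneg_left hT hApos.le
      · exact mul_le_mul_of_nonneg_left h4 hαpos.le
    have h7 : α * (2 * (ρ0 / r)) = 2 / r ^ 2 := by
      rw [hα]; field_simp
    rw [h7] at h6
    have h8 : A * (1 / 21) * (2 / r ^ 2) = (2 * d + Λ + 2) / r ^ 2 := by
      rw [hA, AA]; field_simp
    rw [h8] at h6
    have h9 : (2 * d + Λ + 2) / r ^ 2 - (1 / r ^ 2) * (2 * d) = (Λ + 2) / r ^ 2 := by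
      field_simp; ring
    have h10 : Λ + 2 ≤ (Λ + 2) / r ^ 2 := by
      rw [le_div_iff₀ (by positivity)]
      have : r ^ 2 ≤ 1 := pow_le_one₀ hr.le hr1
      exact mul_le_of_le_one_right (by linarith) this
    have h11 : -(A * Real.exp (α * ρ0 ^ 2)) * (Real.exp (-α * s) *
        (4 * (-α) ^ 2 * s + 2 * d * (-α))) = - (A * T * (α * (4 * α * s - 2 * d))) := by
      rw [hTd]; ring
    rw [h11]
    linarith
  have hΨnn : ∀ x ∈ closure Ω, 0 ≤ Ψ x := by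
    intro x hx
    rw [hΨ']
    have h1 : Real.exp (-(α * (‖x - q‖ ^ 2 - ρ0 ^ 2))) ≤ 1 := by
      rw [Real.exp_le_one_iff]
      have := hqcl x hx
      have := mul_nonneg hαpos.le (by linarith : 0 ≤ ‖x - q‖ ^ 2 - ρ0 ^ 2)
      linarith
    have h2 : 0 ≤ ‖x - p‖ ^ 2 / r ^ 2 := by positivity
    have h3 := mul_nonneg hApos.le (by linarith : 0 ≤ 1 - Real.exp (-(α * (‖x - q‖ ^ 2 - ρ0 ^ 2))))
    linarith
  have hUb : Bornology.IsBounded (Ω ∩ ball p r) := isBounded_ball.subset inter_subset_right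
  have hclU : closure (Ω ∩ ball p r) ⊆ closure Ω ∩ closedBall p r := by
    intro x hx
    exact ⟨closure_mono inter_subset_left hx,
      closure_ball_subset_closedBall (closure_mono inter_subset_right hx)⟩
  have hmain := bmax (w := fun x => g x - S * Ψ x) (hΩ.inter isOpen_ball) hUb
    (hc.sub (continuous_const.mul hcΨ.continuous).continuousOn) ?_ ?_
  · intro x hx hxr
    have h1 := hmain x (subset_closure ⟨hx, hxr⟩)
    have h2 : Ψ x ≤ A * (‖x - p‖ ^ 2 + 2 * ρ0 * inner ℝ (x - p) ν) / (ρ0 * r) + ‖x - p‖ ^ 2 / r ^ 2 := by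
      rw [hΨ']
      have h3 : 1 - Real.exp (-(α * (‖x - q‖ ^ 2 - ρ0 ^ 2))) ≤ α * (‖x - q‖ ^ 2 - ρ0 ^ 2) := by
        have := Real.add_one_le_exp (-(α * (‖x - q‖ ^ 2 - ρ0 ^ 2)))
        linarith
      have h4 : A * (‖x - p‖ ^ 2 + 2 * ρ0 * inner ℝ (x - p) ν) / (ρ0 * r) =
          A * (α * (‖x - q‖ ^ 2 - ρ0 ^ 2)) := by
        rw [hnq, hα]; field_simp; ring
      rw [h4]
      have := mul_le_mul_of_nonneg_left h3 hApos.le
      linarith
    have h3 := mul_le_mul_of_nonneg_left h2 hS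
    linarith
  · intro x hx
    have hxcl : x ∈ closure (Ω ∩ ball p r) := frontier_subset_closure hx
    obtain ⟨hx1, hx2⟩ := hclU hxcl
    by_cases hxΩ : x ∈ Ω
    · have hxs : x ∉ ball p r := by
        intro hxb
        have : x ∈ Ω ∩ ball p r := ⟨hxΩ, hxb⟩
        rw [frontier, (hΩ.inter isOpen_ball).interior_eq] at hx
        exact hx.2 this
      have h1 := hS' x hxΩ hx2
      have h2 : 1 ≤ Ψ x := by
        rw [hΨ']
        have h3 : Real.exp (-(α * (‖x - q‖ ^ 2 - ρ0 ^ 2))) ≤ 1 := by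
          rw [Real.exp_le_one_iff]
          have := hqcl x hx1
          have := mul_nonneg hαpos.le (by linarith : 0 ≤ ‖x - q‖ ^ 2 - ρ0 ^ 2)
          linarith
        have h4 : 1 ≤ ‖x - p‖ ^ 2 / r ^ 2 := by
          rw [le_div_iff₀ (by positivity), one_mul]
          rw [mem_ball, not_lt, dist_eq_norm] at hxs
          exact pow_le_pow_left₀ hr.le hxs 2
        have h5 := mul_nonneg hApos.le
          (by linarith : 0 ≤ 1 - Real.exp (-(α * (‖x - q‖ ^ 2 - ρ0 ^ 2))))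
        linarith
      have h3 := mul_le_mul_of_nonneg_left h2 hS
      linarith
    · have hxf : x ∈ frontier Ω := by
        rw [frontier, hΩ.interior_eq]
        exact ⟨hx1, hxΩ⟩
      have h1 := hb x hxf hx2
      have h2 := mul_nonneg hS (hΨnn x hx1)
      linarith
  · rintro x ⟨hxΩ, hxb⟩ hpos
    have hpos' : 0 < g x := by
      have h2 := mul_nonneg hS (hΨnn x (subset_closure hxΩ))
      linarith
    obtain ⟨h1, h2⟩ := hi x hxΩ hxb hpos'
    have h3 : ContDiffAt ℝ 2 (fun x => S * Ψ x) x := (contDiff_const.mul hcΨ).contDiffAt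
    refine ⟨h1.sub h3, ?_⟩
    rw [lap_sub h1 h3, lap_const_mul S hcΨ.contDiffAt]
    have h4 := hΨlap x hxΩ hxb
    have h5 : S * lap Ψ x < S * (-Λ) := mul_lt_mul_of_pos_left h4 hSpos
    linarith

theorem ar_a {ρ t : ℝ} (ht : 0 ≤ t) (hρ : ρ ≤ 1) : ρ ^ 2 - (ρ - t) ^ 2 ≤ 2 * t := by
  nlinarith

theorem ar_b {t : ℝ} (ht : 0 ≤ t) (ht1 : t ≤ 1) : t ^ 2 ≤ t := by
  nlinarith

theorem ar_f {Λ C2 t a b : ℝ} (hΛ : 0 ≤ Λ) (hC2 : 0 ≤ C2) (h4 : a - b ≤ 2 * t) (h5 : t ^ 2 ≤ t) :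
    (Λ / 2 + C2) * a + (-(Λ / 2 + C2) * b + C2 * t ^ 2) ≤ (Λ + 3 * C2) * t := by
  have h1 := mul_le_mul_of_nonneg_left h4 (by linarith : 0 ≤ Λ / 2 + C2)
  have h2 := mul_le_mul_of_nonneg_left h5 hC2
  linarith

theorem ar_c {t s : ℝ} (ht : 0 ≤ t) (h7 : t ≤ s) (h6 : s ≤ 1) : t ≤ s * (2 - s) := by
  nlinarith

theorem ar_d {T a b : ℝ} (hT1 : T ≤ 1) (hq : 0 ≤ a * b) : -(a * b) ≤ T * (a * -b) := by
  nlinarith

theorem ar_e {T Λ a b c w : ℝ} (hT0 : 0 < T) (_hΛ : 0 ≤ Λ) (h3 : a ≤ b) (h4 : a + w = c * (Λ + 1))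
    (h5 : Λ + 1 ≤ c * (Λ + 1)) : Λ * T < T * (b + w) := by
  nlinarith

/-- Hopf type barrier in an interior ball -/
theorem hopf (hd : 1 ≤ d) {Λ δ ρ : ℝ} (hΛ : 0 ≤ Λ) (hδ : 0 < δ) (hρ : 0 < ρ) (hρ1 : ρ ≤ 1) :
    ∃ c : ℝ, 0 < c ∧ ∀ (p ν z : Eu d) (E m C2 : ℝ) (D : Eu d → ℝ), ‖ν‖ = 1 → z = p + ρ • ν →
      0 ≤ E → 0 < m → 0 ≤ C2 → ContinuousOn D (closedBall z ρ) →
      (∀ x ∈ sphere z ρ, -(C2 * E * ‖x - p‖ ^ 2) ≤ D x) →
      (∀ x ∈ ball z ρ, -E ≤ D x) →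
      (∀ x ∈ ball z ρ, ContDiffAt ℝ 2 D x) →
      (∀ x ∈ ball z ρ, lap D x ≤ Λ * |D x|) →
      (∀ x ∈ ball z ρ, ‖x - z‖ ≤ ρ / 10 → D x < m → lap D x ≤ Λ * |D x| - δ * m) →
      ∀ t, 0 ≤ t → t ≤ ρ → t * (c * m - (Λ + 3 * C2) * E) ≤ D (p + t • ν) := by
  set α : ℝ := 50 * d + 25 * Λ + 25 with hα
  have hd0 : (0 : ℝ) ≤ d := Nat.cast_nonneg d
  have hd1 : (1 : ℝ) ≤ d := by exact_mod_cast hd
  have hα1 : 1 ≤ α := by linarith
  have hα0 : 0 < α := by linarith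
  set X : ℝ := 2 * d * (α / ρ ^ 2) + Λ with hX
  have hX0 : 0 ≤ X := by positivity
  set c' : ℝ := min 1 (δ / (X + 1)) with hc'
  have hc'0 : 0 < c' := lt_min one_pos (by positivity)
  have hc'1 : c' ≤ 1 := min_le_left _ _
  have hc'X : c' * X < δ := by
    have h1 : c' ≤ δ / (X + 1) := min_le_right _ _
    rw [le_div_iff₀ (by positivity)] at h1
    linarith
  refine ⟨c' * (α * Real.exp (-α)), by positivity, ?_⟩
  intro p ν z E m C2 D hν hz hE hm hC2 hDc hsph hlow hcd hout hin t ht0 htρ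
  set B : ℝ := Λ / 2 + C2 with hB
  have hB0 : 0 ≤ B := by positivity
  set b : ℝ := -(α / ρ ^ 2) with hb
  -- the comparison function
  set G : Eu d → ℝ := fun x => B * ρ ^ 2 + ((-B) * ‖x - z‖ ^ 2 + C2 * ‖x - p‖ ^ 2) with hG
  set ψ : Eu d → ℝ := fun x => Real.exp (b * ‖x - z‖ ^ 2) + (-Real.exp (-α)) with hψ
  set Φ : Eu d → ℝ := fun x => (-E) * G x + (c' * m) * ψ x with hΦ
  have g1 : ContDiff ℝ 2 (fun x : Eu d => (-B) * ‖x - z‖ ^ 2) :=
    contDiff_const.mul (contDiff_norm_sub_sq z)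
  have g2 : ContDiff ℝ 2 (fun x : Eu d => C2 * ‖x - p‖ ^ 2) :=
    contDiff_const.mul (contDiff_norm_sub_sq p)
  have g3 : ContDiff ℝ 2 (fun x : Eu d => (-B) * ‖x - z‖ ^ 2 + C2 * ‖x - p‖ ^ 2) := g1.add g2
  have hGc : ContDiff ℝ 2 G := contDiff_const.add g3
  have hψc : ContDiff ℝ 2 ψ := (contDiff_exp_sq b z).add contDiff_const
  have hΦ1 : ContDiff ℝ 2 (fun x : Eu d => (-E) * G x) := contDiff_const.mul hGc
  have hΦ2 : ContDiff ℝ 2 (fun x : Eu d => (c' * m) * ψ x) := contDiff_const.mul hψc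
  have hΦc : ContDiff ℝ 2 Φ := hΦ1.add hΦ2
  have hlapG : ∀ x, lap G x = -(d * Λ) := by
    intro x
    have e1 : lap G x = lap (fun _ : Eu d => B * ρ ^ 2) x +
        lap (fun x : Eu d => (-B) * ‖x - z‖ ^ 2 + C2 * ‖x - p‖ ^ 2) x :=
      lap_add contDiffAt_const g3.contDiffAt
    rw [e1, lap_const, lap_add g1.contDiffAt g2.contDiffAt,
      lap_const_mul _ (contDiff_norm_sub_sq z).contDiffAt, lap_norm_sub_sq,
      lap_const_mul _ (contDiff_norm_sub_sq p).contDiffAt, lap_norm_sub_sq, hB]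
    ring
  have hlapψ : ∀ x, lap ψ x = Real.exp (b * ‖x - z‖ ^ 2) * (4 * b ^ 2 * ‖x - z‖ ^ 2 + 2 * d * b) := by
    intro x
    have e1 : lap ψ x = lap (fun x : Eu d => Real.exp (b * ‖x - z‖ ^ 2)) x +
        lap (fun _ : Eu d => (-Real.exp (-α))) x :=
      lap_add (contDiff_exp_sq b z).contDiffAt contDiffAt_const
    rw [e1, lap_const, lap_exp_sq, add_zero]
  have hlapΦ : ∀ x, lap Φ x = E * (d * Λ) + c' * m * lap ψ x := by
    intro x
    have e1 : lap Φ x = lap (fun x : Eu d => (-E) * G x) x +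
        lap (fun x : Eu d => (c' * m) * ψ x) x := lap_add hΦ1.contDiffAt hΦ2.contDiffAt
    rw [e1, lap_const_mul _ hGc.contDiffAt, lap_const_mul _ hψc.contDiffAt, hlapG]
    ring
  have hG0 : ∀ x ∈ closedBall z ρ, 0 ≤ G x := by
    intro x hx
    rw [mem_closedBall, dist_eq_norm] at hx
    have h1 : ‖x - z‖ ^ 2 ≤ ρ ^ 2 := pow_le_pow_left₀ (norm_nonneg _) hx 2
    have h2 : 0 ≤ C2 * ‖x - p‖ ^ 2 := by positivity
    have h3 : G x = B * (ρ ^ 2 - ‖x - z‖ ^ 2) + C2 * ‖x - p‖ ^ 2 := by rw [hG]; ring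
    rw [h3]
    have := mul_nonneg hB0 (by linarith : 0 ≤ ρ ^ 2 - ‖x - z‖ ^ 2)
    linarith
  have hψ0 : ∀ x ∈ closedBall z ρ, 0 ≤ ψ x := by
    intro x hx
    rw [mem_closedBall, dist_eq_norm] at hx
    have h1 : ‖x - z‖ ^ 2 ≤ ρ ^ 2 := pow_le_pow_left₀ (norm_nonneg _) hx 2
    have h2 : -α ≤ b * ‖x - z‖ ^ 2 := by
      rw [hb, neg_mul, neg_le_neg_iff, div_mul_eq_mul_div, div_le_iff₀ (by positivity)]
      exact mul_le_mul_of_nonneg_left h1 hα0.le
    have := Real.exp_le_exp.2 h2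
    simp only [hψ]
    linarith
  have hb0 : b ≤ 0 := by rw [hb]; simp only [Left.neg_nonpos_iff]; positivity
  have hψ1 : ∀ x, ψ x ≤ Real.exp (b * ‖x - z‖ ^ 2) := by
    intro x
    simp only [hψ]
    linarith [Real.exp_pos (-α)]
  have hexp1 : ∀ x, Real.exp (b * ‖x - z‖ ^ 2) ≤ 1 := by
    intro x
    rw [Real.exp_le_one_iff]
    exact mul_nonpos_of_nonpos_of_nonneg hb0 (by positivity)
  have hmain := bmax (U := ball z ρ) (w := fun x => Φ x - D x) isOpen_ball isBounded_ball ?_ ?_ ?_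
  · -- conclusion
    have hxz : p + t • ν - z = (t - ρ) • ν := by
      rw [hz, sub_smul]; abel
    have hnz : ‖p + t • ν - z‖ = ρ - t := by
      rw [hxz, norm_smul, hν, mul_one, Real.norm_eq_abs, abs_of_nonpos (by linarith)]; ring
    have hnp : ‖p + t • ν - p‖ = t := by
      rw [add_sub_cancel_left, norm_smul, hν, mul_one, Real.norm_eq_abs, abs_of_nonneg ht0]
    have hmem : p + t • ν ∈ closure (ball z ρ) := by
      rw [closure_ball z hρ.ne', mem_closedBall, dist_eq_norm, hnz]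
      linarith
    have h1 := hmain _ hmem
    have h2 : (-E) * G (p + t • ν) ≥ -((Λ + 3 * C2) * E) * t := by
      have h3 : G (p + t • ν) ≤ (Λ + 3 * C2) * t := by
        simp only [hG]
        rw [hnz, hnp, hB]
        have h4 : ρ ^ 2 - (ρ - t) ^ 2 ≤ 2 * t := ar_a ht0 hρ1
        have h5 : t ^ 2 ≤ t := ar_b ht0 (htρ.trans hρ1)
        exact ar_f hΛ hC2 h4 h5
      linarith [mul_le_mul_of_nonneg_left h3 hE]
    have h3 : α * Real.exp (-α) * t ≤ ψ (p + t • ν) := by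
      simp only [hψ]
      rw [hnz]
      have e1 : b * (ρ - t) ^ 2 = -α + α * (1 - ((ρ - t) / ρ) ^ 2) := by
        rw [hb]; field_simp; ring
      rw [e1, Real.exp_add]
      have h4 : α * (1 - ((ρ - t) / ρ) ^ 2) + 1 ≤ Real.exp (α * (1 - ((ρ - t) / ρ) ^ 2)) :=
        Real.add_one_le_exp _
      have h5 : t ≤ 1 - ((ρ - t) / ρ) ^ 2 := by
        have e2 : 1 - ((ρ - t) / ρ) ^ 2 = (t / ρ) * (2 - t / ρ) := by field_simp; ring
        rw [e2]
        have h6 : t / ρ ≤ 1 := by rw [div_le_one hρ]; exact htρ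
        have h7 : t ≤ t / ρ := by rw [le_div_iff₀ hρ]; exact mul_le_of_le_one_right ht0 hρ1
        exact ar_c ht0 h7 h6
      have h6 := mul_le_mul_of_nonneg_left h5 hα0.le
      have h7 := Real.exp_pos (-α)
      linarith [mul_le_mul_of_nonneg_left (h4) h7.le, mul_le_mul_of_nonneg_left h6 h7.le]
    have h4 := mul_le_mul_of_nonneg_left h3 (by positivity : 0 ≤ c' * m)
    have h5 : Φ (p + t • ν) = (-E) * G (p + t • ν) + (c' * m) * ψ (p + t • ν) := rfl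
    linarith
  · rw [closure_ball z hρ.ne']
    exact hΦc.continuous.continuousOn.sub hDc
  · intro x hx
    rw [frontier_ball z hρ.ne'] at hx
    have h1 := hsph x hx
    have hxz : ‖x - z‖ = ρ := by rw [← dist_eq_norm]; exact hx
    have h2 : ψ x = 0 := by
      simp only [hψ]
      rw [hxz]
      have : b * ρ ^ 2 = -α := by rw [hb]; field_simp
      rw [this]; ring
    have h3 : G x = C2 * ‖x - p‖ ^ 2 := by
      simp only [hG]; rw [hxz]; ring
    have h4 : Φ x = (-E) * G x + (c' * m) * ψ x := rfl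
    rw [h4, h2, h3]
    linarith
  · intro x hx hpos
    have hxc : x ∈ closedBall z ρ := ball_subset_closedBall hx
    have hcdx := hcd x hx
    refine ⟨hΦc.contDiffAt.sub hcdx, ?_⟩
    rw [lap_sub hΦc.contDiffAt hcdx, hlapΦ]
    have hΦle : Φ x ≤ c' * m * ψ x := by
      have : Φ x = (-E) * G x + (c' * m) * ψ x := rfl
      have h2 := mul_nonneg hE (hG0 x hxc)
      linarith
    have hDabs : |D x| ≤ E + c' * m * ψ x := by
      rw [abs_le]
      have h1 := hlow x hx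
      have h2 : 0 ≤ c' * m * ψ x := mul_nonneg (by positivity) (hψ0 x hxc)
      constructor
      · linarith
      · linarith
    have hΛD := mul_le_mul_of_nonneg_left hDabs hΛ
    have hEd : E * Λ ≤ E * (d * Λ) := by
      refine mul_le_mul_of_nonneg_left ?_ hE
      exact le_mul_of_one_le_left hΛ hd1
    have hcm : 0 < c' * m := by positivity
    set T := Real.exp (b * ‖x - z‖ ^ 2) with hT
    have hT0 : 0 < T := Real.exp_pos _
    have hψT : ψ x ≤ T := hψ1 x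
    have hT1 : T ≤ 1 := hexp1 x
    rw [hlapψ x, ← hT]
    rcases le_or_gt ‖x - z‖ (ρ / 10) with hcase | hcase
    · have hDm : D x < m := by
        have h1 : c' * m * ψ x ≤ 1 * m * 1 := by
          refine mul_le_mul ?_ (hψT.trans hT1) (hψ0 x hxc) (by positivity)
          exact mul_le_mul_of_nonneg_right hc'1 hm.le
        linarith
      have h1 := hin x hx hcase hDm
      have h2 : -X ≤ T * (4 * b ^ 2 * ‖x - z‖ ^ 2 + 2 * d * b) - Λ * ψ x := by
        have h3 : 0 ≤ T * (4 * b ^ 2 * ‖x - z‖ ^ 2) := by positivity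
        have h4 : -(2 * d * (α / ρ ^ 2)) ≤ T * (2 * d * b) := by
          rw [hb]
          have h5 : 0 ≤ 2 * d * (α / ρ ^ 2) := by positivity
          exact ar_d hT1 h5
        have h5 : Λ * ψ x ≤ Λ * 1 := mul_le_mul_of_nonneg_left (hψT.trans hT1) hΛ
        rw [hX]
        linarith
      have h3 := mul_le_mul_of_nonneg_left h2 hcm.le
      have h4 : c' * X * m < δ * m := mul_lt_mul_of_pos_right hc'X hm
      linarith
    · have h1 := hout x hx
      have h2 : Λ * T < T * (4 * b ^ 2 * ‖x - z‖ ^ 2 + 2 * d * b) := by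
        have hs : (ρ / 10) ^ 2 ≤ ‖x - z‖ ^ 2 := pow_le_pow_left₀ (by positivity) hcase.le 2
        have h3 : 4 * b ^ 2 * (ρ / 10) ^ 2 ≤ 4 * b ^ 2 * ‖x - z‖ ^ 2 :=
          mul_le_mul_of_nonneg_left hs (by positivity)
        have h4 : 4 * b ^ 2 * (ρ / 10) ^ 2 + 2 * d * b = (α / ρ ^ 2) * (Λ + 1) := by
          rw [hb, hα]; field_simp; ring
        have h5 : (Λ + 1) ≤ (α / ρ ^ 2) * (Λ + 1) := by
          have h6 : 1 ≤ α / ρ ^ 2 := by
            rw [le_div_iff₀ (by positivity)]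
            rw [one_mul]; exact hα1.trans' (pow_le_one₀ hρ.le hρ1)
          exact le_mul_of_one_le_left (by linarith) h6
        exact ar_e hT0 hΛ h3 h4 h5
      have h3 : Λ * ψ x ≤ Λ * T := mul_le_mul_of_nonneg_left hψT hΛ
      have h4 : 0 < c' * m * (T * (4 * b ^ 2 * ‖x - z‖ ^ 2 + 2 * d * b) - Λ * ψ x) :=
        mul_pos hcm (by linarith)
      linarith

end Pool.Agent.K1H28.ES
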