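import Pool.Agent.K1H28.ES.Geo

set_option autoImplicit false
open MeasureTheory Filter Topology Set Metric
open scoped InnerProductSpace

namespace Pool.Agent.K1H28.ES
open Pool.Agent.H314.Dir

variable {d : ℕ}

/-- projection on the hyperplane orthogonal to `ν0` -/
noncomputable def prj (ν0 x : Eu d) : Eu d := x - (⟪x, ν0⟫_ℝ) • ν0

theorem norm_prj_le {ν0 : Eu d} (hν : ‖ν0‖ = 1) (x : Eu d) : ‖prj ν0 x‖ ≤ ‖x‖ := by
  have h1 : ‖prj ν0 x‖ ^ 2 ≤ ‖x‖ ^ 2 := by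
    unfold prj
    rw [norm_sub_sq_real, inner_smul_right, norm_smul, hν, Real.norm_eq_abs, mul_one, sq_abs]
    nlinarith [sq_nonneg (⟪x, ν0⟫_ℝ)]
  by_contra hcon
  rw [not_le] at hcon
  nlinarith [norm_nonneg x]

/-- second order Taylor bound -/
theorem taylor_bound {g : Eu d → ℝ} {r M : ℝ} (hM : 0 ≤ M)
    (hg : ContDiffOn ℝ 2 g (ball 0 r)) (h2 : ∀ x ∈ ball (0 : Eu d) r, ‖fderiv ℝ (fderiv ℝ g) x‖ ≤ M)
    {h : Eu d} (hh : h ∈ ball (0 : Eu d) r) : |g h - g 0 - fderiv ℝ g 0 h| ≤ M * ‖h‖ ^ 2 := by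
  have h0 : (0 : Eu d) ∈ ball (0 : Eu d) r := by
    rw [mem_ball_zero_iff] at hh
    rw [mem_ball_zero_iff, norm_zero]
    exact lt_of_le_of_lt (norm_nonneg _) hh
  have hcd : ∀ x ∈ ball (0 : Eu d) r, ContDiffAt ℝ 2 g x := fun x hx =>
    hg.contDiffAt (isOpen_ball.mem_nhds hx)
  have hlip : ∀ x ∈ ball (0 : Eu d) r, ‖fderiv ℝ g x - fderiv ℝ g 0‖ ≤ M * ‖x - 0‖ := by
    intro x hx
    refine (convex_ball (0 : Eu d) r).norm_image_sub_le_of_norm_fderiv_le (𝕜 := ℝ)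
      (f := fderiv ℝ g) ?_ h2 h0 hx
    intro y hy
    exact ((hcd y hy).fderiv_right (m := 1) (by norm_num)).differentiableAt (by norm_num)
  have hsub : closedBall (0 : Eu d) ‖h‖ ⊆ ball 0 r := by
    rw [mem_ball_zero_iff] at hh
    exact closedBall_subset_ball hh
  have h3 := (convex_closedBall (0 : Eu d) ‖h‖).norm_image_sub_le_of_norm_hasFDerivWithin_le'
    (f := g) (f' := fderiv ℝ g) (φ := fderiv ℝ g 0) (C := M * ‖h‖) (x := 0) (y := h)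
    (fun x hx => (((hcd x (hsub hx)).differentiableAt (by norm_num)).hasFDerivAt).hasFDerivWithinAt)
    (fun x hx => ?_) (mem_closedBall_self (norm_nonneg _)) (by simp)
  · rw [sub_zero, Real.norm_eq_abs] at h3
    calc |g h - g 0 - fderiv ℝ g 0 h| ≤ M * ‖h‖ * ‖h‖ := h3
      _ = M * ‖h‖ ^ 2 := by ring
  · refine (hlip x (hsub hx)).trans (mul_le_mul_of_nonneg_left ?_ hM)
    simpa using hx

theorem twoBall_of_graph {Ω : Set (Eu d)} (hΩ : IsOpen Ω) {p ν0 : Eu d} (hp : p ∈ frontier Ω)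
    {r M : ℝ} (hr : 0 < r) (hM : 0 ≤ M) (hν : ‖ν0‖ = 1) {g : Eu d → ℝ}
    (hg : ContDiffOn ℝ 2 g (ball 0 r)) (h2 : ∀ x ∈ ball (0 : Eu d) r, ‖fderiv ℝ (fderiv ℝ g) x‖ ≤ M)
    (hiff : ∀ q ∈ ball p r, (q ∈ Ω ↔ g (prj ν0 (q - p)) < ⟪q - p, ν0⟫_ℝ)) {ρ0 : ℝ} (hρ0 : 0 < ρ0)
    (h2ρ : 2 * ρ0 ≤ r) (hMρ : 2 * M * ρ0 ≤ 1) : ∃ ν, IsN ρ0 Ω p ν := by
  have hprj0 : prj ν0 (0 : Eu d) = 0 := by simp [prj]
  have hpΩ : p ∉ Ω := frontier_not_mem hΩ hp
  -- g 0 = 0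
  have hg0a : 0 ≤ g 0 := by
    by_contra hcon
    rw [not_le] at hcon
    apply hpΩ
    rw [hiff p (mem_ball_self hr), sub_self, hprj0, inner_zero_left]
    exact hcon
  have hg0 : g 0 = 0 := by
    refine le_antisymm ?_ hg0a
    by_contra hcon
    rw [not_le] at hcon
    have hgc : ContinuousAt g (prj ν0 (p - p)) := by
      rw [sub_self, hprj0]
      exact (hg.contDiffAt (isOpen_ball.mem_nhds (mem_ball_self hr))).continuousAt
    have hprjc : Continuous (fun q : Eu d => prj ν0 (q - p)) := by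
      unfold prj; fun_prop
    have hcomp : ContinuousAt (fun q : Eu d => g (prj ν0 (q - p)) - ⟪q - p, ν0⟫_ℝ) p := by
      have h1 : ContinuousAt (fun q : Eu d => g (prj ν0 (q - p))) p :=
        ContinuousAt.comp (f := fun q : Eu d => prj ν0 (q - p)) hgc hprjc.continuousAt
      exact h1.sub (by fun_prop)
    have hv : 0 < g (prj ν0 (p - p)) - ⟪p - p, ν0⟫_ℝ := by
      rw [sub_self, hprj0, inner_zero_left, sub_zero]; exact hcon
    have hev := hcomp.eventually (lt_mem_nhds hv)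
    have hfr : ∃ᶠ q in 𝓝 p, q ∈ Ω := mem_closure_iff_frequently.1 (frontier_subset_closure hp)
    obtain ⟨q, hq1, hq2, hq3⟩ := (hfr.and_eventually (hev.and (ball_mem_nhds p hr))).exists
    rw [hiff q hq3] at hq1
    linarith
  set w : Eu d := (InnerProductSpace.toDual ℝ (Eu d)).symm (fderiv ℝ g 0) with hw
  have hwd : ∀ y, fderiv ℝ g 0 y = ⟪w, y⟫_ℝ := by
    intro y
    rw [hw, InnerProductSpace.toDual_symm_apply]
  set N : Eu d := ν0 - prj ν0 w with hN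
  have hNi : ∀ y, ⟪y, N⟫_ℝ = ⟪y, ν0⟫_ℝ - fderiv ℝ g 0 (prj ν0 y) := by
    intro y
    rw [hwd, hN, inner_sub_right]
    congr 1
    unfold prj
    rw [inner_sub_right, inner_sub_right, inner_smul_right, inner_smul_right, real_inner_comm w y]
    ring
  have hprjν : prj ν0 ν0 = 0 := by
    unfold prj
    rw [real_inner_self_eq_norm_sq, hν]; simp
  have hN1 : 1 ≤ ‖N‖ := by
    have h1 : ⟪ν0, N⟫_ℝ = 1 := by
      rw [hNi, hprjν, map_zero, real_inner_self_eq_norm_sq, hν]; norm_num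
    have h2 := real_inner_le_norm ν0 N
    rw [h1, hν, one_mul] at h2
    exact h2
  have hN0 : 0 < ‖N‖ := by linarith
  set ν : Eu d := ‖N‖⁻¹ • N with hνd
  have hν1 : ‖ν‖ = 1 := by
    rw [hνd, norm_smul, norm_inv, norm_norm, inv_mul_cancel₀ hN0.ne']
  have hNν : ∀ y, ⟪y, N⟫_ℝ = ‖N‖ * ⟪y, ν⟫_ℝ := by
    intro y
    rw [hνd, inner_smul_right, ← mul_assoc, mul_inv_cancel₀ hN0.ne', one_mul]
  have hMρ' : M ≤ 1 / (2 * ρ0) := by
    rw [le_div_iff₀ (by positivity)]; linarith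
  have htay : ∀ x : Eu d, ‖x‖ < r → |⟪x, ν0⟫_ℝ - g (prj ν0 x) - ⟪x, N⟫_ℝ| ≤ M * ‖x‖ ^ 2 := by
    intro x hx
    have hpx := norm_prj_le hν x
    have h1 := taylor_bound hM hg h2 (h := prj ν0 x) (by rw [mem_ball_zero_iff]; linarith)
    rw [hg0, sub_zero] at h1
    rw [hNi]
    have e : ⟪x, ν0⟫_ℝ - g (prj ν0 x) - (⟪x, ν0⟫_ℝ - fderiv ℝ g 0 (prj ν0 x)) =
        -(g (prj ν0 x) - fderiv ℝ g 0 (prj ν0 x)) := by ring
    rw [e, abs_neg]
    refine h1.trans (mul_le_mul_of_nonneg_left ?_ hM)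
    exact pow_le_pow_left₀ (norm_nonneg _) hpx 2
  refine ⟨ν, hν1, ?_, ?_⟩
  · intro q hq
    rw [mem_ball, dist_eq_norm] at hq
    have e : q - (p + ρ0 • ν) = (q - p) - ρ0 • ν := by abel
    rw [e] at hq
    set x : Eu d := q - p with hx
    have h3 : ‖x - ρ0 • ν‖ ^ 2 < ρ0 ^ 2 := by
      have := norm_nonneg (x - ρ0 • ν)
      nlinarith
    rw [norm_sub_sq_real, inner_smul_right, norm_smul, hν1, Real.norm_eq_abs,
      abs_of_pos hρ0] at h3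
    have h4 : ‖x‖ ^ 2 < 2 * ρ0 * ⟪x, ν⟫_ℝ := by nlinarith
    have hxr : ‖x‖ < r := by
      have h5 : ‖x‖ ≤ ‖x - ρ0 • ν‖ + ‖ρ0 • ν‖ := by
        have := norm_add_le (x - ρ0 • ν) (ρ0 • ν)
        rwa [sub_add_cancel] at this
      rw [norm_smul, hν1, Real.norm_eq_abs, abs_of_pos hρ0] at h5
      linarith
    rw [hiff q (by rw [mem_ball, dist_eq_norm]; exact hxr), ← hx]
    have h5 := (abs_le.1 (htay x hxr)).1
    rw [hNν] at h5
    have h6 : 0 < ⟪x, ν⟫_ℝ := by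
      have : 0 ≤ ‖x‖ ^ 2 := by positivity
      by_contra hcon
      rw [not_lt] at hcon
      nlinarith
    have h7 : ⟪x, ν⟫_ℝ ≤ ‖N‖ * ⟪x, ν⟫_ℝ := by nlinarith
    have h8 : M * ‖x‖ ^ 2 ≤ 1 / (2 * ρ0) * ‖x‖ ^ 2 := mul_le_mul_of_nonneg_right hMρ' (by positivity)
    have h9 : 1 / (2 * ρ0) * ‖x‖ ^ 2 < ⟪x, ν⟫_ℝ := by
      rw [div_mul_eq_mul_div, div_lt_iff₀ (by positivity)]
      linarith
    linarith
  · rw [Set.eq_empty_iff_forall_notMem]
    rintro q ⟨hq, hqΩ⟩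
    rw [mem_ball, dist_eq_norm] at hq
    have e : q - (p - ρ0 • ν) = (q - p) + ρ0 • ν := by abel
    rw [e] at hq
    set x : Eu d := q - p with hx
    have h3 : ‖x + ρ0 • ν‖ ^ 2 < ρ0 ^ 2 := by
      have := norm_nonneg (x + ρ0 • ν)
      nlinarith
    rw [norm_add_sq_real, inner_smul_right, norm_smul, hν1, Real.norm_eq_abs,
      abs_of_pos hρ0] at h3
    have h4 : ‖x‖ ^ 2 < -(2 * ρ0 * ⟪x, ν⟫_ℝ) := by nlinarith
    have hxr : ‖x‖ < r := by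
      have h5 : ‖x‖ ≤ ‖x + ρ0 • ν‖ + ‖ρ0 • ν‖ := by
        have := norm_sub_le (x + ρ0 • ν) (ρ0 • ν)
        rwa [add_sub_cancel_right] at this
      rw [norm_smul, hν1, Real.norm_eq_abs, abs_of_pos hρ0] at h5
      linarith
    rw [hiff q (by rw [mem_ball, dist_eq_norm]; exact hxr), ← hx] at hqΩ
    have h5 := (abs_le.1 (htay x hxr)).2
    rw [hNν] at h5
    have h6 : ⟪x, ν⟫_ℝ < 0 := by
      have : 0 ≤ ‖x‖ ^ 2 := by positivity
      by_contra hcon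
      rw [not_lt] at hcon
      nlinarith
    have h7 : ‖N‖ * ⟪x, ν⟫_ℝ ≤ ⟪x, ν⟫_ℝ := by nlinarith
    have h8 : M * ‖x‖ ^ 2 ≤ 1 / (2 * ρ0) * ‖x‖ ^ 2 := mul_le_mul_of_nonneg_right hMρ' (by positivity)
    have h9 : 1 / (2 * ρ0) * ‖x‖ ^ 2 < -⟪x, ν⟫_ℝ := by
      rw [div_mul_eq_mul_div, div_lt_iff₀ (by positivity)]
      linarith
    linarith

/-- translations preserve touching balls -/
theorem IsN.translate {ρ0 : ℝ} {Ω : Set (Eu d)} {p ν : Eu d} (h : IsN ρ0 Ω p ν) (a : Eu d) :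
    IsN ρ0 ((fun x => x + a) ⁻¹' Ω) (p - a) ν := by
  refine ⟨h.unit, ?_, ?_⟩
  · intro x hx
    apply h.inn
    rw [mem_ball, dist_eq_norm] at hx ⊢
    have e : x + a - (p + ρ0 • ν) = x - (p - a + ρ0 • ν) := by abel
    rw [e]; exact hx
  · rw [Set.eq_empty_iff_forall_notMem]
    rintro x ⟨hx, hxΩ⟩
    have : x + a ∈ ball (p - ρ0 • ν) ρ0 ∩ Ω := by
      refine ⟨?_, hxΩ⟩
      rw [mem_ball, dist_eq_norm] at hx ⊢
      have e : x + a - (p - ρ0 • ν) = x - (p - a - ρ0 • ν) := by abel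
      rw [e]; exact hx
    rw [h.ext] at this
    exact this

theorem frontier_translate (Ω : Set (Eu d)) (a : Eu d) :
    frontier ((fun x => x + a) ⁻¹' Ω) = (fun x => x + a) ⁻¹' frontier Ω :=
  ((Homeomorph.addRight a).preimage_frontier Ω).symm

theorem closure_translate (Ω : Set (Eu d)) (a : Eu d) :
    closure ((fun x => x + a) ⁻¹' Ω) = (fun x => x + a) ⁻¹' closure Ω :=
  ((Homeomorph.addRight a).preimage_closure Ω).symm

theorem TB.translate {ρ0 : ℝ} {Ω : Set (Eu d)} (h : TB ρ0 Ω) (a : Eu d) :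
    TB ρ0 ((fun x => x + a) ⁻¹' Ω) := by
  refine ⟨h.op.preimage (by fun_prop), h.pos, h.le, fun p hp => ?_⟩
  rw [frontier_translate] at hp
  obtain ⟨ν, hν⟩ := h.normal _ hp
  have := hν.translate a
  rw [add_sub_cancel_right] at this
  exact ⟨ν, this⟩

end Pool.Agent.K1H28.ES
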