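import Pool.Agent.K1H28.ES.Sol

set_option autoImplicit false
open MeasureTheory Filter Topology Set Metric

namespace Pool.Agent.K1H28.ES
open Pool.Agent.H314.Dir

variable {d : ℕ}

/-- a dilated solution -/
structure DSol (κ : ℝ) (f : ℝ → ℝ) (Ω : Set (Eu d)) (U : Eu d → ℝ) : Prop where
  cd : ContDiffOn ℝ 2 U Ω
  cont : ContinuousOn U (closure Ω)
  nn : ∀ x ∈ closure Ω, 0 ≤ U x
  le : ∀ x ∈ Ω, U x ≤ 1
  eq : ∀ x ∈ Ω, - lap U x = κ ^ 2 * f (U x)

theorem DSol.mem {κ : ℝ} {f : ℝ → ℝ} {Ω : Set (Eu d)} {U : Eu d → ℝ} (h : DSol κ f Ω U) {x : Eu d}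
    (hx : x ∈ Ω) : U x ∈ Icc (0:ℝ) 1 := ⟨h.nn x (subset_closure hx), h.le x hx⟩

theorem DSol.cda {κ : ℝ} {f : ℝ → ℝ} {Ω : Set (Eu d)} (hΩ : IsOpen Ω) {U : Eu d → ℝ}
    (h : DSol κ f Ω U) {x : Eu d} (hx : x ∈ Ω) : ContDiffAt ℝ 2 U x :=
  h.cd.contDiffAt (hΩ.mem_nhds hx)

theorem ar_kap {δ κ : ℝ} (hδ : 0 < δ) (h : 1 + δ ≤ κ) : 2 * δ ≤ κ ^ 2 - 1 := by
  nlinarith

theorem ar_s1 {a b ρ0 ρ : ℝ} (_ha : 0 ≤ a) (hb : 0 ≤ b) (hab : a + b = 1) (h : ρ ≤ ρ0) :
    a * ρ0 + b * ρ ≤ ρ0 := by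
  have e : b = 1 - a := by linarith
  subst e
  nlinarith

theorem ar_s2 {a b ρ0 ρ : ℝ} (ha : 0 ≤ a) (hb : 0 ≤ b) (hab : a + b = 1) (h0 : 0 < ρ)
    (h : ρ ≤ ρ0) : 4 * (ρ / 5) < a * ρ0 + b * ρ := by
  have e : b = 1 - a := by linarith
  subst e
  nlinarith

/-- small displacements change a solution by a small factor, away from the boundary -/
theorem disp {L cf : ℝ} {f : ℝ → ℝ} (hf : Rf L cf f) {Ω : Set (Eu d)} (hΩ : IsOpen Ω)
    {θ ρ1 : ℝ} (hθ : 0 < θ) (hρ1 : 0 < ρ1) : ∃ τ : ℝ, 0 < τ ∧ τ < ρ1 ∧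
      ∀ v : Eu d → ℝ, Sol f Ω v → ∀ y : Eu d,
      ρ1 ≤ dd Ω y → ∀ y'' : Eu d, ‖y'' - y‖ ≤ τ →
        y'' ∈ Ω ∧ v y - v y'' ≤ θ * v y ∧ v y - v y'' ≤ θ * (1 - v y) := by
  have hCO := CO_pos d hf.L0
  set θ' : ℝ := θ / (2 * CO d L) with hθ'
  have hθ'0 : 0 < θ' := by positivity
  set r : ℝ := min (ρ1 / 5) (min 1 θ') with hr
  have hr0 : 0 < r := lt_min (by positivity) (lt_min one_pos hθ'0)
  have hr1 : r ≤ 1 := (min_le_right _ _).trans (min_le_left _ _)
  have hrθ : r ≤ θ' := (min_le_right _ _).trans (min_le_right _ _)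
  have hrρ : r ≤ ρ1 / 5 := min_le_left _ _
  set τ : ℝ := r * min 1 θ' with hτ
  have hm0 : 0 < min 1 θ' := lt_min one_pos hθ'0
  have hτ0 : 0 < τ := by positivity
  have hτr : τ ≤ r := by
    have : min 1 θ' ≤ 1 := min_le_left _ _
    exact mul_le_of_le_one_right hr0.le this
  have hτθ : τ ≤ r * θ' := mul_le_mul_of_nonneg_left (min_le_right _ _) hr0.le
  refine ⟨τ, hτ0, by linarith, ?_⟩
  intro v hv y hy y'' hyy
  have hb := ball_dd_subset Ω y
  have hyy' : ‖y - y''‖ ≤ τ := by rw [norm_sub_rev]; exact hyy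
  have hsub : closedBall y (4 * r) ⊆ Ω := (closedBall_subset_ball (by linarith)).trans hb
  have hy''Ω : y'' ∈ Ω := hsub (by rw [mem_closedBall, dist_eq_norm]; linarith)
  have hyΩ : y ∈ Ω := hsub (mem_closedBall_self (by linarith))
  have h1 := osc hf.L0 hΩ (hv.nic hf) hr0 hr1 (x := y) (x' := y'') (by linarith) hsub
  have h2 := osc hf.L0 hΩ (hv.nic' hf hΩ) hr0 hr1 (x := y) (x' := y'') (by linarith) hsub
  have h3 : CO d L * (r ^ 2 + ‖y - y''‖ / r) ≤ θ := by
    have h4 : r ^ 2 ≤ θ' := by linarith [mul_le_of_le_one_right hr0.le hr1, (sq r).symm.le, (sq r).le]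
    have h5 : ‖y - y''‖ / r ≤ θ' := by
      rw [div_le_iff₀ hr0]; linarith
    have h6 : CO d L * (θ' + θ') = θ := by rw [hθ']; field_simp; ring
    rw [← h6]
    exact mul_le_mul_of_nonneg_left (by linarith) hCO.le
  have hv0 := (hv.pos y hyΩ).le
  have hv1 := hv.le y hyΩ
  refine ⟨hy''Ω, ?_, ?_⟩
  · exact (le_abs_self _).trans (h1.trans (mul_le_mul_of_nonneg_right h3 hv0))
  · have e : (1 - v y) - (1 - v y'') = -(v y - v y'') := by ring
    simp only [e, abs_neg] at h2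
    exact (le_abs_self _).trans (h2.trans (mul_le_mul_of_nonneg_right h3 (by linarith)))

/-- differential inequality for the difference -/
theorem lap_diff_le {L cf : ℝ} {f : ℝ → ℝ} (hf : Rf L cf f) {Ω : Set (Eu d)} (hΩ : IsOpen Ω)
    {v : Eu d → ℝ} (hv : Sol f Ω v) {κ κ0 : ℝ} (hκ1 : 1 ≤ κ) (hκ : κ ≤ κ0)
    {U : Eu d → ℝ} (hU : DSol κ f Ω U) {x : Eu d} (hx : x ∈ Ω) :
    lap (fun y => U y - v y) x ≤ κ0 ^ 2 * L * |U x - v x| - (κ ^ 2 - 1) * f (v x) := by
  rw [lap_sub (hU.cda hΩ hx) (hv.cda hΩ hx)]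
  have h1 := hU.eq x hx
  have h2 := hv.eq x hx
  have h3 := hf.lip _ (hv.mem hx) _ (hU.mem hx)
  have h4 : f (v x) - f (U x) ≤ L * |U x - v x| := by
    rw [abs_sub_comm (U x)]
    exact (le_abs_self _).trans h3
  have h5 : κ ^ 2 * (f (v x) - f (U x)) ≤ κ ^ 2 * (L * |U x - v x|) :=
    mul_le_mul_of_nonneg_left h4 (by positivity)
  have h6 : κ ^ 2 * (L * |U x - v x|) ≤ κ0 ^ 2 * (L * |U x - v x|) := by
    refine mul_le_mul_of_nonneg_right ?_ (mul_nonneg hf.L0 (abs_nonneg _))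
    exact pow_le_pow_left₀ (by linarith) hκ 2
  linarith

/-- no contact in the interior -/
theorem contra_int (hd : 1 ≤ d) {L cf : ℝ} {f : ℝ → ℝ} (hf : Rf L cf f) {ρ0 : ℝ} {Ω : Set (Eu d)}
    (hT : TB ρ0 Ω) (hne : Ωᶜ.Nonempty) {δ κ0 ρ1 : ℝ} (hδ : 0 < δ) (hκ0 : 1 ≤ κ0)
    (hρ1 : 0 < ρ1) (hρ11 : ρ1 ≤ 1) :
    ∃ τ : ℝ, 0 < τ ∧ ∀ v : Eu d → ℝ, Sol f Ω v → ∀ κ : ℝ, 1 + δ ≤ κ → κ ≤ κ0 → ∀ U : Eu d → ℝ,
      DSol κ f Ω U → ∀ y' : Eu d, ρ1 ≤ dd Ω y' →
      (∀ y ∈ Ω, ‖y - y'‖ ≤ 2 → ∃ y'', ‖y'' - y‖ ≤ τ ∧ (y'' ∈ Ω → v y'' ≤ U y)) →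
      v y' ≤ U y' := by
  have hCH := one_lt_CH d hf.L0
  have hcf := hf.cf0
  have hL := hf.L0
  have hΩ := hT.op
  set r : ℝ := ρ1 / 10 with hr
  have hr0 : 0 < r := by positivity
  set X : ℝ := 2 * d / r ^ 2 + κ0 ^ 2 * L + 1 with hX
  have hX0 : 0 < X := by positivity
  set θ : ℝ := 2 * δ * cf / (CH d L * X) with hθ
  have hθ0 : 0 < θ := by positivity
  obtain ⟨τ, hτ0, hτρ, hdisp⟩ := disp hf hΩ (θ := θ / CH d L) (ρ1 := ρ1 * (9 / 10)) (by positivity)
    (by positivity)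
  refine ⟨τ, hτ0, ?_⟩
  intro v hv κ hκδ hκ U hU y' hy' hstar
  obtain ⟨rr, hrr, -, hone⟩ := one_sub_low hf hT hne (d := d)
  have hb := ball_dd_subset Ω y'
  have hy'Ω : y' ∈ Ω := hb (mem_ball_self (by linarith))
  -- positivity of `q`
  obtain ⟨n, hn⟩ := exists_nat_ge (dd Ω y' / rr)
  have h1v : 0 < 1 - v y' := by
    have := hone v hv y' hy'Ω n (by rwa [← div_le_iff₀ hrr])
    by_contra h
    rw [not_lt] at h
    have := mul_nonpos_of_nonneg_of_nonpos (by positivity : 0 ≤ CH d L ^ n) h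
    linarith
  set q : ℝ := min (v y') (1 - v y') with hq
  have hq0 : 0 < q := lt_min (hv.pos y' hy'Ω) h1v
  set E : ℝ := θ * q with hE
  have hE0 : 0 < E := by positivity
  have hcb : ∀ y ∈ closedBall y' r, ρ1 * (9 / 10) ≤ dd Ω y := by
    intro y hy
    have := dd_le_dd_add Ω y' y
    rw [mem_closedBall, dist_comm, dist_eq_norm] at hy
    linarith
  have hcbΩ : closedBall y' r ⊆ Ω := (closedBall_subset_ball (by linarith)).trans hb
  have hHar : ∀ y ∈ closedBall y' r, q ≤ CH d L * v y ∧ q ≤ CH d L * (1 - v y) ∧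
      v y ≤ CH d L * v y' ∧ 1 - v y ≤ CH d L * (1 - v y') := by
    intro y hy
    have h1 : closedBall y (4 * r) ⊆ Ω :=
      (closedBall_subset_ball (by have := hcb y hy; linarith)).trans (ball_dd_subset Ω y)
    have h2 : closedBall y' (4 * r) ⊆ Ω :=
      (closedBall_subset_ball (by linarith)).trans hb
    have hr1 : r ≤ 1 := by linarith
    rw [mem_closedBall, dist_eq_norm] at hy
    have hy2 : ‖y' - y‖ ≤ r := by rw [norm_sub_rev]; exact hy
    refine ⟨(min_le_left _ _).trans (harnack hL hΩ (hv.nic hf) hr0 hr1 hy2 h1),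
      (min_le_right _ _).trans (harnack hL hΩ (hv.nic' hf hΩ) hr0 hr1 hy2 h1),
      harnack hL hΩ (hv.nic hf) hr0 hr1 hy h2, harnack hL hΩ (hv.nic' hf hΩ) hr0 hr1 hy h2⟩
  -- lower bound for D
  have hlow : ∀ y ∈ closedBall y' r, -E ≤ U y - v y := by
    intro y hy
    have hyΩ := hcbΩ hy
    have hyr : ‖y - y'‖ ≤ 2 := by
      rw [mem_closedBall, dist_eq_norm] at hy; linarith
    obtain ⟨y'', h1, h2⟩ := hstar y hyΩ hyr
    obtain ⟨h3, h4, h5⟩ := hdisp v hv y (hcb y hy) y'' h1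
    have h6 := h2 h3
    obtain ⟨-, -, h7, h8⟩ := hHar y hy
    have h9 : v y - v y'' ≤ E := by
      rcases min_choice (v y') (1 - v y') with h | h
      · have : θ / CH d L * v y ≤ θ / CH d L * (CH d L * v y') :=
          mul_le_mul_of_nonneg_left h7 (by positivity)
        have e : θ / CH d L * (CH d L * v y') = E := by
          rw [hE, hq, h]; field_simp
        linarith
      · have : θ / CH d L * (1 - v y) ≤ θ / CH d L * (CH d L * (1 - v y')) :=
          mul_le_mul_of_nonneg_left h8 (by positivity)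
        have e : θ / CH d L * (CH d L * (1 - v y')) = E := by
          rw [hE, hq, h]; field_simp
        linarith
    linarith
  have hκ1 : 1 ≤ κ := by linarith
  -- comparison function
  have hDc : ContinuousOn (fun y => U y - v y) (closedBall y' r) :=
    (hU.cd.continuousOn.mono hcbΩ).sub (hv.cd.continuousOn.mono hcbΩ)
  have hqc : ContDiff ℝ 2 (fun y : Eu d => (E / r ^ 2) * ‖y - y'‖ ^ 2) :=
    contDiff_const.mul (contDiff_norm_sub_sq y')
  have hmain := bmax (U := ball y' r)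
    (w := fun y => (-1) * (U y - v y) - (E / r ^ 2) * ‖y - y'‖ ^ 2) isOpen_ball isBounded_ball
    ?_ ?_ ?_
  · have h1 := hmain y' (subset_closure (mem_ball_self hr0))
    simp at h1
    linarith
  · rw [closure_ball y' hr0.ne']
    exact (continuousOn_const.mul hDc).sub hqc.continuous.continuousOn
  · intro y hy
    rw [frontier_ball y' hr0.ne'] at hy
    have h1 := hlow y (sphere_subset_closedBall hy)
    have h2 : ‖y - y'‖ = r := by rw [← dist_eq_norm]; exact hy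
    rw [h2]
    have h3 : E / r ^ 2 * r ^ 2 = E := by field_simp
    rw [h3]
    linarith
  · intro y hy hpos
    have hyc := ball_subset_closedBall hy
    have hyΩ := hcbΩ hyc
    have hD : ContDiffAt ℝ 2 (fun y => U y - v y) y := (hU.cda hΩ hyΩ).sub (hv.cda hΩ hyΩ)
    have hD' : ContDiffAt ℝ 2 (fun y => (-1) * (U y - v y)) y := contDiffAt_const.mul hD
    refine ⟨hD'.sub hqc.contDiffAt, ?_⟩
    rw [lap_sub hD' hqc.contDiffAt, lap_const_mul _ hD,
      lap_const_mul _ (contDiff_norm_sub_sq y').contDiffAt, lap_norm_sub_sq]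
    have h1 := lap_diff_le hf hΩ hv hκ1 hκ hU hyΩ
    have h2 := hlow y hyc
    have h3 : 0 ≤ E / r ^ 2 * ‖y - y'‖ ^ 2 := by positivity
    have h4 : |U y - v y| ≤ E := by
      rw [abs_le]
      constructor
      · exact h2
      · linarith
    have h5 : κ0 ^ 2 * L * |U y - v y| ≤ κ0 ^ 2 * L * E :=
      mul_le_mul_of_nonneg_left h4 (by positivity)
    have h6 : cf * (q / CH d L) ≤ f (v y) := by
      obtain ⟨h7, h8, -, -⟩ := hHar y hyc
      refine le_trans ?_ (hf.low _ (hv.mem hyΩ))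
      refine mul_le_mul_of_nonneg_left ?_ hcf.le
      refine le_min ?_ ?_
      · rw [div_le_iff₀ (by linarith)]; linarith
      · rw [div_le_iff₀ (by linarith)]; linarith
    have h7 : 2 * δ ≤ κ ^ 2 - 1 := ar_kap hδ hκδ
    have h8 : 2 * δ * (cf * (q / CH d L)) ≤ (κ ^ 2 - 1) * f (v y) := by
      refine mul_le_mul h7 h6 (by positivity) (by linarith)
    have h9 : E * X = 2 * δ * (cf * (q / CH d L)) := by
      rw [hE, hθ]; field_simp
    have h10 : E * X = E / r ^ 2 * (2 * d) + κ0 ^ 2 * L * E + E := by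
      rw [hX]; ring
    linarith

/-- no contact near the boundary -/
theorem contra_bdry (hd : 1 ≤ d) {L cf : ℝ} {f : ℝ → ℝ} (hf : Rf L cf f) {ρ0 : ℝ} {Ω : Set (Eu d)}
    (hT : TB ρ0 Ω) (hne : Ωᶜ.Nonempty) {δ κ0 : ℝ} (hδ : 0 < δ) (hκ0 : 1 ≤ κ0) :
    ∃ ρ1 τ : ℝ, 0 < ρ1 ∧ ρ1 ≤ 1 ∧ 0 < τ ∧ ∀ v : Eu d → ℝ, Sol f Ω v → ∀ κ : ℝ, 1 + δ ≤ κ →
      κ ≤ κ0 → ∀ U : Eu d → ℝ, DSol κ f Ω U → ∀ y' ∈ Ω, dd Ω y' < ρ1 →
      (∀ y ∈ Ω, ‖y - y'‖ ≤ 2 → ∃ y'', ‖y'' - y‖ ≤ τ ∧ (y'' ∈ Ω → v y'' ≤ U y)) →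
      v y' ≤ U y' := by
  have hCH := one_lt_CH d hf.L0
  have hcf := hf.cf0
  have hL := hf.L0
  have hΩ := hT.op
  have hρ0 := hT.pos
  have hρ01 := hT.le
  have hd0 : (0:ℝ) < d + 1 := by positivity
  obtain ⟨s, Cc, hs, hCc, hcarl⟩ := carleson hf hT hT.pos le_rfl (d := d)
  -- radii
  set r : ℝ := min (ρ0 / (d + 1)) (s / 4) with hr
  have hr0 : 0 < r := lt_min (by positivity) (by positivity)
  have hrρ : r * (d + 1) ≤ ρ0 := by
    rw [← le_div_iff₀ hd0]; exact min_le_left _ _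
  have hrs : r ≤ s / 4 := min_le_right _ _
  have hrle : r ≤ ρ0 := r_le hr0 hrρ
  set ρ : ℝ := r / 4 with hρ
  have hρpos : 0 < ρ := by positivity
  -- chain from depth ρ0 to depth ρ
  obtain ⟨n1, hn1⟩ := exists_nat_ge (5 * ρ0 / ρ)
  have hn1' : 5 * ρ0 ≤ n1 * ρ := by rwa [div_le_iff₀ hρpos] at hn1
  set C' : ℝ := Cc * CH d L ^ n1 with hC'
  have hC'1 : 1 ≤ C' := by
    have : 1 ≤ CH d L ^ n1 := one_le_pow₀ hCH.le
    exact one_le_mul_of_one_le_of_one_le hCc this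
  -- upper bound near the boundary
  obtain ⟨rr, hrr, -, hone⟩ := one_sub_low hf hT hne (d := d)
  obtain ⟨n2, hn2⟩ := exists_nat_ge (1 / rr)
  have hn2' : 1 ≤ n2 * rr := by rwa [div_le_iff₀ hrr] at hn2
  set η : ℝ := 1 / 2 / CH d L ^ n2 with hη
  have hη0 : 0 < η := by positivity
  have hη1 : η ≤ 1 := by
    have : 1 ≤ CH d L ^ n2 := one_le_pow₀ hCH.le
    rw [hη, div_le_one (by positivity)]; linarith
  set δh : ℝ := 2 * δ * (cf * η / CH d L) with hδh
  have hδh0 : 0 < δh := by positivity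
  set Λ : ℝ := κ0 ^ 2 * L with hΛ
  have hΛ0 : 0 ≤ Λ := by positivity
  obtain ⟨c, hc0, hopf'⟩ := hopf (d := d) hd hΛ0 hδh0 hρpos (by linarith : ρ ≤ 1)
  set A : ℝ := AA d L with hA
  have hA0 : 0 < A := AA_pos d hL
  set C2 : ℝ := A * (1 + ρ0 / ρ) / (ρ0 * r) + 1 / r ^ 2 with hC2
  have hC20 : 0 ≤ C2 := by positivity
  set θ : ℝ := c / (Λ + 3 * C2 + 1) with hθ
  have hθ0 : 0 < θ := by positivity
  have hC3 := one_le_C3 d hL
  set η2 : ℝ := min (r / 2) (θ * r / (C' * C3 d L)) with hη2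
  have hη20 : 0 < η2 := lt_min (by positivity) (by positivity)
  have hη2r : η2 ≤ r / 2 := min_le_left _ _
  have hη2θ : η2 ≤ θ * r / (C' * C3 d L) := min_le_right _ _
  obtain ⟨τ, hτ0, hτη, hdisp⟩ := disp hf hΩ (θ := θ / C') (ρ1 := η2) (by positivity) hη20 (d := d)
  refine ⟨ρ, τ, hρpos, by linarith, hτ0, ?_⟩
  intro v hv κ hκδ hκ U hU y' hy' hy'd hstar
  have hκ1 : 1 ≤ κ := by linarith
  obtain ⟨p, hp, hyp⟩ := exists_nearest hΩ hne hy'
  obtain ⟨ν, hN⟩ := hT.normal p hp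
  have ht0 := dd_pos hΩ hne hy'
  have he := eq_add_normal hρ0 ht0 hN hyp (ball_dd_subset Ω y')
  set t := dd Ω y' with ht
  set z : Eu d := p + ρ • ν with hz
  have hzΩ : z ∈ Ω := hN.mem hρpos (by linarith)
  set m : ℝ := v z with hm
  have hm0 : 0 < m := hv.pos z hzΩ
  have hzp : ‖z - p‖ = ρ := by
    rw [hz, add_sub_cancel_left, norm_smul, hN.unit, mul_one, Real.norm_eq_abs, abs_of_pos hρpos]
  -- v is bounded by C' m near p
  have hvm : ∀ x ∈ Ω, x ∈ ball p s → v x ≤ C' * m := by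
    intro x hx hxs
    have h1 := hcarl v hv p ν hp hN x hx hxs
    have h2 := chain hL hΩ (hv.nic hf) (r := ρ / 5) (by positivity) (by linarith) n1
      (x := p + ρ0 • ν) (x' := z) ?_ ?_
    · calc v x ≤ Cc * v (p + ρ0 • ν) := h1
        _ ≤ Cc * (CH d L ^ n1 * v z) := mul_le_mul_of_nonneg_left h2 (by linarith)
        _ = C' * m := by rw [hC', hm]; ring
    · rw [hz, norm_sub_smul_normal hN.unit, abs_of_nonneg (by linarith)]
      linarith
    · intro w hw
      obtain ⟨a, b, ha, hb, hab, rfl⟩ := hw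
      have e : a • (p + ρ0 • ν) + b • z = p + (a * ρ0 + b * ρ) • ν := by
        rw [hz]
        have : b = 1 - a := by linarith
        rw [this]; module
      rw [e]
      refine hN.closedBall_subset ?_ ?_
      · exact ar_s1 ha hb hab (by linarith)
      · exact ar_s2 ha hb hab hρpos (by linarith)
  -- E bound
  set E : ℝ := θ * m with hE
  have hE0 : 0 < E := by positivity
  have hEb : ∀ y ∈ Ω, y ∈ closedBall p r → v y - U y ≤ E := by
    intro y hy hyr
    rw [mem_closedBall, dist_eq_norm] at hyr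
    have hUy := (hU.mem hy).1
    rcases lt_or_ge (dd Ω y) η2 with hcase | hcase
    · obtain ⟨p1, hp1, hyp1⟩ := exists_nearest hΩ hne hy
      obtain ⟨ν1, hN1⟩ := hT.normal p1 hp1
      have ht1 := dd_pos hΩ hne hy
      have he1 := eq_add_normal hρ0 ht1 hN1 hyp1 (ball_dd_subset Ω y)
      have h1 := decay hf hT hv hN1 hr0 hrρ (S := C' * m) (fun x hx hxb => hvm x hx ?_) ht1
        (by linarith)
      · rw [← he1] at h1
        have h2 : C3 d L * (dd Ω y / r) ≤ θ / C' := by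
          rw [mul_div_assoc', div_le_div_iff₀ hr0 (by linarith)]
          rw [le_div_iff₀ (by positivity)] at hη2θ
          have h3 : dd Ω y * (C' * C3 d L) ≤ η2 * (C' * C3 d L) :=
            mul_le_mul_of_nonneg_right hcase.le (by positivity)
          linarith
        have h3 : C' * m * (C3 d L * (dd Ω y / r)) ≤ C' * m * (θ / C') :=
          mul_le_mul_of_nonneg_left h2 (by positivity)
        have h4 : C' * m * (θ / C') = E := by rw [hE]; field_simp
        linarith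
      · rw [mem_closedBall, dist_eq_norm] at hxb
        rw [mem_ball, dist_eq_norm]
        have e2 : x - p = (x - p1) + ((y - p) - (y - p1)) := by abel
        rw [e2]
        have h2 := norm_add_le (x - p1) ((y - p) - (y - p1))
        have h3 := norm_sub_le (y - p) (y - p1)
        rw [hyp1] at h3
        linarith
    · have hyy' : ‖y - y'‖ ≤ 2 := by
        have e2 : y - y' = (y - p) - (y' - p) := by abel
        rw [e2]
        have := norm_sub_le (y - p) (y' - p)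
        rw [hyp] at this
        linarith
      obtain ⟨y'', h1, h2⟩ := hstar y hy hyy'
      obtain ⟨h3, h4, -⟩ := hdisp v hv y hcase y'' h1
      have h5 := h2 h3
      have h6 := hvm y hy (by rw [mem_ball, dist_eq_norm]; linarith)
      have h7 : θ / C' * v y ≤ θ / C' * (C' * m) := mul_le_mul_of_nonneg_left h6 (by positivity)
      have h8 : θ / C' * (C' * m) = E := by rw [hE]; field_simp
      linarith
  -- first barrier for v - U
  have hB1 := barrier_ext hΩ hN.unit hρ0 hr0 (hrle.trans hρ01) hrρ hN.ext hL hE0.le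
    (g := fun x => v x - U x) ?_ ?_ hEb ?_
  rotate_left
  · exact (hv.cont.mono (closure_mono inter_subset_left)).sub
      (hU.cont.mono (closure_mono inter_subset_left))
  · intro x hx _
    have h1 := hv.bd x hx
    have h2 := hU.nn x (frontier_subset_closure hx)
    simp only [h1]
    linarith
  · intro x hx hxb hpos
    have hcx := (hv.cda hΩ hx).sub (hU.cda hΩ hx)
    refine ⟨hcx, ?_⟩
    rw [lap_sub (hv.cda hΩ hx) (hU.cda hΩ hx)]
    have h1 := hv.eq x hx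
    have h2 := hU.eq x hx
    have h3 := hf.lip _ (hv.mem hx) _ (hU.mem hx)
    rw [abs_of_pos (by linarith : 0 < v x - U x)] at h3
    have h4 := (abs_le.1 h3).2
    have h5 := hf.nonneg (hU.mem hx)
    have h6 := hEb x hx (ball_subset_closedBall hxb)
    have h7 := mul_le_mul_of_nonneg_left h6 hL
    have h8 : f (U x) ≤ κ ^ 2 * f (U x) := by
      have : 1 ≤ κ ^ 2 := one_le_pow₀ hκ1
      exact le_mul_of_one_le_left h5 this
    linarith
  -- second barrier
  have hzball : ball z ρ ⊆ Ω := hN.ball_subset (by linarith)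
  have hzcl : closedBall z ρ ⊆ closure Ω := by
    rw [← closure_ball z hρpos.ne']
    exact closure_mono hzball
  have hzp_le : ∀ x ∈ closedBall z ρ, ‖x - p‖ ≤ 2 * ρ := by
    intro x hx
    rw [mem_closedBall, dist_eq_norm] at hx
    have e2 : x - p = (x - z) + (z - p) := by abel
    rw [e2]
    have := norm_add_le (x - z) (z - p)
    linarith
  have hfin := hopf' p ν z E m C2 (fun x => U x - v x) hN.unit hz hE0.le hm0 hC20
    ((hU.cont.mono hzcl).sub (hv.cont.mono hzcl)) ?_ ?_ ?_ ?_ ?_ t ht0.le hy'd.le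
  · rw [← he] at hfin
    have h1 : (Λ + 3 * C2) * E < c * m := by
      have h2 : (Λ + 3 * C2) * θ < c := by
        rw [hθ, mul_div_assoc', div_lt_iff₀ (by positivity)]
        linarith
      have := mul_lt_mul_of_pos_right h2 hm0
      rw [hE]; linarith
    have h2 := mul_pos ht0 (by linarith : 0 < c * m - (Λ + 3 * C2) * E)
    linarith
  · intro x hx
    have hxcb := sphere_subset_closedBall hx
    have hxcl := hzcl hxcb
    by_cases hxΩ : x ∈ Ω
    · have hxp := hzp_le x hxcb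
      have hxball : x ∈ ball p r := by
        rw [mem_ball, dist_eq_norm]; linarith
      have h1 := hB1 x hxΩ hxball
      have h2 : ‖x - p‖ ^ 2 = 2 * ρ * inner ℝ (x - p) ν := by
        have h3 : ‖x - z‖ = ρ := by rw [← dist_eq_norm]; exact hx
        have e2 : x - z = (x - p) - ρ • ν := by rw [hz]; abel
        have h4 : ‖x - z‖ ^ 2 = ‖x - p‖ ^ 2 - 2 * ρ * inner ℝ (x - p) ν + ρ ^ 2 := by
          rw [e2, norm_sub_sq_real, inner_smul_right, norm_smul, hN.unit, Real.norm_eq_abs,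
            abs_of_pos hρpos]
          ring
        rw [h3] at h4
        linarith
      have h3 : inner ℝ (x - p) ν = ‖x - p‖ ^ 2 / (2 * ρ) := by
        rw [h2]; field_simp
      have h4 : AA d L * (‖x - p‖ ^ 2 + 2 * ρ0 * inner ℝ (x - p) ν) / (ρ0 * r) +
          ‖x - p‖ ^ 2 / r ^ 2 = C2 * ‖x - p‖ ^ 2 := by
        rw [h3, hC2, hA]; field_simp
      rw [h4] at h1
      have h5 : E * (C2 * ‖x - p‖ ^ 2) = C2 * E * ‖x - p‖ ^ 2 := by ring
      linarith
    · have hxf : x ∈ frontier Ω := by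
        rw [frontier, hΩ.interior_eq]; exact ⟨hxcl, hxΩ⟩
      have h1 := hv.bd x hxf
      have h2 := hU.nn x hxcl
      have h3 : 0 ≤ C2 * E * ‖x - p‖ ^ 2 := by positivity
      simp only [h1]
      linarith
  · intro x hx
    have hxp := hzp_le x (ball_subset_closedBall hx)
    have h1 := hEb x (hzball hx) (by rw [mem_closedBall, dist_eq_norm]; linarith)
    linarith
  · intro x hx
    exact (hU.cda hΩ (hzball hx)).sub (hv.cda hΩ (hzball hx))
  · intro x hx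
    have h1 := lap_diff_le hf hΩ hv hκ1 hκ hU (hzball hx)
    have h2 := hf.nonneg (hv.mem (hzball hx))
    have h3 : 0 ≤ (κ ^ 2 - 1) * f (v x) := by
      refine mul_nonneg ?_ h2
      linarith [one_le_pow₀ hκ1 (n := 2)]
    linarith
  · intro x hx hx2 _
    have hxΩ := hzball hx
    have h1 := lap_diff_le hf hΩ hv hκ1 hκ hU hxΩ
    have h2 : m ≤ CH d L * v x := by
      refine harnack hL hΩ (hv.nic hf) (r := ρ / 10) (by positivity) (by linarith)
        (x := z) (x' := x) (by rw [norm_sub_rev]; exact hx2) ?_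
      refine Subset.trans ?_ hzball
      intro w hw
      rw [mem_closedBall] at hw
      rw [mem_ball]
      have := dist_triangle w x z
      rw [← dist_eq_norm] at hx2
      linarith
    have h3 : η ≤ 1 - v x := by
      have h4 := dd_le_of_not_mem (x := x) (frontier_not_mem hΩ hp)
      have h5 := hzp_le x (ball_subset_closedBall hx)
      have h6 := hone v hv x hxΩ n2 (by linarith)
      rw [hη, div_le_iff₀ (by positivity)]
      linarith
    have hvx0 := hv.pos x hxΩ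
    have hvx1 := hv.le x hxΩ
    have h4 : η * v x ≤ min (v x) (1 - v x) := by
      refine le_min ?_ ?_
      · exact mul_le_of_le_one_left hvx0.le hη1
      · exact (mul_le_of_le_one_right hη0.le hvx1).trans h3
    have h5 : cf * η / CH d L * m ≤ f (v x) := by
      refine le_trans ?_ (hf.low _ (hv.mem hxΩ))
      have h6 : m / CH d L ≤ v x := by
        rw [div_le_iff₀ (by linarith)]; linarith
      have h7 : η * (m / CH d L) ≤ η * v x := mul_le_mul_of_nonneg_left h6 hη0.le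
      have h8 := mul_le_mul_of_nonneg_left (h7.trans h4) hcf.le
      have e3 : cf * η / CH d L * m = cf * (η * (m / CH d L)) := by ring
      rw [e3]; exact h8
    have h6 : 2 * δ ≤ κ ^ 2 - 1 := ar_kap hδ hκδ
    have h7 : 2 * δ * (cf * η / CH d L * m) ≤ (κ ^ 2 - 1) * f (v x) :=
      mul_le_mul h6 h5 (by positivity) (by linarith)
    have h8 : δh * m = 2 * δ * (cf * η / CH d L * m) := by rw [hδh]; ring
    rw [h8]
    linarith

/-- the contradiction lemma -/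
theorem contra (hd : 1 ≤ d) {L cf : ℝ} {f : ℝ → ℝ} (hf : Rf L cf f) {ρ0 : ℝ} {Ω : Set (Eu d)}
    (hT : TB ρ0 Ω) (hne : Ωᶜ.Nonempty) {δ κ0 : ℝ} (hδ : 0 < δ) (hκ0 : 1 ≤ κ0) :
    ∃ τ : ℝ, 0 < τ ∧ ∀ v : Eu d → ℝ, Sol f Ω v → ∀ κ : ℝ, 1 + δ ≤ κ →
      κ ≤ κ0 → ∀ U : Eu d → ℝ, DSol κ f Ω U → ∀ y' ∈ Ω,
      (∀ y ∈ Ω, ‖y - y'‖ ≤ 2 → ∃ y'', ‖y'' - y‖ ≤ τ ∧ (y'' ∈ Ω → v y'' ≤ U y)) →
      v y' ≤ U y' := by
  obtain ⟨ρ1, τ1, hρ1, hρ11, hτ1, h1⟩ := contra_bdry hd hf hT hne hδ hκ0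
  obtain ⟨τ2, hτ2, h2⟩ := contra_int hd hf hT hne hδ hκ0 hρ1 hρ11
  refine ⟨min τ1 τ2, lt_min hτ1 hτ2, ?_⟩
  intro v hv κ hκδ hκ U hU y' hy' hstar
  rcases lt_or_ge (dd Ω y') ρ1 with h | h
  · refine h1 v hv κ hκδ hκ U hU y' hy' h fun y hy hyy => ?_
    obtain ⟨y'', h3, h4⟩ := hstar y hy hyy
    exact ⟨y'', h3.trans (min_le_left _ _), h4⟩
  · refine h2 v hv κ hκδ hκ U hU y' h fun y hy hyy => ?_
    obtain ⟨y'', h3, h4⟩ := hstar y hy hyy
    exact ⟨y'', h3.trans (min_le_right _ _), h4⟩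

end Pool.Agent.K1H28.ES
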