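import Pool.Agent.K1H28.ES.Low

set_option autoImplicit false
open MeasureTheory Filter Topology Set Metric
open scoped InnerProductSpace

namespace Pool.Agent.K1H28.ES
open Pool.Agent.H314.Dir

variable {d : ℕ}

theorem bmp_nonneg (R : ℝ) (x0 x : Eu d) : 0 ≤ bmp R x0 x := by
  unfold bmp; positivity

theorem bmp_le_one (R : ℝ) (x0 x : Eu d) : bmp R x0 x ≤ 1 := by
  unfold bmp
  have h0 : 0 ≤ max 0 (1 - R⁻¹ ^ 2 * ‖x - x0‖ ^ 2) := le_max_left _ _
  have h1 : max 0 (1 - R⁻¹ ^ 2 * ‖x - x0‖ ^ 2) ≤ 1 := by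
    refine max_le zero_le_one ?_
    have : 0 ≤ R⁻¹ ^ 2 * ‖x - x0‖ ^ 2 := by positivity
    linarith
  exact pow_le_one₀ h0 h1

theorem bmp_eq_zero {R : ℝ} (hR : 0 < R) {x0 x : Eu d} (hx : x ∉ closedBall x0 R) :
    bmp R x0 x = 0 := by
  rw [mem_closedBall, not_le, dist_eq_norm] at hx
  unfold bmp
  have h2 : R ^ 2 ≤ ‖x - x0‖ ^ 2 := pow_le_pow_left₀ hR.le hx.le 2
  have h3 : 1 ≤ R⁻¹ ^ 2 * ‖x - x0‖ ^ 2 := by
    rw [inv_pow, ← div_eq_inv_mul, le_div_iff₀ (by positivity)]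
    linarith
  rw [max_eq_left (by linarith)]
  norm_num

theorem lap_bmp_low {cf : ℝ} (hcf : 0 < cf) (x0 x : Eu d) :
    -(cf / 2 * bmp (R1 d cf) x0 x) ≤ lap (bmp (R1 d cf) x0) x := by
  have hR1 := one_le_R1 d hcf
  have hRs := R1_sq d hcf
  set R := R1 d cf with hR
  have hR0 : 0 < R := by linarith
  rw [lap_bmp]
  set a : ℝ := max 0 (1 - R⁻¹ ^ 2 * ‖x - x0‖ ^ 2) with ha
  have hba : bmp R x0 x = a ^ 3 := rfl
  rw [hba]
  rcases (le_max_left 0 (1 - R⁻¹ ^ 2 * ‖x - x0‖ ^ 2)).eq_or_lt with h | h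
  · rw [← ha] at h
    rw [← h]; norm_num
  · rw [← ha] at h
    have hae : a = 1 - R⁻¹ ^ 2 * ‖x - x0‖ ^ 2 := by
      rcases max_choice 0 (1 - R⁻¹ ^ 2 * ‖x - x0‖ ^ 2) with h' | h'
      · rw [ha, h'] at h; exact absurd h (lt_irrefl _)
      · rw [ha, h']
    have hw : ‖x - x0‖ ^ 2 = (1 - a) * R ^ 2 := by
      rw [hae, inv_pow]
      field_simp
      ring
    rw [hw]
    have e : 4 * ((1 - a) * R ^ 2) * (6 * a * R⁻¹ ^ 4) + 2 * d * (-(3 * a ^ 2 * R⁻¹ ^ 2)) =
        (a / R ^ 2) * (24 * (1 - a) - 6 * d * a) := by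
      field_simp
      ring
    have e2 : -(cf / 2 * a ^ 3) = (a / R ^ 2) * (-(cf / 2 * R ^ 2 * a ^ 2)) := by
      field_simp
    rw [e, e2]
    refine mul_le_mul_of_nonneg_left ?_ (by positivity)
    have h5 := mul_le_mul_of_nonneg_right hRs (by positivity : 0 ≤ a ^ 2)
    nlinarith [sq_nonneg (((d:ℝ) + 4) * a / 8 - 1)]

/-- the reaction frozen outside `[0,1]` -/
noncomputable def fcl (f : ℝ → ℝ) (t : ℝ) : ℝ := f (max 0 (min t 1))

theorem clamp_mem (t : ℝ) : max 0 (min t 1) ∈ Icc (0:ℝ) 1 :=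
  ⟨le_max_left _ _, max_le zero_le_one (min_le_right _ _)⟩

theorem clamp_lip (s t : ℝ) : |max 0 (min s 1) - max 0 (min t 1)| ≤ |s - t| := by
  have h1 : |max 0 (min s 1) - max 0 (min t 1)| ≤ |min s 1 - min t 1| := by
    have := abs_max_sub_max_le_max 0 (min s 1) 0 (min t 1)
    simpa using this
  have h2 : |min s 1 - min t 1| ≤ |s - t| := by
    have := abs_min_sub_min_le_max s 1 t 1
    simpa using this
  exact h1.trans h2

theorem fcl_eq {f : ℝ → ℝ} {t : ℝ} (ht : t ∈ Icc (0:ℝ) 1) : fcl f t = f t := by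
  unfold fcl
  rw [min_eq_left ht.2, max_eq_right ht.1]

/-- existence in domains stable under dilations -/
theorem exists_sol {L cf : ℝ} {f : ℝ → ℝ} (hf : Rf L cf f) {ρ0 : ℝ} {Ω : Set (Eu d)}
    (hT : TB ρ0 Ω) (hconn : IsPreconnected Ω) (hne : Ω.Nonempty)
    (hstar : ∀ κ : ℝ, 1 ≤ κ → ∀ y ∈ Ω, κ • y ∈ Ω) : ∃ u : Eu d → ℝ, Sol f Ω u := by
  have hR1 := one_le_R1 d hf.cf0
  have hcf := hf.cf0
  set R := R1 d cf with hR
  have hR0 : 0 < R := by linarith
  -- a large ball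
  obtain ⟨x0, hx0⟩ : ∃ x0 : Eu d, closedBall x0 R ⊆ Ω := by
    obtain ⟨y, hy⟩ := hne
    obtain ⟨s, hs, hsb⟩ := Metric.isOpen_iff.1 hT.op y hy
    set κ : ℝ := 1 + 2 * R / s with hκ
    have hκ1 : 1 ≤ κ := by rw [hκ]; have : 0 ≤ 2 * R / s := by positivity
                           linarith
    have hκ0 : 0 < κ := by linarith
    refine ⟨κ • y, fun w hw => ?_⟩
    have h1 : κ⁻¹ • w ∈ ball y s := by
      rw [mem_closedBall, dist_eq_norm] at hw
      rw [mem_ball, dist_eq_norm]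
      have e : κ⁻¹ • w - y = κ⁻¹ • (w - κ • y) := by
        rw [smul_sub, smul_smul, inv_mul_cancel₀ hκ0.ne', one_smul]
      rw [e, norm_smul, Real.norm_eq_abs, abs_of_pos (by positivity), inv_mul_lt_iff₀ hκ0]
      have h2 : κ * s = s + 2 * R := by rw [hκ]; field_simp
      linarith
    have h2 := hstar κ hκ1 _ (hsb h1)
    rwa [smul_smul, mul_inv_cancel₀ hκ0.ne', one_smul] at h2
  -- the subsolution
  set V : Eu d → ℝ := fun x => (1 / 2) * bmp R x0 x with hV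
  have hVc : ContDiff ℝ 2 V := contDiff_const.mul (contDiff_bmp R x0)
  have hlip : ∀ s t : ℝ, |fcl f s - fcl f t| ≤ L * |s - t| := by
    intro s t
    refine (hf.lip _ (clamp_mem s) _ (clamp_mem t)).trans ?_
    exact mul_le_mul_of_nonneg_left (clamp_lip s t) hf.L0
  have hex := dirichlet_exists Ω hT.op ?_ hconn (fcl f) (L + 1)
    (by linarith [hf.L0]) ?_ ?_ ?_ ?_ V (fun _ => 1) ?_ (LocallyLipschitz.const 1) ?_ ?_
    (fun _ => le_rfl) ?_ ?_ (fun x _ h => absurd h (lt_irrefl _)) ?_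
  · obtain ⟨u, h1, h2, h3, h4, h5, h6⟩ := hex
    refine ⟨u, h1, h2, h4, fun x hx => (h5 x hx).2, h3, fun x hx => ?_⟩
    rw [h6 x hx, fcl_eq ⟨(h4 x hx).le, (h5 x hx).2⟩]
  · intro p hp
    obtain ⟨ν, hN⟩ := hT.normal p hp
    refine ⟨ρ0, hT.pos, p - ρ0 • ν, ?_, ?_⟩
    · rw [dist_eq_norm, sub_sub_cancel, norm_smul, hN.unit, mul_one, Real.norm_eq_abs,
        abs_of_pos hT.pos]
    · rw [Set.disjoint_iff_inter_eq_empty]; exact hN.ext
  · have : LipschitzWith (Real.toNNReal L) (fcl f) := by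
      refine LipschitzWith.of_dist_le_mul fun s t => ?_
      rw [Real.dist_eq, Real.dist_eq, Real.coe_toNNReal _ hf.L0]
      exact hlip s t
    exact this.locallyLipschitz
  · intro s _ t _ hst
    have h7 := (abs_le.1 (hlip s t)).2
    rw [abs_sub_comm, abs_of_nonneg (by linarith : 0 ≤ t - s)] at h7
    simp only
    nlinarith [hf.L0]
  · intro t ht
    rw [fcl_eq ht]
    exact hf.nonneg ht
  · rw [fcl_eq ⟨zero_le_one, le_rfl⟩, hf.one]
  · exact (hVc.of_le (by norm_num)).locallyLipschitz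
  · intro x
    exact mul_nonneg (by norm_num) (bmp_nonneg R x0 x)
  · intro x
    have := bmp_le_one R x0 x
    simp only [hV]
    linarith
  · intro x hx
    have : x ∉ closedBall x0 R := fun h => hx (hx0 h)
    simp [hV, bmp_eq_zero hR0 this]
  · intro x _ _
    refine ⟨hVc.contDiffAt, ?_⟩
    have h7 := bmp_nonneg R x0 x
    have h8 := bmp_le_one R x0 x
    have hVm : V x ∈ Icc (0:ℝ) 1 := by
      constructor
      · simp only [hV]; linarith
      · simp only [hV]; linarith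
    rw [fcl_eq hVm, lap_const_mul _ (contDiff_bmp R x0).contDiffAt]
    have h9 := lap_bmp_low hcf x0 x
    rw [← hR] at h9
    have h10 := hf.low _ hVm
    rw [min_eq_left (by simp only [hV]; linarith)] at h10
    simp only [hV] at h10 ⊢
    nlinarith
  · refine ⟨x0, ?_⟩
    simp [hV, bmp]

/-- translation of solutions -/
theorem lap_translate (u : Eu d → ℝ) (a x : Eu d) : lap (fun y => u (y + a)) x = lap u (x + a) := by
  unfold lap
  refine Finset.sum_congr rfl fun i _ => ?_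
  rw [iteratedFDeriv_comp_add_right]

theorem Sol.translate {f : ℝ → ℝ} {Ω : Set (Eu d)} {u : Eu d → ℝ} (h : Sol f Ω u) (a : Eu d) :
    Sol f ((fun x => x + a) ⁻¹' Ω) (fun x => u (x + a)) := by
  have hc : Continuous (fun x : Eu d => x + a) := by fun_prop
  have hcl : closure ((fun x => x + a) ⁻¹' Ω) = (fun x => x + a) ⁻¹' closure Ω :=
    ((Homeomorph.addRight a).preimage_closure Ω).symm
  have hfr : frontier ((fun x => x + a) ⁻¹' Ω) = (fun x => x + a) ⁻¹' frontier Ω :=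
    ((Homeomorph.addRight a).preimage_frontier Ω).symm
  refine ⟨?_, ?_, fun x hx => h.pos _ hx, fun x hx => h.le _ hx, ?_, ?_⟩
  · exact h.cd.comp (by fun_prop) (fun x hx => hx)
  · rw [hcl]
    exact h.cont.comp hc.continuousOn (fun x hx => hx)
  · intro x hx
    rw [hfr] at hx
    exact h.bd _ hx
  · intro x hx
    rw [lap_translate]
    exact h.eq _ hx

end Pool.Agent.K1H28.ES
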