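import Pool.Agent.K1H28.ES.Harn

set_option autoImplicit false
open MeasureTheory Filter Topology Set Metric

namespace Pool.Agent.K1H28.ES
open Pool.Agent.H314.Dir

variable {d : ℕ}

/-- `ν` is a unit normal at `p` pointing into `Ω`, with touching balls of radius `ρ0` on both
sides. -/
structure IsN (ρ0 : ℝ) (Ω : Set (Eu d)) (p ν : Eu d) : Prop where
  unit : ‖ν‖ = 1
  inn : ball (p + ρ0 • ν) ρ0 ⊆ Ω
  ext : ball (p - ρ0 • ν) ρ0 ∩ Ω = ∅

/-- the uniform two-sided ball condition -/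
structure TB (ρ0 : ℝ) (Ω : Set (Eu d)) : Prop where
  op : IsOpen Ω
  pos : 0 < ρ0
  le : ρ0 ≤ 1
  normal : ∀ p ∈ frontier Ω, ∃ ν, IsN ρ0 Ω p ν

/-- distance to the complement -/
noncomputable def dd (Ω : Set (Eu d)) (x : Eu d) : ℝ := infDist x Ωᶜ

theorem ball_dd_subset (Ω : Set (Eu d)) (x : Eu d) : ball x (dd Ω x) ⊆ Ω := by
  intro y hy
  by_contra h
  have h1 : infDist x Ωᶜ ≤ dist x y := infDist_le_dist_of_mem h
  rw [mem_ball, dist_comm] at hy
  unfold dd at hy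
  linarith

theorem dd_le_of_not_mem {Ω : Set (Eu d)} {x y : Eu d} (hy : y ∉ Ω) : dd Ω x ≤ ‖x - y‖ := by
  rw [← dist_eq_norm]
  exact infDist_le_dist_of_mem hy

theorem dd_pos {Ω : Set (Eu d)} (hΩ : IsOpen Ω) (hne : Ωᶜ.Nonempty) {x : Eu d} (hx : x ∈ Ω) :
    0 < dd Ω x := by
  unfold dd
  exact (hΩ.isClosed_compl.notMem_iff_infDist_pos hne).1 (by simpa using hx)

theorem le_dd_of_ball_subset {Ω : Set (Eu d)} (hne : Ωᶜ.Nonempty) {x : Eu d} {t : ℝ}
    (h : ball x t ⊆ Ω) : t ≤ dd Ω x := by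
  unfold dd
  refine (le_infDist hne).2 fun y hy => ?_
  by_contra hcon
  rw [not_le, dist_comm] at hcon
  exact hy (h hcon)

theorem dd_le_dd_add (Ω : Set (Eu d)) (x y : Eu d) : dd Ω x ≤ dd Ω y + ‖x - y‖ := by
  unfold dd
  have := infDist_le_infDist_add_dist (s := Ωᶜ) (x := x) (y := y)
  rwa [dist_eq_norm] at this

theorem frontier_not_mem {Ω : Set (Eu d)} (hΩ : IsOpen Ω) {p : Eu d} (hp : p ∈ frontier Ω) :
    p ∉ Ω := by
  rw [frontier, hΩ.interior_eq] at hp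
  exact hp.2

/-- nearest boundary point -/
theorem exists_nearest {Ω : Set (Eu d)} (hΩ : IsOpen Ω) (hne : Ωᶜ.Nonempty) {x : Eu d}
    (hx : x ∈ Ω) : ∃ p ∈ frontier Ω, ‖x - p‖ = dd Ω x := by
  obtain ⟨p, hp, hd⟩ := hΩ.isClosed_compl.exists_infDist_eq_dist hne x
  have hpos := dd_pos hΩ hne hx
  have hdx : ‖x - p‖ = dd Ω x := by rw [dd, hd, dist_eq_norm]
  refine ⟨p, ?_, hdx⟩
  rw [frontier, hΩ.interior_eq]
  refine ⟨?_, hp⟩
  rw [Metric.mem_closure_iff]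
  intro ε hε
  set t : ℝ := min (1 / 2) (ε / (2 * dd Ω x)) with ht
  have ht0 : 0 < t := lt_min (by norm_num) (by positivity)
  have ht1 : t ≤ 1 / 2 := min_le_left _ _
  have ht2 : t * (2 * dd Ω x) ≤ ε := by
    have : t ≤ ε / (2 * dd Ω x) := min_le_right _ _
    rwa [le_div_iff₀ (by positivity)] at this
  refine ⟨p + t • (x - p), ?_, ?_⟩
  · apply ball_dd_subset Ω x
    rw [mem_ball, dist_eq_norm]
    have e : p + t • (x - p) - x = (-(1 - t)) • (x - p) := by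
      rw [neg_smul, sub_smul, one_smul]; abel
    rw [e, norm_smul, hdx, norm_neg, Real.norm_eq_abs, abs_of_pos (by linarith)]
    nlinarith
  · rw [dist_comm, dist_eq_norm, add_sub_cancel_left, norm_smul, hdx, Real.norm_eq_abs,
      abs_of_pos ht0]
    nlinarith

/-- from the nearest boundary point one reaches `x` along the normal -/
theorem eq_add_normal {ρ0 : ℝ} (hρ0 : 0 < ρ0) {Ω : Set (Eu d)} {p ν x : Eu d} {t : ℝ}
    (ht : 0 < t) (hN : IsN ρ0 Ω p ν) (hx : ‖x - p‖ = t) (hb : ball x t ⊆ Ω) : x = p + t • ν := by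
  have h1 : Disjoint (ball x t) (ball (p - ρ0 • ν) ρ0) := by
    rw [Set.disjoint_iff]
    rintro y ⟨hy1, hy2⟩
    have : y ∈ ball (p - ρ0 • ν) ρ0 ∩ Ω := ⟨hy2, hb hy1⟩
    rw [hN.ext] at this
    exact this
  rw [disjoint_ball_ball_iff ht hρ0, dist_eq_norm] at h1
  have e : x - (p - ρ0 • ν) = (x - p) + ρ0 • ν := by abel
  rw [e] at h1
  have h2 : (t + ρ0) ^ 2 ≤ ‖(x - p) + ρ0 • ν‖ ^ 2 := pow_le_pow_left₀ (by positivity) h1 2
  rw [norm_add_sq_real, inner_smul_right, norm_smul, hN.unit, Real.norm_eq_abs,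
    abs_of_pos hρ0, hx] at h2
  have h3 : t ≤ inner ℝ (x - p) ν := by
    by_contra hcon
    rw [not_le] at hcon
    nlinarith
  have h4 : ‖(x - p) - t • ν‖ ^ 2 ≤ 0 := by
    rw [norm_sub_sq_real, inner_smul_right, norm_smul, hN.unit, Real.norm_eq_abs,
      abs_of_pos ht, hx]
    nlinarith
  have h5 : (x - p) - t • ν = 0 := by
    rw [← norm_eq_zero]
    nlinarith [norm_nonneg ((x - p) - t • ν)]
  have h6 : x - p = t • ν := sub_eq_zero.1 h5
  rw [← h6]; abel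

/-- interior balls of smaller radius -/
theorem IsN.ball_subset {ρ0 : ℝ} {Ω : Set (Eu d)} {p ν : Eu d} (hN : IsN ρ0 Ω p ν) {t : ℝ}
    (ht : t ≤ ρ0) : ball (p + t • ν) t ⊆ Ω := by
  refine Subset.trans (ball_subset_ball' ?_) hN.inn
  rw [dist_eq_norm]
  have e : p + t • ν - (p + ρ0 • ν) = (t - ρ0) • ν := by rw [sub_smul]; abel
  rw [e, norm_smul, hN.unit, mul_one, Real.norm_eq_abs, abs_of_nonpos (by linarith)]
  linarith

theorem IsN.closedBall_subset {ρ0 : ℝ} {Ω : Set (Eu d)} {p ν : Eu d} (hN : IsN ρ0 Ω p ν)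
    {t s : ℝ} (ht : t ≤ ρ0) (hs : s < t) : closedBall (p + t • ν) s ⊆ Ω :=
  (closedBall_subset_ball hs).trans (hN.ball_subset ht)

theorem IsN.mem {ρ0 : ℝ} {Ω : Set (Eu d)} {p ν : Eu d} (hN : IsN ρ0 Ω p ν) {t : ℝ}
    (ht0 : 0 < t) (ht : t ≤ ρ0) : p + t • ν ∈ Ω :=
  hN.ball_subset ht (mem_ball_self ht0)

theorem norm_sub_smul_normal {p ν : Eu d} (hν : ‖ν‖ = 1) (t s : ℝ) :
    ‖(p + t • ν) - (p + s • ν)‖ = |t - s| := by
  have e : p + t • ν - (p + s • ν) = (t - s) • ν := by rw [sub_smul]; abel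
  rw [e, norm_smul, hν, mul_one, Real.norm_eq_abs]

/-- normals depend in a Lipschitz way on the boundary point -/
theorem normals_lip {ρ0 : ℝ} (hρ0 : 0 < ρ0) {Ω : Set (Eu d)} {p ν p' ν' : Eu d}
    (hN : IsN ρ0 Ω p ν) (hN' : IsN ρ0 Ω p' ν') : ρ0 * ‖ν - ν'‖ ≤ ‖p - p'‖ := by
  have key : ∀ {a μ b η : Eu d}, IsN ρ0 Ω a μ → IsN ρ0 Ω b η →
      (2 * ρ0) ^ 2 ≤ ‖ρ0 • (μ + η) + (a - b)‖ ^ 2 := by
    intro a μ b η h1 h2
    have h3 : Disjoint (ball (a + ρ0 • μ) ρ0) (ball (b - ρ0 • η) ρ0) := by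
      rw [Set.disjoint_iff]
      rintro y ⟨hy1, hy2⟩
      have : y ∈ ball (b - ρ0 • η) ρ0 ∩ Ω := ⟨hy2, h1.inn hy1⟩
      rw [h2.ext] at this
      exact this
    rw [disjoint_ball_ball_iff hρ0 hρ0, dist_eq_norm] at h3
    have e : a + ρ0 • μ - (b - ρ0 • η) = ρ0 • (μ + η) + (a - b) := by
      rw [smul_add]; abel
    rw [e] at h3
    exact pow_le_pow_left₀ (by positivity) (by linarith) 2
  have k1 := key hN hN'
  have k2 := key hN' hN
  have e2 : ρ0 • (ν' + ν) + (p' - p) = ρ0 • (ν + ν') - (p - p') := by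
    rw [add_comm ν' ν]; abel
  rw [e2] at k2
  have par : ‖ρ0 • (ν + ν') + (p - p')‖ ^ 2 + ‖ρ0 • (ν + ν') - (p - p')‖ ^ 2 =
      2 * (‖ρ0 • (ν + ν')‖ ^ 2 + ‖p - p'‖ ^ 2) := by
    rw [norm_add_sq_real, norm_sub_sq_real (ρ0 • (ν + ν')) (p - p')]; ring
  have par2 : ‖ν + ν'‖ ^ 2 + ‖ν - ν'‖ ^ 2 = 4 := by
    rw [norm_add_sq_real, norm_sub_sq_real, hN.unit, hN'.unit]; ring
  have e3 : ‖ρ0 • (ν + ν')‖ ^ 2 = ρ0 ^ 2 * ‖ν + ν'‖ ^ 2 := by
    rw [norm_smul, Real.norm_eq_abs, mul_pow, sq_abs]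
  have h5 : (ρ0 * ‖ν - ν'‖) ^ 2 ≤ ‖p - p'‖ ^ 2 := by
    rw [mul_pow]
    nlinarith
  exact le_of_sq_le_sq h5 (norm_nonneg _)
where
  le_of_sq_le_sq {a b : ℝ} (h : a ^ 2 ≤ b ^ 2) (hb : 0 ≤ b) : a ≤ b := by
    by_contra hcon
    rw [not_le] at hcon
    nlinarith

/-- Harnack chain along a segment -/
theorem chain {L : ℝ} (hL : 0 ≤ L) {Ω : Set (Eu d)} (hΩ : IsOpen Ω) {g : Eu d → ℝ}
    (hg : Nic L Ω g) {r : ℝ} (hr : 0 < r) (hr1 : r ≤ 1) (n : ℕ) : ∀ {x x' : Eu d},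
    ‖x - x'‖ ≤ n * r → (∀ y ∈ segment ℝ x x', closedBall y (4 * r) ⊆ Ω) →
    g x ≤ CH d L ^ n * g x' := by
  induction n with
  | zero =>
    intro x x' h _
    have : x = x' := by
      rw [← sub_eq_zero, ← norm_eq_zero]
      have := norm_nonneg (x - x')
      simp at h
      rw [norm_eq_zero]
      exact h
    rw [this]; simp
  | succ n ih =>
    intro x x' h hseg
    have hn : (0 : ℝ) < n + 1 := by positivity
    set lam : ℝ := n / (n + 1) with hlam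
    have hlam0 : 0 ≤ lam := by positivity
    have hlam1 : lam ≤ 1 := by rw [hlam, div_le_one hn]; linarith
    set y : Eu d := lam • x + (1 - lam) • x' with hy
    have hyseg : y ∈ segment ℝ x x' := ⟨lam, 1 - lam, hlam0, by linarith, by ring, rfl⟩
    have e1 : y - x' = lam • (x - x') := by
      rw [hy]; module
    have e2 : x - y = (1 - lam) • (x - x') := by
      rw [hy]; module
    push_cast at h
    have h1 : ‖y - x'‖ ≤ n * r := by
      rw [e1, norm_smul, Real.norm_eq_abs, abs_of_nonneg hlam0, hlam, div_mul_eq_mul_div,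
        div_le_iff₀ hn]
      have := mul_le_mul_of_nonneg_left h (Nat.cast_nonneg n : (0:ℝ) ≤ n)
      nlinarith
    have h2 : ‖x - y‖ ≤ r := by
      have e3 : 1 - lam = 1 / (n + 1) := by rw [hlam]; field_simp; ring
      rw [e2, norm_smul, Real.norm_eq_abs, e3, abs_of_pos (by positivity), div_mul_eq_mul_div,
        div_le_iff₀ hn]
      linarith
    have hx'seg : x' ∈ segment ℝ x x' := right_mem_segment ℝ x x'
    have h3 : segment ℝ y x' ⊆ segment ℝ x x' :=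
      (convex_segment x x').segment_subset hyseg hx'seg
    have h4 := ih h1 (fun w hw => hseg w (h3 hw))
    have h5 := harnack hL hΩ hg hr hr1 h2 (hseg y hyseg)
    have hC := one_lt_CH d hL
    calc g x ≤ CH d L * g y := h5
      _ ≤ CH d L * (CH d L ^ n * g x') := mul_le_mul_of_nonneg_left h4 (by linarith)
      _ = CH d L ^ (n + 1) * g x' := by ring

/-- multi-scale Harnack chain along a normal -/
theorem up_chain {L : ℝ} (hL : 0 ≤ L) {ρ0 : ℝ} {Ω : Set (Eu d)} (hT : TB ρ0 Ω) {g : Eu d → ℝ}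
    (hg : Nic L Ω g) {p ν : Eu d} (hN : IsN ρ0 Ω p ν) (n : ℕ) : ∀ {t t' : ℝ}, 0 < t' → t' ≤ ρ0 →
    (4 / 5) ^ n * t' ≤ t → t ≤ t' → g (p + t • ν) ≤ CH d L ^ n * g (p + t' • ν) := by
  have step : ∀ {t t' : ℝ}, 0 < t' → t' ≤ ρ0 → (4 / 5) * t' ≤ t → t ≤ t' →
      g (p + t • ν) ≤ CH d L * g (p + t' • ν) := by
    intro t t' h0 h1 h2 h3
    refine harnack hL hT.op hg (r := t' / 5) (by positivity) ?_ ?_ ?_
    · have := hT.le; linarith
    · rw [norm_sub_smul_normal hN.unit, abs_of_nonpos (by linarith)]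
      linarith
    · exact hN.closedBall_subset h1 (by linarith)
  have hC := one_lt_CH d hL
  induction n with
  | zero =>
    intro t t' h0 h1 h2 h3
    have : t = t' := le_antisymm h3 (by simpa using h2)
    rw [this]; simp
  | succ n ih =>
    intro t t' h0 h1 h2 h3
    have hg' : 0 ≤ g (p + t' • ν) := hg.nonneg _ (hN.mem h0 h1)
    rcases le_or_gt ((4 / 5) * t') t with h4 | h4
    · have h5 := step h0 h1 h4 h3
      have h6 : CH d L ≤ CH d L ^ (n + 1) := le_self_pow₀ hC.le (by omega)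
      exact h5.trans (mul_le_mul_of_nonneg_right h6 hg')
    · have h5 := ih (t := t) (t' := 4 / 5 * t') (by positivity) (by linarith)
        (by rw [← mul_assoc, ← pow_succ]; exact h2) h4.le
      have h6 := step (t := 4 / 5 * t') h0 h1 le_rfl (by linarith)
      calc g (p + t • ν) ≤ CH d L ^ n * g (p + (4 / 5 * t') • ν) := h5
        _ ≤ CH d L ^ n * (CH d L * g (p + t' • ν)) :=
            mul_le_mul_of_nonneg_left h6 (by positivity)
        _ = _ := by ring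

end Pool.Agent.K1H28.ES
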