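import Pool.Agent.K1H28.ES.MV

set_option autoImplicit false
open MeasureTheory Filter Topology Set Metric

namespace Pool.Agent.K1H28.ES
open Pool.Agent.H314.Dir

variable {d : ℕ}

theorem rho_le (y : Eu d) : rho y ≤ (cst d)⁻¹ := by
  have h := cst_pos d
  unfold rho rho0
  rw [div_eq_mul_inv]
  have h0 : 0 ≤ max 0 (1 - ‖y‖ ^ 2) := le_max_left _ _
  have h1 : max 0 (1 - ‖y‖ ^ 2) ≤ 1 := max_le zero_le_one (by nlinarith [norm_nonneg y])
  have h2 : (max 0 (1 - ‖y‖ ^ 2)) ^ 3 ≤ 1 := pow_le_one₀ h0 h1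
  have h3 : 0 ≤ (cst d)⁻¹ := by positivity
  nlinarith

theorem le_rho {y : Eu d} (hy : ‖y‖ ≤ 1 / 2) : (cst d)⁻¹ ≤ 64 / 27 * rho y := by
  have h := cst_pos d
  unfold rho rho0
  have hn := norm_nonneg y
  have h0 : 3 / 4 ≤ max 0 (1 - ‖y‖ ^ 2) := le_max_of_le_right (by nlinarith)
  have h1 : (3 / 4 : ℝ) ^ 3 ≤ (max 0 (1 - ‖y‖ ^ 2)) ^ 3 := pow_le_pow_left₀ (by norm_num) h0 3
  have h3 : 0 ≤ (cst d)⁻¹ := by positivity
  rw [div_eq_mul_inv _ (cst d)]
  nlinarith [mul_le_mul_of_nonneg_right h1 h3]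

theorem maxone_lip (a b : ℝ) (ha : 0 ≤ a) (hb : 0 ≤ b) :
    |max 0 (1 - a ^ 2) - max 0 (1 - b ^ 2)| ≤ 2 * |a - b| := by
  wlog hab : a ≤ b generalizing a b with H
  · rw [abs_sub_comm, abs_sub_comm a b]
    exact H b a hb ha (le_of_not_ge hab)
  rcases le_or_gt 1 a with h1 | h1
  · rw [max_eq_left (by nlinarith), max_eq_left (by nlinarith)]
    simp
  · rw [max_eq_right (by nlinarith : (0:ℝ) ≤ 1 - a ^ 2), abs_sub_comm a b,
      abs_of_nonneg (by linarith : 0 ≤ b - a)]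
    rcases le_or_gt 1 b with h2 | h2
    · rw [max_eq_left (by nlinarith)]
      rw [abs_of_nonneg (by nlinarith)]
      nlinarith
    · rw [max_eq_right (by nlinarith : (0:ℝ) ≤ 1 - b ^ 2)]
      rw [abs_of_nonneg (by nlinarith)]
      nlinarith

theorem rho_lip (y z : Eu d) : |rho y - rho z| ≤ (cst d)⁻¹ * (6 * ‖y - z‖) := by
  have h := cst_pos d
  unfold rho rho0
  rw [← sub_div, abs_div, abs_of_pos h, div_eq_inv_mul]
  refine mul_le_mul_of_nonneg_left ?_ (by positivity)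
  set a := max 0 (1 - ‖y‖ ^ 2)
  set b := max 0 (1 - ‖z‖ ^ 2)
  have ha0 : 0 ≤ a := le_max_left _ _
  have ha1 : a ≤ 1 := max_le zero_le_one (by nlinarith [norm_nonneg y])
  have hb0 : 0 ≤ b := le_max_left _ _
  have hb1 : b ≤ 1 := max_le zero_le_one (by nlinarith [norm_nonneg z])
  have h1 : |a - b| ≤ 2 * ‖y - z‖ := by
    refine (maxone_lip ‖y‖ ‖z‖ (norm_nonneg _) (norm_nonneg _)).trans ?_
    have := abs_norm_sub_norm_le y z
    linarith
  have e : a ^ 3 - b ^ 3 = (a - b) * (a ^ 2 + a * b + b ^ 2) := by ring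
  rw [e, abs_mul]
  have h2 : |a ^ 2 + a * b + b ^ 2| ≤ 3 := by
    rw [abs_of_nonneg (by positivity)]
    nlinarith
  calc |a - b| * |a ^ 2 + a * b + b ^ 2| ≤ |a - b| * 3 :=
        mul_le_mul_of_nonneg_left h2 (abs_nonneg _)
    _ ≤ 6 * ‖y - z‖ := by linarith

theorem norm_scaled {x t : Eu d} {r : ℝ} (hr : 0 < r) : ‖-(r⁻¹ • (x - t))‖ = ‖x - t‖ / r := by
  rw [norm_neg, norm_smul, Real.norm_eq_abs, abs_of_pos (by positivity), div_eq_inv_mul]

theorem integrable_conv {g : Eu d → ℝ} {C : ℝ} (hh : BM g C) {r : ℝ} (hr : 0 < r) (x : Eu d) :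
    Integrable (fun t => g t • (rho (-(r⁻¹ • (x - t))) : ℝ)) := by
  have hc : Continuous (fun t : Eu d => (rho (-(r⁻¹ • (x - t))) : ℝ)) :=
    contDiff_rho.continuous.comp (by fun_prop)
  have hs : HasCompactSupport (fun t : Eu d => (rho (-(r⁻¹ • (x - t))) : ℝ)) := by
    refine HasCompactSupport.intro (isCompact_closedBall x r) fun t ht => ?_
    apply rho_eq_zero
    rw [norm_scaled hr, le_div_iff₀ hr, one_mul]
    simp only [mem_closedBall, not_le, dist_comm t x, dist_eq_norm] at ht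
    exact ht.le
  have hi := hc.integrable_of_hasCompactSupport (μ := (volume : Measure (Eu d))) hs
  refine Integrable.mono' (hi.norm.const_mul C) ?_ ?_
  · exact (hh.meas.aestronglyMeasurable).smul hc.aestronglyMeasurable
  · refine Eventually.of_forall fun t => ?_
    rw [norm_smul, Real.norm_eq_abs]
    exact mul_le_mul_of_nonneg_right (hh.bd _) (norm_nonneg _)

/-- comparison of averages over balls of comparable size -/
theorem J_compare {g : Eu d → ℝ} {C : ℝ} (hh : BM g C) {r : ℝ} (hr : 0 < r) {x x' : Eu d}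
    (hx : ‖x - x'‖ ≤ r) (h : ∀ y ∈ closedBall x' (4 * r), 0 ≤ g y) :
    J rho g r x ≤ 64 / 27 * 4 ^ d * J rho g (4 * r) x' := by
  have hr4 : 0 < 4 * r := by linarith
  rw [J_eq_conv rho g hr x, J_eq_conv rho g hr4 x']
  have e1 : ((4 * r) ^ d)⁻¹ = (4 ^ d)⁻¹ * (r ^ d)⁻¹ := by
    rw [mul_pow, mul_inv]
  have e2 : (64 / 27 * 4 ^ d : ℝ) * (((4 * r) ^ d)⁻¹ • ∫ t, g t • rho (-((4 * r)⁻¹ • (x' - t)))) =
      (r ^ d)⁻¹ * ∫ t, 64 / 27 * (g t • rho (-((4 * r)⁻¹ • (x' - t)))) := by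
    rw [e1, integral_const_mul, smul_eq_mul]
    have : (4 : ℝ) ^ d ≠ 0 := by positivity
    field_simp
  rw [e2, smul_eq_mul]
  refine mul_le_mul_of_nonneg_left ?_ (by positivity)
  refine integral_mono (integrable_conv hh hr x) ((integrable_conv hh hr4 x').const_mul _)
    fun t => ?_
  simp only [smul_eq_mul]
  have hgn : 0 ≤ g t * rho (-((4 * r)⁻¹ • (x' - t))) := by
    rcases le_or_gt 1 ‖-((4 * r)⁻¹ • (x' - t))‖ with hy | hy
    · rw [rho_eq_zero hy, mul_zero]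
    · refine mul_nonneg (h _ ?_) (rho_nonneg _)
      rw [norm_scaled hr4, div_lt_one hr4] at hy
      rw [mem_closedBall, dist_comm, dist_eq_norm]
      exact hy.le
  rcases le_or_gt 1 ‖-(r⁻¹ • (x - t))‖ with hy | hy
  · rw [rho_eq_zero hy, mul_zero]
    linarith
  · rw [norm_scaled hr, div_lt_one hr] at hy
    have h1 : ‖x' - t‖ ≤ 2 * r := by
      have e : x' - t = (x - t) - (x - x') := by abel
      rw [e]
      have := norm_sub_le (x - t) (x - x')
      linarith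
    have h2 : ‖-((4 * r)⁻¹ • (x' - t))‖ ≤ 1 / 2 := by
      rw [norm_scaled hr4, div_le_iff₀ hr4]
      linarith
    have hg : 0 ≤ g t := by
      apply h
      rw [mem_closedBall, dist_comm, dist_eq_norm]
      linarith
    have h3 := le_rho h2
    have h4 := rho_le (-(r⁻¹ • (x - t)))
    nlinarith [mul_le_mul_of_nonneg_left (h4.trans h3) hg]

/-- oscillation of averages -/
theorem J_osc {g : Eu d → ℝ} {C : ℝ} (hh : BM g C) {r : ℝ} (hr : 0 < r) {x x' : Eu d}
    (hx : ‖x - x'‖ ≤ r) (h : ∀ y ∈ closedBall x (4 * r), 0 ≤ g y) :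
    |J rho g r x - J rho g r x'| ≤ 6 * (‖x - x'‖ / r) * (64 / 27 * 4 ^ d) * J rho g (4 * r) x := by
  have hr4 : 0 < 4 * r := by linarith
  rw [J_eq_conv rho g hr x, J_eq_conv rho g hr x', J_eq_conv rho g hr4 x]
  have e1 : ((4 * r) ^ d)⁻¹ = (4 ^ d)⁻¹ * (r ^ d)⁻¹ := by
    rw [mul_pow, mul_inv]
  have e2 : 6 * (‖x - x'‖ / r) * (64 / 27 * 4 ^ d : ℝ) *
      (((4 * r) ^ d)⁻¹ • ∫ t, g t • rho (-((4 * r)⁻¹ • (x - t)))) =
      (r ^ d)⁻¹ * ∫ t, 6 * (‖x - x'‖ / r) * (64 / 27) * (g t • rho (-((4 * r)⁻¹ • (x - t)))) := by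
    rw [e1, integral_const_mul, smul_eq_mul]
    have : (4 : ℝ) ^ d ≠ 0 := by positivity
    field_simp
  rw [e2, ← smul_sub, smul_eq_mul, abs_mul, abs_of_pos (by positivity : 0 < (r ^ d)⁻¹)]
  refine mul_le_mul_of_nonneg_left ?_ (by positivity)
  rw [← integral_sub (integrable_conv hh hr x) (integrable_conv hh hr x'), ← Real.norm_eq_abs]
  refine norm_integral_le_of_norm_le ((integrable_conv hh hr4 x).const_mul _)
    (Eventually.of_forall fun t => ?_)
  simp only [smul_eq_mul]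
  rw [← mul_sub, norm_mul, Real.norm_eq_abs, Real.norm_eq_abs]
  have hq : 0 ≤ ‖x - x'‖ / r := by positivity
  have hgn : 0 ≤ g t * rho (-((4 * r)⁻¹ • (x - t))) := by
    rcases le_or_gt 1 ‖-((4 * r)⁻¹ • (x - t))‖ with hy | hy
    · rw [rho_eq_zero hy, mul_zero]
    · refine mul_nonneg (h _ ?_) (rho_nonneg _)
      rw [norm_scaled hr4, div_lt_one hr4] at hy
      rw [mem_closedBall, dist_comm, dist_eq_norm]
      exact hy.le
  rcases le_or_gt (2 * r) ‖x - t‖ with hy | hy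
  · have h1 : 1 ≤ ‖-(r⁻¹ • (x - t))‖ := by
      rw [norm_scaled hr, le_div_iff₀ hr]; linarith
    have h2 : 1 ≤ ‖-(r⁻¹ • (x' - t))‖ := by
      rw [norm_scaled hr, le_div_iff₀ hr]
      have e : x - t = (x' - t) + (x - x') := by abel
      have := norm_add_le (x' - t) (x - x')
      rw [← e] at this
      linarith
    rw [rho_eq_zero h1, rho_eq_zero h2, sub_zero, abs_zero, mul_zero]
    positivity
  · have h2 : ‖-((4 * r)⁻¹ • (x - t))‖ ≤ 1 / 2 := by
      rw [norm_scaled hr4, div_le_iff₀ hr4]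
      linarith
    have hg : 0 ≤ g t := by
      apply h
      rw [mem_closedBall, dist_comm, dist_eq_norm]
      linarith
    have h3 := le_rho h2
    have h4 := rho_lip (-(r⁻¹ • (x - t))) (-(r⁻¹ • (x' - t)))
    have e3 : -(r⁻¹ • (x - t)) - -(r⁻¹ • (x' - t)) = -(r⁻¹ • (x - x')) := by
      rw [neg_sub_neg, ← smul_sub, ← smul_neg]
      congr 1
      abel
    rw [e3, norm_scaled hr] at h4
    rw [abs_of_nonneg hg]
    calc g t * |rho (-(r⁻¹ • (x - t))) - rho (-(r⁻¹ • (x' - t)))| ≤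
        g t * ((cst d)⁻¹ * (6 * (‖x - x'‖ / r))) := mul_le_mul_of_nonneg_left h4 hg
      _ ≤ g t * ((64 / 27 * rho (-((4 * r)⁻¹ • (x - t)))) * (6 * (‖x - x'‖ / r))) := by
          refine mul_le_mul_of_nonneg_left ?_ hg
          exact mul_le_mul_of_nonneg_right h3 (by positivity)
      _ = _ := by ring

/-- the class of nonnegative functions with `|lap g| ≤ L g` -/
structure Nic (L : ℝ) (Ω : Set (Eu d)) (g : Eu d → ℝ) : Prop where
  cd : ContDiffOn ℝ 2 g Ω
  nonneg : ∀ y ∈ Ω, 0 ≤ g y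
  lap : ∀ y ∈ Ω, |lap g y| ≤ L * g y

/-- localisation: replace `g` by a globally smooth bounded function -/
theorem localize {Ω : Set (Eu d)} (hΩ : IsOpen Ω) {g : Eu d → ℝ} (hg : ContDiffOn ℝ 2 g Ω)
    {x : Eu d} {s : ℝ} (hs : 0 < s) (hsub : closedBall x s ⊆ Ω) :
    ∃ g' : Eu d → ℝ, ContDiff ℝ 2 g' ∧ (∃ C, ∀ y, |g' y| ≤ C) ∧
      ∀ y ∈ closedBall x s, g' y = g y ∧ lap g' y = lap g y := by
  obtain ⟨δ, hδ, hδs⟩ := (isCompact_closedBall x s).exists_cthickening_subset_open hΩ hsub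
  rw [cthickening_closedBall hδ.le hs.le] at hδs
  let χ : ContDiffBump x := ⟨s + δ / 3, s + 2 * δ / 3, by positivity, by linarith⟩
  have hχ1 : ∀ y ∈ ball x (s + δ / 3), χ y = 1 := fun y hy =>
    χ.one_of_mem_closedBall (ball_subset_closedBall hy)
  have hχ0 : ∀ y, y ∉ ball x (s + 2 * δ / 3) → χ y = 0 := by
    intro y hy
    apply χ.zero_of_le_dist
    simpa using hy
  set g' : Eu d → ℝ := fun y => χ y * g y with hg'
  have hχc : ContDiff ℝ 2 χ := χ.contDiff
  have hcd : ContDiff ℝ 2 g' := by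
    rw [contDiff_iff_contDiffAt]
    intro y
    by_cases hy : y ∈ closedBall x (s + 2 * δ / 3)
    · have hyΩ : y ∈ Ω := hδs (closedBall_subset_closedBall (by linarith) hy)
      exact hχc.contDiffAt.mul (hg.contDiffAt (hΩ.mem_nhds hyΩ))
    · have h1 : g' =ᶠ[𝓝 y] fun _ => 0 := by
        filter_upwards [isClosed_closedBall.isOpen_compl.mem_nhds hy] with z hz
        have : z ∉ ball x (s + 2 * δ / 3) := fun h => hz (ball_subset_closedBall h)
        simp [hg', hχ0 z this]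
      exact contDiffAt_const.congr_of_eventuallyEq h1
  have hcs : HasCompactSupport g' := by
    refine HasCompactSupport.intro (isCompact_closedBall x (s + 2 * δ / 3)) fun y hy => ?_
    have : y ∉ ball x (s + 2 * δ / 3) := fun h => hy (ball_subset_closedBall h)
    simp [hg', hχ0 y this]
  refine ⟨g', hcd, ?_, ?_⟩
  · obtain ⟨C, hC⟩ := hcs.exists_bound_of_continuous hcd.continuous
    exact ⟨C, fun y => by simpa using hC y⟩
  · intro y hy
    have h1 : y ∈ ball x (s + δ / 3) := by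
      rw [mem_closedBall] at hy
      rw [mem_ball]
      linarith
    have h2 : g' =ᶠ[𝓝 y] g := by
      filter_upwards [isOpen_ball.mem_nhds h1] with z hz
      simp [hg', hχ1 z hz]
    exact ⟨h2.self_of_nhds, lap_congr h2⟩

/-- the Harnack constant -/
noncomputable def CH (d : ℕ) (L : ℝ) : ℝ := 64 / 27 * 4 ^ d * Real.exp (2 * L)

theorem one_lt_CH (d : ℕ) {L : ℝ} (hL : 0 ≤ L) : 1 < CH d L := by
  unfold CH
  have h1 : (1 : ℝ) ≤ 4 ^ d := one_le_pow₀ (by norm_num)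
  have h2 : 1 ≤ Real.exp (2 * L) := Real.one_le_exp (by linarith)
  nlinarith

theorem harnack {L : ℝ} (hL : 0 ≤ L) {Ω : Set (Eu d)} (hΩ : IsOpen Ω) {g : Eu d → ℝ}
    (hg : Nic L Ω g) {r : ℝ} (hr : 0 < r) (hr1 : r ≤ 1) {x x' : Eu d} (hx : ‖x - x'‖ ≤ r)
    (hsub : closedBall x' (4 * r) ⊆ Ω) : g x ≤ CH d L * g x' := by
  obtain ⟨g', hcd, ⟨C, hC⟩, he⟩ := localize hΩ hg.cd (by linarith : 0 < 4 * r) hsub
  have hN : ∀ y ∈ closedBall x' (4 * r), 0 ≤ g' y ∧ |lap g' y| ≤ L * g' y := by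
    intro y hy
    obtain ⟨h1, h2⟩ := he y hy
    rw [h1, h2]
    exact ⟨hg.nonneg y (hsub hy), hg.lap y (hsub hy)⟩
  have hsubx : closedBall x r ⊆ closedBall x' (4 * r) := by
    refine closedBall_subset_closedBall' ?_
    rw [dist_eq_norm]
    linarith
  have hm1 := (mv_global hcd hC hL hr (fun y hy => hN y (hsubx hy))).2
  have hm2 := (mv_global hcd hC hL (by linarith : 0 < 4 * r) hN).1
  have hJ := J_compare ⟨hcd.continuous.measurable, hC⟩ hr hx (fun y hy => (hN y hy).1)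
  have hx1 : x ∈ closedBall x' (4 * r) := hsubx (mem_closedBall_self hr.le)
  have hx2 : x' ∈ closedBall x' (4 * r) := mem_closedBall_self (by linarith)
  rw [(he x hx1).1] at hm1
  rw [(he x' hx2).1] at hm2
  have hJ0 : 0 ≤ J rho g' (4 * r) x' := J_nonneg (by linarith) (fun y hy => (hN y hy).1)
  set I := J rho g' (4 * r) x'
  have e2 : I ≤ Real.exp (L * (4 * r) ^ 2 / 16) * g x' := by
    have h1 := mul_le_mul_of_nonneg_left hm2 (Real.exp_pos (L * (4 * r) ^ 2 / 16)).le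
    rw [← mul_assoc, ← Real.exp_add, add_neg_cancel, Real.exp_zero, one_mul] at h1
    exact h1
  have h4 : (0 : ℝ) < 4 ^ d := by positivity
  have hg0 : 0 ≤ g x' := hg.nonneg _ (hsub hx2)
  have hr2 : r ^ 2 ≤ 1 := by nlinarith
  calc g x ≤ Real.exp (L * r ^ 2 / 16) * J rho g' r x := hm1
    _ ≤ Real.exp (L * r ^ 2 / 16) * (64 / 27 * 4 ^ d * I) :=
        mul_le_mul_of_nonneg_left hJ (Real.exp_pos _).le
    _ ≤ Real.exp (L * r ^ 2 / 16) * (64 / 27 * 4 ^ d * (Real.exp (L * (4 * r) ^ 2 / 16) * g x')) := by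
        refine mul_le_mul_of_nonneg_left ?_ (Real.exp_pos _).le
        refine mul_le_mul_of_nonneg_left e2 (by positivity)
    _ = 64 / 27 * 4 ^ d * Real.exp (L * r ^ 2 / 16 + L * (4 * r) ^ 2 / 16) * g x' := by
        rw [Real.exp_add]; ring
    _ ≤ CH d L * g x' := by
        unfold CH
        refine mul_le_mul_of_nonneg_right ?_ hg0
        refine mul_le_mul_of_nonneg_left ?_ (by positivity)
        rw [Real.exp_le_exp]
        nlinarith

/-- the oscillation constant -/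
noncomputable def CO (d : ℕ) (L : ℝ) : ℝ :=
  (L * Real.exp L * (1 + CH d L) + 6 * CH d L)

theorem CO_pos (d : ℕ) {L : ℝ} (hL : 0 ≤ L) : 0 < CO d L := by
  unfold CO
  have := one_lt_CH d hL
  have h2 := Real.exp_pos L
  positivity

theorem osc {L : ℝ} (hL : 0 ≤ L) {Ω : Set (Eu d)} (hΩ : IsOpen Ω) {g : Eu d → ℝ}
    (hg : Nic L Ω g) {r : ℝ} (hr : 0 < r) (hr1 : r ≤ 1) {x x' : Eu d} (hx : ‖x - x'‖ ≤ r)
    (hsub : closedBall x (4 * r) ⊆ Ω) :
    |g x - g x'| ≤ CO d L * (r ^ 2 + ‖x - x'‖ / r) * g x := by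
  obtain ⟨g', hcd, ⟨C, hC⟩, he⟩ := localize hΩ hg.cd (by linarith : 0 < 4 * r) hsub
  have hN : ∀ y ∈ closedBall x (4 * r), 0 ≤ g' y ∧ |lap g' y| ≤ L * g' y := by
    intro y hy
    obtain ⟨h1, h2⟩ := he y hy
    rw [h1, h2]
    exact ⟨hg.nonneg y (hsub hy), hg.lap y (hsub hy)⟩
  have hsubx : closedBall x' r ⊆ closedBall x (4 * r) := by
    refine closedBall_subset_closedBall' ?_
    rw [dist_comm, dist_eq_norm]
    linarith
  have hsubx2 : closedBall x r ⊆ closedBall x (4 * r) :=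
    closedBall_subset_closedBall (by linarith)
  have hx1 : x' ∈ closedBall x (4 * r) := hsubx (mem_closedBall_self hr.le)
  have hx2 : x ∈ closedBall x (4 * r) := mem_closedBall_self (by linarith)
  obtain ⟨m1, m2⟩ := mv_global hcd hC hL hr (fun y hy => hN y (hsubx2 hy))
  obtain ⟨m3, m4⟩ := mv_global hcd hC hL hr (fun y hy => hN y (hsubx hy))
  have m5 := (mv_global hcd hC hL (by linarith : 0 < 4 * r) hN).1
  have hJ := J_osc ⟨hcd.continuous.measurable, hC⟩ hr hx (fun y hy => (hN y hy).1)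
  rw [(he x' hx1).1] at m3 m4
  rw [(he x hx2).1] at m1 m2 m5
  have hH : g x' ≤ CH d L * g x :=
    harnack hL hΩ hg hr hr1 (by rw [norm_sub_rev]; exact hx) hsub
  set I := J rho g' (4 * r) x
  set A := J rho g' r x
  set B := J rho g' r x'
  have hg0 : 0 ≤ g x := hg.nonneg _ (hsub hx2)
  have hg1 : 0 ≤ g x' := hg.nonneg _ (hsub hx1)
  have hr2 : r ^ 2 ≤ 1 := by nlinarith
  have hr20 : 0 ≤ r ^ 2 := by positivity
  have hE : 0 < Real.exp L := Real.exp_pos L
  -- auxiliary: comparison of a value with its average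
  have aux : ∀ a b : ℝ, 0 ≤ a → Real.exp (-(L * r ^ 2 / 16)) * b ≤ a →
      a ≤ Real.exp (L * r ^ 2 / 16) * b → |a - b| ≤ (L * Real.exp L) * r ^ 2 * a := by
    intro a b ha h1 h2
    have hLr : 0 ≤ L * r ^ 2 / 16 := by positivity
    have hb : b ≤ Real.exp (L * r ^ 2 / 16) * a := by
      have h3 := mul_le_mul_of_nonneg_left h1 (Real.exp_pos (L * r ^ 2 / 16)).le
      rw [← mul_assoc, ← Real.exp_add, add_neg_cancel, Real.exp_zero, one_mul] at h3
      exact h3
    have hb' : Real.exp (-(L * r ^ 2 / 16)) * a ≤ b := by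
      have h3 := mul_le_mul_of_nonneg_left h2 (Real.exp_pos (-(L * r ^ 2 / 16))).le
      rw [← mul_assoc, ← Real.exp_add, neg_add_cancel, Real.exp_zero, one_mul] at h3
      exact h3
    have h5 : 1 - L * r ^ 2 / 16 ≤ Real.exp (-(L * r ^ 2 / 16)) := by
      have := Real.add_one_le_exp (-(L * r ^ 2 / 16))
      linarith
    have h6 : Real.exp (L * r ^ 2 / 16) ≤ 1 + L * r ^ 2 * Real.exp L := by
      -- exp t - 1 ≤ t exp t
      have h7 := Real.add_one_le_exp (-(L * r ^ 2 / 16))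
      have h8 : Real.exp (L * r ^ 2 / 16) * (1 - L * r ^ 2 / 16) ≤ 1 := by
        have := mul_le_mul_of_nonneg_left h5 (Real.exp_pos (L * r ^ 2 / 16)).le
        rw [← Real.exp_add, add_neg_cancel, Real.exp_zero] at this
        exact this
      have h9 : Real.exp (L * r ^ 2 / 16) ≤ Real.exp L := by
        rw [Real.exp_le_exp]
        nlinarith
      have h10 : Real.exp (L * r ^ 2 / 16) * (L * r ^ 2 / 16) ≤ Real.exp L * (L * r ^ 2) := by
        refine mul_le_mul h9 ?_ hLr hE.le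
        nlinarith [mul_nonneg hL hr20]
      nlinarith
    have h11 : L * r ^ 2 / 16 ≤ L * Real.exp L * r ^ 2 := by
      have : 1 ≤ Real.exp L := Real.one_le_exp hL
      nlinarith [mul_nonneg hL hr20]
    rw [abs_le]
    constructor
    · nlinarith
    · nlinarith
  have h1 := aux (g x) A hg0 m1 m2
  have h2 := aux (g x') B hg1 m3 m4
  have e2 : I ≤ Real.exp L * g x := by
    have h1 := mul_le_mul_of_nonneg_left m5 (Real.exp_pos (L * (4 * r) ^ 2 / 16)).le
    rw [← mul_assoc, ← Real.exp_add, add_neg_cancel, Real.exp_zero, one_mul] at h1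
    refine h1.trans (mul_le_mul_of_nonneg_right ?_ hg0)
    rw [Real.exp_le_exp]
    nlinarith
  have hq : 0 ≤ ‖x - x'‖ / r := by positivity
  have h3 : |A - B| ≤ 6 * CH d L * (‖x - x'‖ / r) * g x := by
    refine hJ.trans ?_
    have h4 : (0 : ℝ) < 4 ^ d := by positivity
    calc 6 * (‖x - x'‖ / r) * (64 / 27 * 4 ^ d) * I ≤
        6 * (‖x - x'‖ / r) * (64 / 27 * 4 ^ d) * (Real.exp L * g x) :=
          mul_le_mul_of_nonneg_left e2 (by positivity)
      _ ≤ 6 * (‖x - x'‖ / r) * (64 / 27 * 4 ^ d) * (Real.exp (2 * L) * g x) := by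
          refine mul_le_mul_of_nonneg_left ?_ (by positivity)
          refine mul_le_mul_of_nonneg_right ?_ hg0
          rw [Real.exp_le_exp]; linarith
      _ = _ := by unfold CH; ring
  have h4 : g x - g x' = (g x - A) + (A - B) - (g x' - B) := by ring
  rw [h4]
  have h5 : |g x - A + (A - B) - (g x' - B)| ≤ |g x - A| + |A - B| + |g x' - B| := by
    refine (abs_sub _ _).trans ?_
    have := abs_add_le (g x - A) (A - B)
    linarith
  refine h5.trans ?_
  have h6 : L * Real.exp L * r ^ 2 * g x' ≤ L * Real.exp L * r ^ 2 * (CH d L * g x) :=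
    mul_le_mul_of_nonneg_left hH (by positivity)
  have hCH := one_lt_CH d hL
  unfold CO
  have h7 : 0 ≤ L * Real.exp L * (1 + CH d L) * (‖x - x'‖ / r) * g x := by positivity
  have h8 : 0 ≤ 6 * CH d L * r ^ 2 * g x := by positivity
  nlinarith

end Pool.Agent.K1H28.ES
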