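import Pool.Agent.K1H28.ES.Low
import Pool.Agent.K1H28.ES.Contra

set_option autoImplicit false
open MeasureTheory Filter Topology Set Metric

namespace Pool.Agent.K1H28.ES
open Pool.Agent.H314.Dir

variable {d : ℕ}

theorem lap_comp_smul {u : Eu d → ℝ} {κ : ℝ} {y : Eu d} (hu : ContDiffAt ℝ 2 u (κ • y)) :
    lap (fun y => u (κ • y)) y = κ ^ 2 * lap u (κ • y) := by
  unfold lap
  rw [Finset.mul_sum]
  refine Finset.sum_congr rfl fun i _ => ?_
  set e : Eu d := EuclideanSpace.single i (1 : ℝ) with he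
  have hc : ContDiffAt ℝ 2 (fun y : Eu d => u (κ • y)) y :=
    ContDiffAt.comp y hu (by fun_prop)
  have h1 := line_deriv (v := κ • e) hu
  have h2 := line_deriv2 (v := κ • e) hu
  have h3 : iteratedFDeriv ℝ 2 u (κ • y) (fun _ => κ • e) =
      κ ^ 2 * iteratedFDeriv ℝ 2 u (κ • y) (fun _ => e) := by
    have := (iteratedFDeriv ℝ 2 u (κ • y)).map_smul_univ (fun _ => κ) (fun _ => e)
    simpa using this
  rw [h3] at h2
  refine iteratedFDeriv_two_of_line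
    (g := fun t => fderiv ℝ u (κ • y + t • κ • e) (κ • e)) hc ?_ h2
  filter_upwards [h1] with t ht
  have e1 : (fun t : ℝ => u (κ • (y + t • e))) = fun t : ℝ => u (κ • y + t • κ • e) := by
    funext t
    congr 1
    module
  rw [e1]
  exact ht

theorem dsol_of_sol {L cf : ℝ} {f : ℝ → ℝ} (_hf : Rf L cf f) {Ω : Set (Eu d)} (hΩ : IsOpen Ω)
    (hstar : ∀ κ : ℝ, 1 ≤ κ → ∀ y ∈ Ω, κ • y ∈ Ω) {u : Eu d → ℝ} (hu : Sol f Ω u) {κ : ℝ}
    (hκ : 1 ≤ κ) : DSol κ f Ω (fun y => u (κ • y)) := by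
  have hmt : MapsTo (fun y : Eu d => κ • y) Ω Ω := fun y hy => hstar κ hκ y hy
  have hcont : Continuous (fun y : Eu d => κ • y) := by fun_prop
  have hmc : MapsTo (fun y : Eu d => κ • y) (closure Ω) (closure Ω) := hmt.closure hcont
  refine ⟨?_, ?_, ?_, ?_, ?_⟩
  · exact hu.cd.comp (by fun_prop) hmt
  · exact hu.cont.comp hcont.continuousOn hmc
  · intro x hx
    exact hu.nonneg_closure hΩ (hmc hx)
  · intro x hx
    exact hu.le _ (hmt hx)
  · intro x hx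
    rw [lap_comp_smul (hu.cda hΩ (hmt hx))]
    have := hu.eq _ (hmt hx)
    simp only at this ⊢
    rw [← this]; ring

/-- the dilation factor -/
noncomputable def kap (ε s : ℝ) (x : Eu d) : ℝ := s + ε * Real.log (1 + ‖x‖)

theorem log_nn (x : Eu d) : 0 ≤ Real.log (1 + ‖x‖) :=
  Real.log_nonneg (by linarith [norm_nonneg x])

theorem le_kap {ε : ℝ} (hε : 0 ≤ ε) (s : ℝ) (x : Eu d) : s ≤ kap ε s x := by
  unfold kap
  have := mul_nonneg hε (log_nn x)
  linarith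

theorem log_diff {a b : ℝ} (ha : 0 < a) (hb : 0 < b) :
    |Real.log a - Real.log b| ≤ |a - b| / min a b := by
  have key : ∀ a b : ℝ, 0 < a → a ≤ b → Real.log b - Real.log a ≤ (b - a) / a := by
    intro a b ha hab
    have h1 := Real.log_le_sub_one_of_pos (div_pos (lt_of_lt_of_le ha hab) ha)
    rw [Real.log_div (by linarith) ha.ne'] at h1
    have e : b / a - 1 = (b - a) / a := by field_simp
    linarith
  rcases le_total a b with h | h
  · rw [min_eq_left h, abs_sub_comm, abs_sub_comm a b, abs_of_nonneg (by linarith : 0 ≤ b - a),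
      abs_of_nonneg (by linarith [Real.log_le_log ha h])]
    exact key a b ha h
  · rw [min_eq_right h, abs_of_nonneg (by linarith : 0 ≤ a - b),
      abs_of_nonneg (by linarith [Real.log_le_log hb h])]
    exact key b a hb h

theorem norm_mul_log_diff {x x' : Eu d} {D : ℝ} (hD : ‖x - x'‖ ≤ D) :
    ‖x‖ * |Real.log (1 + ‖x'‖) - Real.log (1 + ‖x‖)| ≤ D * (1 + D) := by
  have hn := norm_nonneg x
  have hn' := norm_nonneg x'
  have hD0 : 0 ≤ D := (norm_nonneg _).trans hD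
  have h1 := log_diff (a := 1 + ‖x'‖) (b := 1 + ‖x‖) (by linarith) (by linarith)
  set M := min (1 + ‖x'‖) (1 + ‖x‖) with hM
  have hM1 : 1 ≤ M := le_min (by linarith) (by linarith)
  have h2 : |(1 + ‖x'‖) - (1 + ‖x‖)| ≤ D := by
    have e : (1 + ‖x'‖) - (1 + ‖x‖) = -(‖x‖ - ‖x'‖) := by ring
    rw [e, abs_neg]
    exact (abs_norm_sub_norm_le x x').trans hD
  have h3 : ‖x‖ ≤ M * (1 + D) := by
    have h4 : ‖x‖ ≤ ‖x'‖ + D := by
      have := norm_sub_norm_le x x'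
      linarith
    rcases min_choice (1 + ‖x'‖) (1 + ‖x‖) with h | h
    · rw [hM, h]; nlinarith
    · rw [hM, h]; nlinarith
  calc ‖x‖ * |Real.log (1 + ‖x'‖) - Real.log (1 + ‖x‖)| ≤ ‖x‖ * (D / M) := by
        refine mul_le_mul_of_nonneg_left (h1.trans ?_) hn
        exact div_le_div_of_nonneg_right h2 (by linarith)
    _ ≤ (M * (1 + D)) * (D / M) := mul_le_mul_of_nonneg_right h3 (by positivity)
    _ = D * (1 + D) := by field_simp

/-- comparison of a solution with dilations of another one -/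
theorem compare_dil (hd : 1 ≤ d) {L cf : ℝ} {f : ℝ → ℝ} (hf : Rf L cf f) {ρ0 : ℝ}
    {Ω : Set (Eu d)} (hT : TB ρ0 Ω) (hne : Ωᶜ.Nonempty)
    (hstar : ∀ κ : ℝ, 1 ≤ κ → ∀ y ∈ Ω, κ • y ∈ Ω) {u v : Eu d → ℝ} (hu : Sol f Ω u)
    (hv : Sol f Ω v) {δ : ℝ} (hδ : 0 < δ) :
    ∃ ε0 : ℝ, 0 < ε0 ∧ ∀ ε : ℝ, 0 < ε → ε ≤ ε0 → ∀ s : ℝ, 1 + δ ≤ s → ∀ x ∈ Ω,
      (kap ε s x)⁻¹ • x ∈ Ω → v ((kap ε s x)⁻¹ • x) ≤ u x := by
  obtain ⟨κ1, hκ1, hinit⟩ := init hd hf hT hne hstar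
  have hκ11 : 1 ≤ κ1 := hκ1.le
  obtain ⟨τ, hτ, hcon⟩ := contra hd hf hT hne hδ hκ11
  set Q : ℝ := 2 * κ1 * (1 + 2 * κ1) with hQ
  have hQ0 : 0 < Q := by positivity
  refine ⟨τ / (2 * Q), by positivity, ?_⟩
  intro ε hε hεle
  have hεQ : ε * Q ≤ τ / 2 := by
    rw [le_div_iff₀ (by positivity)] at hεle
    linarith
  set B : ℝ := Real.exp (κ1 / ε) + 2 * κ1 with hB
  have hB0 : 0 < B := by positivity
  set h : ℝ := τ / (2 * B) with hh
  have hh0 : 0 < h := by positivity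
  -- initial statement
  have hbase : ∀ s : ℝ, κ1 ≤ s → ∀ x ∈ Ω, (kap ε s x)⁻¹ • x ∈ Ω →
      v ((kap ε s x)⁻¹ • x) ≤ u x := by
    intro s hs x _ hxm
    have hk : κ1 ≤ kap ε s x := hs.trans (le_kap hε.le s x)
    have h1 := hinit u v hu hv _ hk _ hxm
    rw [smul_smul, mul_inv_cancel₀ (by linarith), one_smul] at h1
    exact h1
  -- one step
  have hstep : ∀ s s' : ℝ, 1 + δ ≤ s' → s = s' + h →
      (∀ x ∈ Ω, (kap ε s x)⁻¹ • x ∈ Ω → v ((kap ε s x)⁻¹ • x) ≤ u x) →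
      ∀ x ∈ Ω, (kap ε s' x)⁻¹ • x ∈ Ω → v ((kap ε s' x)⁻¹ • x) ≤ u x := by
    intro s s' hs' hss hA x' hx' hy'
    set κ' : ℝ := kap ε s' x' with hκ'
    have hκ's : s' ≤ κ' := le_kap hε.le s' x'
    have hκ'1 : 1 ≤ κ' := by linarith
    have hκ'0 : 0 < κ' := by linarith
    set y' : Eu d := κ'⁻¹ • x' with hy'd
    have hx'y : κ' • y' = x' := by
      rw [hy'd, smul_smul, mul_inv_cancel₀ hκ'0.ne', one_smul]
    rcases le_or_gt κ1 κ' with hcase | hcase
    · have h1 := hinit u v hu hv _ hcase _ hy'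
      rwa [hx'y] at h1
    · have h1 := hcon v hv κ' (by linarith) hcase.le _ (dsol_of_sol hf hT.op hstar hu hκ'1) y' hy'
        ?_
      · simp only [hx'y] at h1
        exact h1
      · intro y hy hyy
        set x : Eu d := κ' • y with hx
        have hxΩ : x ∈ Ω := hstar κ' hκ'1 y hy
        set κ'' : ℝ := kap ε s x with hκ''
        have hκ''s : s ≤ κ'' := le_kap hε.le s x
        have hκ''1 : 1 ≤ κ'' := by linarith
        refine ⟨κ''⁻¹ • x, ?_, fun hm => hA x hxΩ hm⟩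
        have hxx' : ‖x - x'‖ ≤ 2 * κ1 := by
          rw [hx, ← hx'y, ← smul_sub, norm_smul, Real.norm_eq_abs, abs_of_pos hκ'0]
          nlinarith [norm_nonneg (y - y')]
        have hlog := norm_mul_log_diff hxx'
        have hx'le : ‖x'‖ ≤ Real.exp (κ1 / ε) := by
          have h2 : ε * Real.log (1 + ‖x'‖) ≤ κ1 := by
            have : κ' = s' + ε * Real.log (1 + ‖x'‖) := rfl
            linarith
          have h3 : Real.log (1 + ‖x'‖) ≤ κ1 / ε := by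
            rw [le_div_iff₀ hε]; linarith
          have h4 := (Real.log_le_iff_le_exp (by linarith [norm_nonneg x'])).1 h3
          linarith
        have hxle : ‖x‖ ≤ B := by
          have := norm_sub_norm_le x x'
          rw [hB]; linarith
        have e1 : κ''⁻¹ • x - y = (κ''⁻¹ - κ'⁻¹) • x := by
          have : y = κ'⁻¹ • x := by
            rw [hx, smul_smul, inv_mul_cancel₀ hκ'0.ne', one_smul]
          rw [this, sub_smul]
        have e2 : |κ''⁻¹ - κ'⁻¹| ≤ |κ' - κ''| := by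
          have e3 : κ''⁻¹ - κ'⁻¹ = (κ' - κ'') / (κ' * κ'') := by
            field_simp
          rw [e3, abs_div, abs_of_pos (by positivity : 0 < κ' * κ''), div_le_iff₀ (by positivity)]
          have : 1 ≤ κ' * κ'' := by nlinarith
          nlinarith [abs_nonneg (κ' - κ'')]
        have e4 : |κ' - κ''| ≤ h + ε * |Real.log (1 + ‖x'‖) - Real.log (1 + ‖x‖)| := by
          have e5 : κ' - κ'' = -h + ε * (Real.log (1 + ‖x'‖) - Real.log (1 + ‖x‖)) := by
            have e6 : κ' = s' + ε * Real.log (1 + ‖x'‖) := rfl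
            have e7 : κ'' = s + ε * Real.log (1 + ‖x‖) := rfl
            rw [e6, e7, hss]; ring
          rw [e5]
          refine (abs_add_le _ _).trans ?_
          rw [abs_neg, abs_of_pos hh0, abs_mul, abs_of_pos hε]
        rw [e1, norm_smul, Real.norm_eq_abs]
        have h5 : |κ''⁻¹ - κ'⁻¹| * ‖x‖ ≤
            (h + ε * |Real.log (1 + ‖x'‖) - Real.log (1 + ‖x‖)|) * ‖x‖ :=
          mul_le_mul_of_nonneg_right (e2.trans e4) (norm_nonneg x)
        have h6 : h * ‖x‖ ≤ τ / 2 := by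
          have : h * ‖x‖ ≤ h * B := mul_le_mul_of_nonneg_left hxle hh0.le
          have e : h * B = τ / 2 := by rw [hh]; field_simp
          linarith
        have h7 : ε * (‖x‖ * |Real.log (1 + ‖x'‖) - Real.log (1 + ‖x‖)|) ≤ ε * Q :=
          mul_le_mul_of_nonneg_left hlog hε.le
        nlinarith
  -- descend
  have hall : ∀ n : ℕ, ∀ s : ℝ, 1 + δ ≤ s → κ1 - n * h ≤ s → ∀ x ∈ Ω,
      (kap ε s x)⁻¹ • x ∈ Ω → v ((kap ε s x)⁻¹ • x) ≤ u x := by
    intro n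
    induction n with
    | zero =>
      intro s _ hs
      exact hbase s (by simpa using hs)
    | succ n ih =>
      intro s hsδ hs
      refine hstep (s + h) s hsδ rfl (ih (s + h) (by linarith) ?_)
      push_cast at hs
      linarith
  intro s hs
  obtain ⟨n, hn⟩ := exists_nat_ge (κ1 / h)
  refine hall n s hs ?_
  rw [div_le_iff₀ hh0] at hn
  linarith

theorem le_of_sol (hd : 1 ≤ d) {L cf : ℝ} {f : ℝ → ℝ} (hf : Rf L cf f) {ρ0 : ℝ}
    {Ω : Set (Eu d)} (hT : TB ρ0 Ω) (hne : Ωᶜ.Nonempty)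
    (hstar : ∀ κ : ℝ, 1 ≤ κ → ∀ y ∈ Ω, κ • y ∈ Ω) {u v : Eu d → ℝ} (hu : Sol f Ω u)
    (hv : Sol f Ω v) : ∀ x ∈ Ω, v x ≤ u x := by
  have hΩ := hT.op
  -- general limiting argument
  have lim : ∀ (w : ℝ → ℝ) (w0 : ℝ), w0 ≠ 0 → Tendsto w (𝓝[>] 0) (𝓝 w0) → ∀ x ∈ Ω,
      w0⁻¹ • x ∈ Ω → (∀ᶠ ε in 𝓝[>] (0:ℝ), (w ε)⁻¹ • x ∈ Ω → v ((w ε)⁻¹ • x) ≤ u x) →
      v (w0⁻¹ • x) ≤ u x := by
    intro w w0 hw0 hw x hx hx0 hev
    have h1 : Tendsto (fun ε => (w ε)⁻¹ • x) (𝓝[>] 0) (𝓝 (w0⁻¹ • x)) :=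
      (hw.inv₀ hw0).smul_const x
    have h2 : ContinuousAt v (w0⁻¹ • x) := (hv.cda hΩ hx0).continuousAt
    have h3 : Tendsto (fun ε => v ((w ε)⁻¹ • x)) (𝓝[>] 0) (𝓝 (v (w0⁻¹ • x))) :=
      h2.tendsto.comp h1
    refine le_of_tendsto h3 ?_
    filter_upwards [hev, h1.eventually (hΩ.mem_nhds hx0)] with ε h4 h5
    exact h4 h5
  -- first limit
  have hs : ∀ δ : ℝ, 0 < δ → ∀ x ∈ Ω, (1 + δ)⁻¹ • x ∈ Ω → v ((1 + δ)⁻¹ • x) ≤ u x := by
    intro δ hδ x hx hxm
    obtain ⟨ε0, hε0, hcmp⟩ := compare_dil hd hf hT hne hstar hu hv hδ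
    refine lim (fun ε => kap ε (1 + δ) x) (1 + δ) (by linarith) ?_ x hx hxm ?_
    · have : Continuous (fun ε : ℝ => kap ε (1 + δ) x) := by
        unfold kap; fun_prop
      have h1 := this.tendsto 0
      have h2 : kap 0 (1 + δ) x = 1 + δ := by unfold kap; ring
      rw [h2] at h1
      exact h1.mono_left nhdsWithin_le_nhds
    · have h1 : ∀ᶠ ε in 𝓝[>] (0:ℝ), ε ∈ Ioc 0 ε0 := Ioc_mem_nhdsGT hε0
      filter_upwards [h1] with ε hε hm
      exact hcmp ε hε.1 hε.2 (1 + δ) le_rfl x hx hm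
  -- second limit
  intro x hx
  have := lim (fun δ => 1 + δ) 1 one_ne_zero ?_ x hx (by simpa using hx) ?_
  · simpa using this
  · have h0 : Continuous (fun δ : ℝ => 1 + δ) := by fun_prop
    have h1 := h0.tendsto 0
    simp only [add_zero] at h1
    exact h1.mono_left nhdsWithin_le_nhds
  · filter_upwards [self_mem_nhdsWithin] with δ hδ hm
    exact hs δ hδ x hx hm

/-- uniqueness when the complement is star-shaped about the origin -/
theorem unique_origin (hd : 1 ≤ d) {L cf : ℝ} {f : ℝ → ℝ} (hf : Rf L cf f) {ρ0 : ℝ}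
    {Ω : Set (Eu d)} (hT : TB ρ0 Ω) (hne : Ωᶜ.Nonempty)
    (hstar : ∀ κ : ℝ, 1 ≤ κ → ∀ y ∈ Ω, κ • y ∈ Ω) {u v : Eu d → ℝ} (hu : Sol f Ω u)
    (hv : Sol f Ω v) : ∀ x ∈ Ω, u x = v x := fun x hx =>
  le_antisymm (le_of_sol hd hf hT hne hstar hv hu x hx) (le_of_sol hd hf hT hne hstar hu hv x hx)

/-- uniqueness in the whole space -/
theorem unique_univ {L cf : ℝ} {f : ℝ → ℝ} (hf : Rf L cf f) {u : Eu d → ℝ}
    (hu : Sol f univ u) : ∀ x, u x = 1 := by
  intro x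
  have h1 : ∀ n : ℕ, 1 - u x ≤ (1 / 2) ^ (n + 1) := fun n =>
    exp_low hf isOpen_univ hu n (subset_univ _)
  have h2 : Tendsto (fun n : ℕ => ((1:ℝ) / 2) ^ (n + 1)) atTop (𝓝 0) :=
    (tendsto_pow_atTop_nhds_zero_of_lt_one (by norm_num) (by norm_num)).comp
      (tendsto_add_atTop_nat 1)
  have h3 : 1 - u x ≤ 0 := ge_of_tendsto' h2 h1
  have h4 := hu.le x (mem_univ x)
  linarith

end Pool.Agent.K1H28.ES
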