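import Pool.Agent.K1H28.ES.Sol

set_option autoImplicit false
open MeasureTheory Filter Topology Set Metric

namespace Pool.Agent.K1H28.ES
open Pool.Agent.H314.Dir

variable {d : ℕ}

theorem Sol.nonneg_closure {f : ℝ → ℝ} {Ω : Set (Eu d)} (hΩ : IsOpen Ω) {u : Eu d → ℝ}
    (h : Sol f Ω u) {x : Eu d} (hx : x ∈ closure Ω) : 0 ≤ u x := by
  by_cases hxΩ : x ∈ Ω
  · exact (h.pos x hxΩ).le
  · have : x ∈ frontier Ω := by
      rw [frontier, hΩ.interior_eq]; exact ⟨hx, hxΩ⟩
    rw [h.bd x this]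

/-- the bump used for the first lower bound -/
noncomputable def bmp (R : ℝ) (x0 x : Eu d) : ℝ := (max 0 (1 - R⁻¹ ^ 2 * ‖x - x0‖ ^ 2)) ^ 3

theorem contDiff_bmp (R : ℝ) (x0 : Eu d) : ContDiff ℝ 2 (bmp R x0) := by
  have h1 : ContDiff ℝ 2 (fun x : Eu d => 1 - R⁻¹ ^ 2 * ‖x - x0‖ ^ 2) :=
    contDiff_const.sub (contDiff_const.mul (contDiff_norm_sub_sq x0))
  exact (contDiff_maxpow 2).comp h1

theorem lap_bmp (R : ℝ) (x0 x : Eu d) :
    lap (bmp R x0) x = 4 * ‖x - x0‖ ^ 2 * (6 * (max 0 (1 - R⁻¹ ^ 2 * ‖x - x0‖ ^ 2)) * R⁻¹ ^ 4) +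
      2 * d * (-(3 * (max 0 (1 - R⁻¹ ^ 2 * ‖x - x0‖ ^ 2)) ^ 2 * R⁻¹ ^ 2)) := by
  have hin : ∀ w : ℝ, HasDerivAt (fun w : ℝ => 1 - R⁻¹ ^ 2 * w) (-(R⁻¹ ^ 2)) w := by
    intro w
    have := ((hasDerivAt_id w).const_mul (R⁻¹ ^ 2)).const_sub 1
    simpa using this
  have h1 : ∀ w : ℝ, HasDerivAt (fun w : ℝ => (max 0 (1 - R⁻¹ ^ 2 * w)) ^ 3)
      (-(3 * (max 0 (1 - R⁻¹ ^ 2 * w)) ^ 2 * R⁻¹ ^ 2)) w := by
    intro w
    have := (hasDerivAt_maxpow 1 (1 - R⁻¹ ^ 2 * w)).comp w (hin w)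
    refine HasDerivAt.congr_deriv this ?_
    norm_num
  have h2 : ∀ w : ℝ, HasDerivAt (fun w : ℝ => -(3 * (max 0 (1 - R⁻¹ ^ 2 * w)) ^ 2 * R⁻¹ ^ 2))
      (6 * (max 0 (1 - R⁻¹ ^ 2 * w)) * R⁻¹ ^ 4) w := by
    intro w
    have h3 := (hasDerivAt_maxpow 0 (1 - R⁻¹ ^ 2 * w)).comp w (hin w)
    have h4 := ((h3.const_mul 3).mul_const (R⁻¹ ^ 2)).fun_neg
    refine HasDerivAt.congr_deriv (f := _) h4 ?_
    norm_num
    ring
  have h3 := lap_radial (d := d) (g := fun w => (max 0 (1 - R⁻¹ ^ 2 * w)) ^ 3)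
    (g' := fun w => -(3 * (max 0 (1 - R⁻¹ ^ 2 * w)) ^ 2 * R⁻¹ ^ 2))
    (g'' := fun w => 6 * (max 0 (1 - R⁻¹ ^ 2 * w)) * R⁻¹ ^ 4) x0 x
    (Eventually.of_forall fun w => h1 w) (h2 _) (contDiff_bmp R x0).contDiffAt
  exact h3

/-- first radius -/
noncomputable def R1 (d : ℕ) (cf : ℝ) : ℝ := 1 + 3 * ((d:ℝ) + 4) ^ 2 / (4 * cf)

theorem one_le_R1 (d : ℕ) {cf : ℝ} (h : 0 < cf) : 1 ≤ R1 d cf := by
  unfold R1
  have : 0 ≤ 3 * ((d:ℝ) + 4) ^ 2 / (4 * cf) := by positivity
  linarith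

theorem R1_sq (d : ℕ) {cf : ℝ} (h : 0 < cf) : 3 * ((d:ℝ) + 4) ^ 2 / 8 ≤ cf / 2 * R1 d cf ^ 2 := by
  have h1 := one_le_R1 d h
  have h2 : R1 d cf ≤ R1 d cf ^ 2 := by nlinarith
  have h3 : 3 * ((d:ℝ) + 4) ^ 2 / 8 ≤ cf / 2 * R1 d cf := by
    unfold R1
    have e : cf / 2 * (1 + 3 * ((d:ℝ) + 4) ^ 2 / (4 * cf)) = cf / 2 + 3 * ((d:ℝ) + 4) ^ 2 / 8 := by
      field_simp
      ring
    rw [e]
    linarith
  have h4 := mul_le_mul_of_nonneg_left h2 (by positivity : 0 ≤ cf / 2)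
  linarith

theorem half_low {L cf : ℝ} {f : ℝ → ℝ} (hf : Rf L cf f) {Ω : Set (Eu d)} (hΩ : IsOpen Ω)
    {u : Eu d → ℝ} (hu : Sol f Ω u) {x0 : Eu d} (hb : closedBall x0 (R1 d cf) ⊆ Ω) :
    1 / 2 ≤ u x0 := by
  have hR1 := one_le_R1 d hf.cf0
  have hRs := R1_sq d hf.cf0
  set R := R1 d cf with hR
  have hR0 : 0 < R := by linarith
  have hx0 : x0 ∈ closedBall x0 R := mem_closedBall_self hR0.le
  have hcomp : IsCompact (closedBall x0 R) := isCompact_closedBall _ _
  have hcont : ContinuousOn (fun x => bmp R x0 x / u x) (closedBall x0 R) := by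
    refine (contDiff_bmp R x0).continuous.continuousOn.div (hu.cd.continuousOn.mono hb) ?_
    intro x hx
    exact (hu.pos x (hb hx)).ne'
  obtain ⟨x1, hx1, hmax⟩ := hcomp.exists_isMaxOn ⟨x0, hx0⟩ hcont
  set M : ℝ := bmp R x0 x1 / u x1 with hM
  have hu0 := hu.pos x0 (hb hx0)
  have hu1 := hu.pos x1 (hb hx1)
  have hb0 : bmp R x0 x0 = 1 := by simp [bmp]
  have hM0 : 1 / u x0 ≤ M := by
    have := hmax hx0
    simp only [mem_setOf_eq, hb0] at this
    exact this
  have hMpos : 0 < M := lt_of_lt_of_le (by positivity) hM0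
  have hφ1 : bmp R x0 x1 = M * u x1 := by rw [hM]; field_simp
  have hφpos : 0 < bmp R x0 x1 := by rw [hφ1]; positivity
  set a : ℝ := max 0 (1 - R⁻¹ ^ 2 * ‖x1 - x0‖ ^ 2) with ha
  have hba : bmp R x0 x1 = a ^ 3 := rfl
  have ha0 : 0 < a := by
    rcases (le_max_left 0 (1 - R⁻¹ ^ 2 * ‖x1 - x0‖ ^ 2)).eq_or_lt with h | h
    · rw [hba, ha, ← h] at hφpos
      norm_num at hφpos
    · exact h
  have hae : a = 1 - R⁻¹ ^ 2 * ‖x1 - x0‖ ^ 2 := by
    rcases max_choice 0 (1 - R⁻¹ ^ 2 * ‖x1 - x0‖ ^ 2) with h | h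
    · rw [ha, h] at ha0; exact absurd ha0 (lt_irrefl _)
    · rw [ha, h]
  have ha1 : a ≤ 1 := by
    rw [hae]
    have : 0 ≤ R⁻¹ ^ 2 * ‖x1 - x0‖ ^ 2 := by positivity
    linarith
  have hx1b : x1 ∈ ball x0 R := by
    rw [mem_ball, dist_eq_norm]
    by_contra h
    rw [not_lt] at h
    have h2 : R ^ 2 ≤ ‖x1 - x0‖ ^ 2 := pow_le_pow_left₀ hR0.le h 2
    have h3 : 1 ≤ R⁻¹ ^ 2 * ‖x1 - x0‖ ^ 2 := by
      rw [inv_pow, ← div_eq_inv_mul, le_div_iff₀ (by positivity)]
      linarith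
    linarith
  have hcu := hu.cda hΩ (hb hx1)
  have hcMu : ContDiffAt ℝ 2 (fun x => M * u x) x1 := contDiffAt_const.mul hcu
  have hloc : IsLocalMax (fun x => bmp R x0 x - M * u x) x1 := by
    filter_upwards [isOpen_ball.mem_nhds hx1b] with y hy
    have hyc := ball_subset_closedBall hy
    have h1 := hmax hyc
    simp only [mem_setOf_eq] at h1
    have huy := hu.pos y (hb hyc)
    rw [div_le_iff₀ huy] at h1
    have e1 : bmp R x0 x1 - M * u x1 = 0 := by rw [hφ1]; ring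
    rw [e1]
    linarith
  have h1 := lap_nonpos_of_isLocalMax ((contDiff_bmp R x0).contDiffAt.sub hcMu) hloc
  rw [lap_sub (contDiff_bmp R x0).contDiffAt hcMu, lap_const_mul M hcu, lap_bmp, ← ha] at h1
  have h2 := hu.eq x1 (hb hx1)
  have h3 : lap u x1 = - f (u x1) := by linarith
  rw [h3] at h1
  -- bound on the Laplacian of the bump
  have hw : ‖x1 - x0‖ ^ 2 = (1 - a) * R ^ 2 := by
    rw [hae, inv_pow]
    field_simp
    ring
  have hlow : -(cf / 2 * a ^ 3) ≤ 4 * ‖x1 - x0‖ ^ 2 * (6 * a * R⁻¹ ^ 4) +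
      2 * d * (-(3 * a ^ 2 * R⁻¹ ^ 2)) := by
    rw [hw]
    have e : 4 * ((1 - a) * R ^ 2) * (6 * a * R⁻¹ ^ 4) + 2 * d * (-(3 * a ^ 2 * R⁻¹ ^ 2)) =
        (a / R ^ 2) * (24 * (1 - a) - 6 * d * a) := by
      field_simp
      ring
    have e2 : -(cf / 2 * a ^ 3) = (a / R ^ 2) * (-(cf / 2 * R ^ 2 * a ^ 2)) := by
      field_simp
    rw [e, e2]
    refine mul_le_mul_of_nonneg_left ?_ (by positivity)
    have h5 := mul_le_mul_of_nonneg_right hRs (by positivity : 0 ≤ a ^ 2)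
    nlinarith [sq_nonneg (((d:ℝ) + 4) * a / 8 - 1)]
  have hfu : f (u x1) ≤ cf / 2 * u x1 := by
    have h4 : M * f (u x1) ≤ M * (cf / 2 * u x1) := by
      have e : M * (cf / 2 * u x1) = cf / 2 * a ^ 3 := by
        rw [← hba, hφ1]; ring
      rw [e]
      linarith
    exact le_of_mul_le_mul_left h4 hMpos
  have hhalf : 1 / 2 < u x1 := by
    by_contra h
    rw [not_lt] at h
    have h5 := hf.low _ (hu.mem (hb hx1))
    rw [min_eq_left (by linarith)] at h5
    have := hf.cf0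
    nlinarith
  have hM2 : M ≤ 2 := by
    rw [hM, hba, div_le_iff₀ hu1]
    have : a ^ 3 ≤ 1 := pow_le_one₀ ha0.le ha1
    linarith
  have h6 : 1 / u x0 ≤ 2 := hM0.trans hM2
  rw [div_le_iff₀ hu0] at h6
  linarith

/-- second radius -/
noncomputable def R2 (d : ℕ) (cf : ℝ) : ℝ := 1 + 4 * (d:ℝ) / cf

theorem one_le_R2 (d : ℕ) {cf : ℝ} (h : 0 < cf) : 1 ≤ R2 d cf := by
  unfold R2
  have : 0 ≤ 4 * (d:ℝ) / cf := by positivity
  linarith

theorem exp_low {L cf : ℝ} {f : ℝ → ℝ} (hf : Rf L cf f) {Ω : Set (Eu d)} (hΩ : IsOpen Ω)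
    {u : Eu d → ℝ} (hu : Sol f Ω u) (n : ℕ) : ∀ {x : Eu d},
    closedBall x (R1 d cf + n * R2 d cf) ⊆ Ω → 1 - u x ≤ (1 / 2) ^ (n + 1) := by
  induction n with
  | zero =>
    intro x hx
    have := half_low hf hΩ hu (x0 := x) (by simpa using hx)
    norm_num; linarith
  | succ n ih =>
    intro x hx
    have hR1 := one_le_R1 d hf.cf0
    have hR2 := one_le_R2 d hf.cf0
    have hcf := hf.cf0
    set R := R2 d cf with hR
    have hR0 : 0 < R := by linarith
    set M : ℝ := (1 / 2) ^ (n + 1) with hM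
    have hM0 : 0 < M := by positivity
    have hM1 : M ≤ 1 / 2 := by
      have : (1 / 2 : ℝ) ^ n ≤ 1 := pow_le_one₀ (by norm_num) (by norm_num)
      rw [hM, pow_succ]; linarith
    have hn0 : (0:ℝ) ≤ n * R := by positivity
    push_cast at hx
    have hxy : ∀ y ∈ closedBall x R, 1 - u y ≤ M := by
      intro y hy
      refine ih (x := y) (Subset.trans (closedBall_subset_closedBall' ?_) hx)
      rw [mem_closedBall] at hy
      linarith
    have hsub : closedBall x R ⊆ Ω := by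
      refine Subset.trans (closedBall_subset_closedBall ?_) hx
      linarith
    have hR4 : 4 * d / cf ≤ R ^ 2 := by
      have h1 : 4 * d / cf ≤ R := by rw [hR, R2]; linarith
      nlinarith
    set B : Eu d → ℝ := fun y => (M / R ^ 2) * ‖y - x‖ ^ 2 + M / 2 with hB
    have hB1 : ContDiff ℝ 2 (fun y : Eu d => (M / R ^ 2) * ‖y - x‖ ^ 2) :=
      contDiff_const.mul (contDiff_norm_sub_sq x)
    have hBc : ContDiff ℝ 2 B := hB1.add contDiff_const
    have hlapB : ∀ y, lap B y = (M / R ^ 2) * (2 * d) := by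
      intro y
      have e1 : lap B y = lap (fun y : Eu d => (M / R ^ 2) * ‖y - x‖ ^ 2) y +
          lap (fun _ : Eu d => M / 2) y := lap_add hB1.contDiffAt contDiffAt_const
      rw [e1, lap_const, lap_const_mul _ (contDiff_norm_sub_sq x).contDiffAt, lap_norm_sub_sq]
      ring
    have hmain := bmax (U := ball x R) (w := fun y => (1 - u y) - B y) isOpen_ball
      isBounded_ball ?_ ?_ ?_
    · have h1 := hmain x (subset_closure (mem_ball_self hR0))
      have h2 : B x = M / 2 := by simp [hB]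
      rw [h2] at h1
      have h3 : ((1:ℝ) / 2) ^ (n + 1 + 1) = M / 2 := by rw [hM]; ring
      rw [h3]
      linarith
    · rw [closure_ball x hR0.ne']
      exact (continuousOn_const.sub (hu.cd.continuousOn.mono hsub)).sub
        hBc.continuous.continuousOn
    · intro y hy
      rw [frontier_ball x hR0.ne'] at hy
      have h1 := hxy y (sphere_subset_closedBall hy)
      have h2 : ‖y - x‖ = R := by rw [← dist_eq_norm]; exact hy
      have h3 : B y = M + M / 2 := by
        simp only [hB]; rw [h2]; field_simp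
      rw [h3]
      linarith
    · intro y hy hpos
      have hyc := ball_subset_closedBall hy
      have hyΩ := hsub hyc
      have hcu := hu.cda hΩ hyΩ
      have hc1 : ContDiffAt ℝ 2 (fun y => 1 - u y) y := contDiffAt_const.sub hcu
      refine ⟨hc1.sub hBc.contDiffAt, ?_⟩
      rw [lap_sub hc1 hBc.contDiffAt, lap_sub contDiffAt_const hcu, lap_const, hlapB, zero_sub,
        hu.eq y hyΩ]
      have h1 : M / 2 ≤ B y := by
        simp only [hB]
        have : 0 ≤ M / R ^ 2 * ‖y - x‖ ^ 2 := by positivity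
        linarith
      have h2 := hxy y hyc
      have h3 := hf.low _ (hu.mem hyΩ)
      rw [min_eq_right (by linarith)] at h3
      have h4 : cf * (M / 2) < cf * (1 - u y) := mul_lt_mul_of_pos_left (by linarith) hcf
      have h5 : M / R ^ 2 * (2 * d) ≤ cf * (M / 2) := by
        rw [div_mul_eq_mul_div, div_le_iff₀ (by positivity)]
        rw [div_le_iff₀ hcf] at hR4
        nlinarith
      linarith

/-- lower bound near the boundary of a large ball -/
theorem edge_low (hd : 1 ≤ d) {L cf : ℝ} {f : ℝ → ℝ} (hf : Rf L cf f) :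
    ∃ c3 : ℝ, 0 < c3 ∧ ∀ (Ω : Set (Eu d)), IsOpen Ω → ∀ u : Eu d → ℝ, Sol f Ω u →
      ∀ (c : Eu d) (R : ℝ), R1 d cf + 2 ≤ R → ball c R ⊆ Ω → ∀ x ∈ ball c R,
        c3 * min (R - ‖x - c‖) 1 ≤ u x := by
  have hR1 := one_le_R1 d hf.cf0
  have hCH := one_lt_CH d hf.L0
  obtain ⟨N, hN⟩ := exists_nat_ge (10 * R1 d cf)
  set m0 : ℝ := 1 / 2 / CH d L ^ N with hm0
  have hm00 : 0 < m0 := by positivity
  obtain ⟨c, hc0, hc⟩ := hopf (d := d) hd (Λ := 0) (δ := 1) (ρ := 1) le_rfl one_pos one_pos le_rfl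
  refine ⟨min (c * m0) m0, lt_min (by positivity) hm00, ?_⟩
  intro Ω hΩ u hu cc R hR hb x hx
  have hdeep : ∀ y : Eu d, ‖y - cc‖ ≤ R - 1 / 2 → m0 ≤ u y := by
    intro y hy
    rw [hm0, div_le_iff₀ (by positivity), mul_comm]
    have hyΩ : y ∈ Ω := hb (by rw [mem_ball, dist_eq_norm]; linarith)
    have huy := hu.pos y hyΩ
    have hCN : 1 ≤ CH d L ^ N := one_le_pow₀ hCH.le
    rcases le_or_gt ‖y - cc‖ (R - R1 d cf - 1 / 2) with h | h
    · have h1 := half_low hf hΩ hu (x0 := y) (Subset.trans ?_ hb)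
      · nlinarith
      · intro w hw
        rw [mem_closedBall] at hw
        rw [mem_ball]
        have := dist_triangle w y cc
        rw [← dist_eq_norm] at h
        linarith
    · have hypos : 0 < ‖y - cc‖ := by linarith
      set lam : ℝ := (R - R1 d cf - 1 / 2) / ‖y - cc‖ with hlam
      have hlam0 : 0 < lam := div_pos (by linarith) hypos
      have hlam1 : lam ≤ 1 := by rw [hlam, div_le_one hypos]; exact h.le
      set x' : Eu d := cc + lam • (y - cc) with hx'
      have h1 : ‖x' - cc‖ = R - R1 d cf - 1 / 2 := by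
        rw [hx', add_sub_cancel_left, norm_smul, Real.norm_eq_abs, abs_of_pos hlam0, hlam]
        field_simp
      have h2 : 1 / 2 ≤ u x' := by
        refine half_low hf hΩ hu (x0 := x') (Subset.trans ?_ hb)
        intro w hw
        rw [mem_closedBall] at hw
        rw [mem_ball]
        have := dist_triangle w x' cc
        rw [← dist_eq_norm] at h1
        linarith
      have h3 : ‖x' - y‖ ≤ R1 d cf := by
        have e : x' - y = (-(1 - lam)) • (y - cc) := by rw [hx']; module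
        rw [e, norm_smul, norm_neg, Real.norm_eq_abs, abs_of_nonneg (by linarith)]
        have e2 : (1 - lam) * ‖y - cc‖ = ‖y - cc‖ - (R - R1 d cf - 1 / 2) := by
          rw [hlam]; field_simp
        rw [e2]
        linarith
      have h4 := chain hf.L0 hΩ (hu.nic hf) (r := 1 / 10) (by norm_num) (by norm_num) N (x := x')
        (x' := y) (by linarith) (fun w hw => ?_)
      · linarith
      · have h6 : w ∈ closedBall cc (R - 1 / 2) := by
          refine (convex_closedBall cc (R - 1 / 2)).segment_subset ?_ ?_ hw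
          · rw [mem_closedBall, dist_eq_norm, h1]; linarith
          · rw [mem_closedBall, dist_eq_norm]; exact hy
        refine Subset.trans ?_ hb
        intro q hq
        rw [mem_closedBall] at hq h6
        rw [mem_ball]
        have := dist_triangle q w cc
        linarith
  rw [mem_ball, dist_eq_norm] at hx
  set t : ℝ := R - ‖x - cc‖ with ht
  have ht0 : 0 < t := by linarith
  rcases le_or_gt 1 t with h | h
  · rw [min_eq_right h, mul_one]
    exact (min_le_right _ _).trans (hdeep x (by linarith))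
  · rw [min_eq_left h.le]
    have hxc : 0 < ‖x - cc‖ := by linarith
    set e : Eu d := (‖x - cc‖)⁻¹ • (x - cc) with he
    have he1 : ‖e‖ = 1 := by
      rw [he, norm_smul, norm_inv, norm_norm, inv_mul_cancel₀ hxc.ne']
    have hxe : x = cc + (R - t) • e := by
      have e1 : R - t = ‖x - cc‖ := by rw [ht]; ring
      rw [e1, he, smul_smul, mul_inv_cancel₀ hxc.ne', one_smul]; abel
    set p : Eu d := cc + R • e with hp
    set ν : Eu d := -e with hν
    set z : Eu d := p + (1:ℝ) • ν with hz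
    have hν1 : ‖ν‖ = 1 := by rw [hν, norm_neg, he1]
    have hxp : x = p + t • ν := by
      rw [hxe, hp, hν]; module
    have hzc : ‖z - cc‖ = R - 1 := by
      have : z - cc = (R - 1) • e := by rw [hz, hp, hν]; module
      rw [this, norm_smul, he1, mul_one, Real.norm_eq_abs, abs_of_pos (by linarith)]
    have hzb : ball z 1 ⊆ ball cc R := by
      refine ball_subset_ball' ?_
      rw [dist_eq_norm, hzc]; linarith
    have hzcb : closedBall z 1 ⊆ closure Ω := by
      refine Subset.trans ?_ (closure_mono hb)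
      rw [closure_ball cc (by linarith)]
      refine closedBall_subset_closedBall' ?_
      rw [dist_eq_norm, hzc]; linarith
    have key := hc p ν z 0 m0 0 u hν1 hz le_rfl hm00 le_rfl (hu.cont.mono hzcb)
      (fun y hy => by
        have := hu.nonneg_closure hΩ (hzcb (sphere_subset_closedBall hy))
        simpa using this)
      (fun y hy => by
        have := hu.pos y (hb (hzb hy))
        simpa using this.le)
      (fun y hy => hu.cda hΩ (hb (hzb hy)))
      (fun y hy => by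
        have h1 := hu.eq y (hb (hzb hy))
        have h2 := hf.nonneg (hu.mem (hb (hzb hy)))
        rw [zero_mul]; linarith)
      (fun y hy hy2 hy3 => by
        exfalso
        have h1 := hdeep y (by
          have e2 : y - cc = (y - z) + (z - cc) := by abel
          rw [e2]
          have := norm_add_le (y - z) (z - cc)
          rw [hzc] at this
          linarith)
        linarith) t ht0.le h.le
    rw [← hxp] at key
    have h1 : min (c * m0) m0 ≤ c * m0 := min_le_left _ _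
    have h2 := mul_le_mul_of_nonneg_right h1 ht0.le
    have h3 : t * (c * m0 - (0 + 3 * 0) * 0) = c * m0 * t := by ring
    rw [h3] at key
    linarith

/-- initialisation of the comparison by large dilations -/
theorem init (hd : 1 ≤ d) {L cf : ℝ} {f : ℝ → ℝ} (hf : Rf L cf f) {ρ0 : ℝ} {Ω : Set (Eu d)}
    (hT : TB ρ0 Ω) (hne : Ωᶜ.Nonempty) (hstar : ∀ κ : ℝ, 1 ≤ κ → ∀ y ∈ Ω, κ • y ∈ Ω) :
    ∃ κ0 : ℝ, 1 < κ0 ∧ ∀ u v : Eu d → ℝ, Sol f Ω u → Sol f Ω v → ∀ κ : ℝ, κ0 ≤ κ →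
      ∀ y ∈ Ω, v y ≤ u (κ • y) := by
  obtain ⟨Cb, hCb, hlin⟩ := linear_bound hf hT hne (d := d)
  obtain ⟨r, hr, hr1, hone⟩ := one_sub_low hf hT hne (d := d)
  obtain ⟨c3, hc3, hedge⟩ := edge_low hd hf (d := d)
  have hR1 := one_le_R1 d hf.cf0
  have hR2 := one_le_R2 d hf.cf0
  have hCH := one_lt_CH d hf.L0
  obtain ⟨b, hb⟩ : ∃ b : ℕ, CH d L ≤ 2 ^ b := by
    obtain ⟨b, hb⟩ := pow_unbounded_of_one_lt (CH d L) (one_lt_two)
    exact ⟨b, hb.le⟩
  have hρ0 := hT.pos
  set t1 : ℝ := min (c3 / Cb) ρ0 with ht1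
  have ht10 : 0 < t1 := lt_min (by positivity) hρ0
  set k1 : ℝ := b * R2 d cf * (1 / r + 1 / t1) + R1 d cf / t1 with hk1
  have hk10 : 0 ≤ k1 := by positivity
  set κ0 : ℝ := 2 + Cb / c3 + (R1 d cf + 2) / ρ0 + k1 with hκ0
  have hp1 : 0 ≤ Cb / c3 := by positivity
  have hp2 : 0 ≤ (R1 d cf + 2) / ρ0 := by positivity
  refine ⟨κ0, by linarith, ?_⟩
  intro u v hu hv κ hκ y hy
  have hκ1 : 1 ≤ κ := by linarith
  have hκpos : 0 < κ := by linarith
  -- dilations of balls
  have hdil : ∀ (c : Eu d) (s : ℝ), ball c s ⊆ Ω → ball (κ • c) (κ * s) ⊆ Ω := by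
    intro c s hs w hw
    have h1 : κ⁻¹ • w ∈ ball c s := by
      rw [mem_ball, dist_eq_norm] at hw ⊢
      have e : κ⁻¹ • w - c = κ⁻¹ • (w - κ • c) := by
        rw [smul_sub, smul_smul, inv_mul_cancel₀ hκpos.ne', one_smul]
      rw [e, norm_smul, Real.norm_eq_abs, abs_of_pos (by positivity), inv_mul_lt_iff₀ hκpos]
      exact hw
    have h2 := hstar κ hκ1 _ (hs h1)
    rwa [smul_smul, mul_inv_cancel₀ hκpos.ne', one_smul] at h2
  have ht0 := dd_pos hT.op hne hy
  obtain ⟨p, hp, hyp⟩ := exists_nearest hT.op hne hy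
  obtain ⟨ν, hN⟩ := hT.normal p hp
  have he := eq_add_normal hT.pos ht0 hN hyp (ball_dd_subset Ω y)
  have hvlin := hlin v hv y hy
  set t := dd Ω y with ht
  rcases le_or_gt t t1 with h | h
  · have htc : t ≤ c3 / Cb := h.trans (min_le_left _ _)
    have htρ : t ≤ ρ0 := h.trans (min_le_right _ _)
    have h1 := hdil _ _ hN.inn
    have hnorm : ‖κ • y - κ • (p + ρ0 • ν)‖ = κ * ρ0 - κ * t := by
      rw [← smul_sub, norm_smul, Real.norm_eq_abs, abs_of_pos hκpos]
      have : ‖y - (p + ρ0 • ν)‖ = ρ0 - t := by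
        conv_lhs => rw [he]
        rw [norm_sub_smul_normal hN.unit, abs_of_nonpos (by linarith)]; ring
      rw [this]; ring
    have hRbig : R1 d cf + 2 ≤ κ * ρ0 := by
      have h2 : (R1 d cf + 2) / ρ0 ≤ κ := by linarith
      rwa [div_le_iff₀ hρ0] at h2
    have hκt : 0 < κ * t := by positivity
    have h2 := hedge Ω hT.op u hu _ _ hRbig h1 (κ • y)
      (by rw [mem_ball, dist_eq_norm, hnorm]; linarith)
    rw [hnorm] at h2
    have h3 : Cb * t ≤ c3 * min (κ * ρ0 - (κ * ρ0 - κ * t)) 1 := by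
      have e : κ * ρ0 - (κ * ρ0 - κ * t) = κ * t := by ring
      rw [e, mul_min_of_nonneg _ _ hc3.le]
      refine le_min ?_ ?_
      · have h4 : Cb / c3 ≤ κ := by linarith
        rw [div_le_iff₀ hc3] at h4
        nlinarith
      · rw [le_div_iff₀ hCb] at htc
        linarith
    linarith
  · obtain ⟨N, hN1, hN2⟩ : ∃ N : ℕ, t / r ≤ N ∧ (N : ℝ) < t / r + 1 :=
      ⟨⌈t / r⌉₊, Nat.le_ceil _, Nat.ceil_lt_add_one (by positivity)⟩
    have h1 := hone v hv y hy N (by rw [← div_le_iff₀ hr]; exact hN1)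
    have hvle := hv.le y hy
    have h2 : (1 / 2 : ℝ) ^ (b * N + 1) ≤ 1 - v y := by
      have h3 : CH d L ^ N ≤ 2 ^ (b * N) := by
        rw [pow_mul]
        exact pow_le_pow_left₀ (by linarith) hb N
      have h4 : 1 / 2 ≤ 2 ^ (b * N) * (1 - v y) :=
        h1.trans (mul_le_mul_of_nonneg_right h3 (by linarith))
      have h5 : (1 / 2 : ℝ) ^ (b * N + 1) = (1 / 2) / 2 ^ (b * N) := by
        rw [pow_succ, one_div_pow]; ring
      rw [h5, div_le_iff₀ (by positivity)]
      linarith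
    have h3 := exp_low hf hT.op hu (b * N) (x := κ • y) ?_
    · linarith
    · have h4 := hdil y t (ball_dd_subset Ω y)
      refine Subset.trans (closedBall_subset_ball ?_) h4
      push_cast
      have h5 : (N : ℝ) ≤ t * (1 / r + 1 / t1) := by
        have : 1 ≤ t / t1 := by rw [le_div_iff₀ ht10]; linarith
        have e : t * (1 / r + 1 / t1) = t / r + t / t1 := by ring
        rw [e]; linarith
      have h6 : R1 d cf ≤ t * (R1 d cf / t1) := by
        have : 1 ≤ t / t1 := by rw [le_div_iff₀ ht10]; linarith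
        have e : t * (R1 d cf / t1) = (t / t1) * R1 d cf := by ring
        rw [e]; nlinarith
      have h7 : b * N * R2 d cf ≤ b * R2 d cf * (t * (1 / r + 1 / t1)) := by
        have := mul_le_mul_of_nonneg_left h5 (by positivity : (0:ℝ) ≤ b * R2 d cf)
        linarith
      have h8 : b * R2 d cf * (t * (1 / r + 1 / t1)) + t * (R1 d cf / t1) = k1 * t := by
        rw [hk1]; ring
      have h9 : k1 * t < κ * t := by
        refine mul_lt_mul_of_pos_right ?_ ht0
        linarith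
      linarith

end Pool.Agent.K1H28.ES
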