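import Pool.Agent.H314.Dir.Dirichlet

set_option autoImplicit false
open MeasureTheory Filter Topology Set Metric

namespace Pool.Agent.K1H28.ES
open Pool.Agent.H314.Dir

variable {d : ℕ}

/-- averages are continuous in the radius -/
theorem continuous_J_radius {g : Eu d → ℝ} {C : ℝ} (hg : Continuous g) (hb : ∀ x, |g x| ≤ C)
    (x : Eu d) : Continuous (fun s => J rho g s x) := by
  unfold J
  refine MeasureTheory.continuous_of_dominated (bound := fun y => C * ‖(rho y : ℝ)‖) ?_ ?_
    (integrable_rho.norm.const_mul C) ?_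
  · intro s
    exact ((hg.comp (by fun_prop)).smul contDiff_rho.continuous).aestronglyMeasurable
  · intro s
    refine Eventually.of_forall fun y => ?_
    rw [norm_smul, Real.norm_eq_abs]
    exact mul_le_mul_of_nonneg_right (hb _) (norm_nonneg _)
  · refine Eventually.of_forall fun y => ?_
    exact (hg.comp (by fun_prop)).smul continuous_const

theorem J_rho_zero (g : Eu d → ℝ) (x : Eu d) : J rho g 0 x = g x := by
  have h1 : J rho g 0 x = ∫ y : Eu d, g x * rho y := by
    unfold J
    congr 1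
    funext y
    simp
  rw [h1, integral_const_mul, integral_rho, mul_one]

theorem J_nonneg {g : Eu d → ℝ} {x : Eu d} {s : ℝ} (hs : 0 ≤ s)
    (h : ∀ y ∈ closedBall x s, 0 ≤ g y) : 0 ≤ J rho g s x := by
  unfold J
  refine integral_nonneg fun y => ?_
  rcases le_or_gt 1 ‖y‖ with hy | hy
  · simp [rho_eq_zero hy]
  · refine mul_nonneg (h _ ?_) (rho_nonneg y)
    rw [mem_closedBall, dist_eq_norm, add_sub_cancel_left, norm_smul, Real.norm_eq_abs,
      abs_of_nonneg hs]
    nlinarith

/-- comparison of the average of the Laplacian with the average of the function -/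
theorem J_sig_lap_le {g : Eu d → ℝ} (hg : ContDiff ℝ 2 g) {C : ℝ} (hb : ∀ x, |g x| ≤ C) {L : ℝ}
    (hL : 0 ≤ L) {x : Eu d} {s : ℝ} (hs : 0 ≤ s)
    (h : ∀ y ∈ closedBall x s, 0 ≤ g y ∧ |lap g y| ≤ L * g y) :
    |J sig (lap g) s x| ≤ L / 8 * J rho g s x := by
  have hBM : BM g C := ⟨hg.continuous.measurable, hb⟩
  unfold J
  have hint : Integrable (fun y => L / 8 * (g (x + s • y) • (rho y : ℝ))) :=
    (hBM.integrable_smul integrable_rho s x).const_mul _
  rw [← integral_const_mul, ← Real.norm_eq_abs]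
  refine norm_integral_le_of_norm_le hint (Eventually.of_forall fun y => ?_)
  rcases le_or_gt 1 ‖y‖ with hy | hy
  · simp [rho_eq_zero hy, sig_eq_zero hy]
  · have hmem : x + s • y ∈ closedBall x s := by
      rw [mem_closedBall, dist_eq_norm, add_sub_cancel_left, norm_smul, Real.norm_eq_abs,
        abs_of_nonneg hs]
      nlinarith
    obtain ⟨h1, h2⟩ := h _ hmem
    rw [norm_smul, Real.norm_eq_abs, Real.norm_eq_abs, abs_of_nonneg (sig_nonneg y), smul_eq_mul]
    calc |lap g (x + s • y)| * sig y ≤ (L * g (x + s • y)) * sig y :=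
          mul_le_mul_of_nonneg_right h2 (sig_nonneg y)
      _ ≤ (L * g (x + s • y)) * (rho y / 8) :=
          mul_le_mul_of_nonneg_left (sig_le y) (mul_nonneg hL h1)
      _ = L / 8 * (g (x + s • y) * rho y) := by ring

/-- mean value inequalities for nonnegative functions with `|lap g| ≤ L g` -/
theorem mv_global {g : Eu d → ℝ} (hg : ContDiff ℝ 2 g) {C : ℝ} (hb : ∀ x, |g x| ≤ C) {L : ℝ}
    (hL : 0 ≤ L) {x : Eu d} {s : ℝ} (hs : 0 < s)
    (h : ∀ y ∈ closedBall x s, 0 ≤ g y ∧ |lap g y| ≤ L * g y) :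
    Real.exp (-(L * s ^ 2 / 16)) * J rho g s x ≤ g x ∧
      g x ≤ Real.exp (L * s ^ 2 / 16) * J rho g s x := by
  have hBM : BM g C := ⟨hg.continuous.measurable, hb⟩
  set F : ℝ → ℝ := fun t => J rho g t x with hF
  have hFc : Continuous F := continuous_J_radius hg.continuous hb x
  have hF0 : F 0 = g x := J_rho_zero g x
  have hder : ∀ t ∈ Ioo (0 : ℝ) s, ∃ F', HasDerivAt F F' t ∧ |F'| ≤ L * t / 8 * F t := by
    intro t ht
    refine ⟨t⁻¹ * J (lap (sig : Eu d → ℝ)) g t x, hasDerivAt_J_rho hBM ht.1 x, ?_⟩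
    rw [J_lap_eq (contDiff_sig.of_le (by norm_num)) hasCompactSupport_sig hg t x]
    have e1 : t⁻¹ * (t ^ 2 * J sig (lap g) t x) = t * J sig (lap g) t x := by
      have := ht.1.ne'
      field_simp
    rw [e1, abs_mul, abs_of_pos ht.1]
    have h1 := J_sig_lap_le hg hb hL ht.1.le (x := x)
      (fun y hy => h y (closedBall_subset_closedBall ht.2.le hy))
    calc t * |J sig (lap g) t x| ≤ t * (L / 8 * J rho g t x) :=
          mul_le_mul_of_nonneg_left h1 ht.1.le
      _ = L * t / 8 * F t := by rw [hF]; ring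
  have hexp : ∀ (a t : ℝ), HasDerivAt (fun t => Real.exp (a * t ^ 2 / 16))
      (Real.exp (a * t ^ 2 / 16) * (a * t / 8)) t := by
    intro a t
    have h1 : HasDerivAt (fun t : ℝ => a * t ^ 2 / 16) (a * (2 * t) / 16) t := by
      have := ((hasDerivAt_pow 2 t).const_mul a).div_const 16
      simpa using this
    have h2 := h1.exp
    refine h2.congr_deriv ?_
    ring
  have hmono : MonotoneOn (fun t => Real.exp (L * t ^ 2 / 16) * F t) (Icc 0 s) := by
    refine monotoneOn_of_deriv_nonneg (convex_Icc 0 s) ?_ ?_ ?_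
    · exact (Continuous.mul (by fun_prop) hFc).continuousOn
    · rw [interior_Icc]
      intro t ht
      obtain ⟨F', hF', -⟩ := hder t ht
      exact ((hexp L t).mul hF').differentiableAt.differentiableWithinAt
    · rw [interior_Icc]
      intro t ht
      obtain ⟨F', hF', hb'⟩ := hder t ht
      have h1 : HasDerivAt (fun t => Real.exp (L * t ^ 2 / 16) * F t) _ t := (hexp L t).mul hF'
      rw [h1.deriv]
      have h2 := (abs_le.1 hb').1
      have h3 := Real.exp_pos (L * t ^ 2 / 16)
      have h4 : Real.exp (L * t ^ 2 / 16) * (L * t / 8) * F t + Real.exp (L * t ^ 2 / 16) * F' =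
        Real.exp (L * t ^ 2 / 16) * (L * t / 8 * F t + F') := by ring
      rw [h4]
      exact mul_nonneg h3.le (by linarith)
  have hanti : AntitoneOn (fun t => Real.exp ((-L) * t ^ 2 / 16) * F t) (Icc 0 s) := by
    refine antitoneOn_of_deriv_nonpos (convex_Icc 0 s) ?_ ?_ ?_
    · exact (Continuous.mul (by fun_prop) hFc).continuousOn
    · rw [interior_Icc]
      intro t ht
      obtain ⟨F', hF', -⟩ := hder t ht
      exact ((hexp (-L) t).mul hF').differentiableAt.differentiableWithinAt
    · rw [interior_Icc]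
      intro t ht
      obtain ⟨F', hF', hb'⟩ := hder t ht
      have h1 : HasDerivAt (fun t => Real.exp ((-L) * t ^ 2 / 16) * F t) _ t :=
        (hexp (-L) t).mul hF'
      rw [h1.deriv]
      have h2 := (abs_le.1 hb').2
      have h3 := Real.exp_pos ((-L) * t ^ 2 / 16)
      have h4 : Real.exp ((-L) * t ^ 2 / 16) * ((-L) * t / 8) * F t +
        Real.exp ((-L) * t ^ 2 / 16) * F' =
        Real.exp ((-L) * t ^ 2 / 16) * (-(L * t / 8 * F t) + F') := by ring
      rw [h4]
      exact mul_nonpos_of_nonneg_of_nonpos h3.le (by linarith)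
  have hs0 : (0 : ℝ) ∈ Icc 0 s := left_mem_Icc.2 hs.le
  have hss : s ∈ Icc 0 s := right_mem_Icc.2 hs.le
  constructor
  · have := hanti hs0 hss hs.le
    simp only [hF0] at this
    have e1 : (-L) * s ^ 2 / 16 = -(L * s ^ 2 / 16) := by ring
    rw [e1] at this
    simpa using this
  · have := hmono hs0 hss hs.le
    simp only [hF0] at this
    simpa using this

end Pool.Agent.K1H28.ES
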