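import Pool.Agent.K1H28.ES.Sol

set_option autoImplicit false
open MeasureTheory Filter Topology Set Metric

namespace Pool.Agent.K1H28.ES
open Pool.Agent.H314.Dir

/-- Lipschitz bound on `[0,b]` for a function of class `C¹` on `[0,∞)`. -/
theorem lip_of_contDiffOn {f : ℝ → ℝ} (hf : ContDiffOn ℝ 1 f (Ici 0)) (b : ℝ) :
    ∃ L : ℝ, 0 ≤ L ∧ ∀ s ∈ Icc (0:ℝ) b, ∀ t ∈ Icc (0:ℝ) b, |f s - f t| ≤ L * |s - t| := by
  have hc : ContinuousOn (derivWithin f (Ici 0)) (Ici 0) :=
    hf.continuousOn_derivWithin (uniqueDiffOn_Ici 0) le_rfl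
  have hcb : ContinuousOn (derivWithin f (Ici 0)) (Icc 0 b) := hc.mono Icc_subset_Ici_self
  obtain ⟨C, hC⟩ := isCompact_Icc.exists_bound_of_continuousOn hcb
  refine ⟨max C 0, le_max_right _ _, fun s hs t ht => ?_⟩
  have hd : ∀ x ∈ Icc (0:ℝ) b, HasDerivWithinAt f (derivWithin f (Ici 0) x) (Icc 0 b) x := by
    intro x hx
    exact ((hf.differentiableOn (by norm_num) x hx.1).hasDerivWithinAt).mono Icc_subset_Ici_self
  have h1 := (convex_Icc (0:ℝ) b).norm_image_sub_le_of_norm_hasDerivWithin_le hd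
    (fun x hx => (hC x hx).trans (le_max_left C 0)) ht hs
  simpa [Real.norm_eq_abs] using h1

/-- one-sided lower bound near a zero with positive right derivative -/
theorem near_left {f : ℝ → ℝ} {a x0 : ℝ} {s : Set ℝ} (hs : Ici x0 ⊆ s)
    (hf : HasDerivWithinAt f a s x0) (h0 : f x0 = 0) (ha : 0 < a) :
    ∃ η > 0, ∀ t, x0 ≤ t → t ≤ x0 + η → a / 2 * (t - x0) ≤ f t := by
  have h1 := (hf.mono hs)
  rw [hasDerivWithinAt_iff_tendsto_slope] at h1
  have h2 : ∀ᶠ t in 𝓝[Ici x0 \ {x0}] x0, a / 2 < slope f x0 t :=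
    h1.eventually (lt_mem_nhds (by linarith))
  rw [Ici_sdiff_left] at h2
  rw [eventually_nhdsWithin_iff, Metric.eventually_nhds_iff] at h2
  obtain ⟨η, hη, h3⟩ := h2
  refine ⟨η / 2, by positivity, fun t ht1 ht2 => ?_⟩
  rcases ht1.eq_or_lt with h | h
  · rw [← h, h0]; simp
  · have h4 := h3 (y := t) (by rw [Real.dist_eq, abs_of_pos (by linarith)]; linarith) h
    rw [slope_def_field, h0, sub_zero, lt_div_iff₀ (by linarith)] at h4
    exact h4.le

/-- lower bound of the reaction on `[0,1]` -/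
theorem low_of_reaction {f : ℝ → ℝ} (hf : ContDiffOn ℝ 1 f (Ici 0)) (h0 : f 0 = 0) (h1 : f 1 = 0)
    (hpos : ∀ t, 0 < t → t < 1 → 0 < f t) (hd0 : 0 < derivWithin f (Ici 0) 0)
    (hd1 : derivWithin f (Ici 0) 1 < 0) :
    ∃ c : ℝ, 0 < c ∧ ∀ s ∈ Icc (0:ℝ) 1, c * min s (1 - s) ≤ f s := by
  have hdiff : ∀ x ∈ Ici (0:ℝ), HasDerivWithinAt f (derivWithin f (Ici 0) x) (Ici 0) x :=
    fun x hx => (hf.differentiableOn (by norm_num) x hx).hasDerivWithinAt
  obtain ⟨η0, hη0, hn0⟩ := near_left (x0 := 0) subset_rfl (hdiff 0 self_mem_Ici) h0 hd0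
  -- reflect at 1
  have hd1' : HasDerivAt f (derivWithin f (Ici 0) 1) 1 :=
    (hdiff 1 (by norm_num : (0:ℝ) ≤ 1)).hasDerivAt (Ici_mem_nhds zero_lt_one)
  have hr : HasDerivAt (fun t : ℝ => f (1 - t)) (-(derivWithin f (Ici 0) 1)) 0 := by
    have h2 : HasDerivAt (fun t : ℝ => 1 - t) (-1) 0 := by
      simpa using (hasDerivAt_id (0:ℝ)).const_sub 1
    have h3 : HasDerivAt f (derivWithin f (Ici 0) 1) ((fun t : ℝ => 1 - t) 0) := by simpa using hd1'
    have := h3.comp 0 h2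
    refine this.congr_deriv ?_
    ring
  obtain ⟨η1, hη1, hn1⟩ := near_left (x0 := 0) (subset_univ _) hr.hasDerivWithinAt
    (by simpa using h1) (by linarith : 0 < -(derivWithin f (Ici 0) 1))
  set a := derivWithin f (Ici 0) 0
  set b := -(derivWithin f (Ici 0) 1)
  have hb : 0 < b := by simp only [b]; linarith
  set η : ℝ := min (min η0 η1) (1 / 4) with hη
  have hηp : 0 < η := lt_min (lt_min hη0 hη1) (by norm_num)
  have hη4 : η ≤ 1 / 4 := min_le_right _ _
  have hηa : η ≤ η0 := (min_le_left _ _).trans (min_le_left _ _)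
  have hηb : η ≤ η1 := (min_le_left _ _).trans (min_le_right _ _)
  have hcont : ContinuousOn f (Icc η (1 - η)) :=
    hf.continuousOn.mono fun t ht => le_trans hηp.le ht.1
  obtain ⟨t0, ht0, hmin⟩ := isCompact_Icc.exists_isMinOn (nonempty_Icc.2 (by linarith)) hcont
  have hm0 : 0 < f t0 := hpos t0 (by linarith [ht0.1]) (by linarith [ht0.2])
  refine ⟨min (min (a / 2) (b / 2)) (f t0), lt_min (lt_min (by positivity) (by positivity)) hm0,
    fun s hs => ?_⟩
  set c := min (min (a / 2) (b / 2)) (f t0) with hc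
  have hc0 : 0 < c := lt_min (lt_min (by positivity) (by positivity)) hm0
  have hca : c ≤ a / 2 := (min_le_left _ _).trans (min_le_left _ _)
  have hcb : c ≤ b / 2 := (min_le_left _ _).trans (min_le_right _ _)
  have hcm : c ≤ f t0 := min_le_right _ _
  have hs1 : 0 ≤ 1 - s := by linarith [hs.2]
  have hmin0 : 0 ≤ min s (1 - s) := le_min hs.1 hs1
  rcases le_or_gt s η with h | h
  · have h2 := hn0 s hs.1 (by linarith)
    rw [sub_zero] at h2
    calc c * min s (1 - s) ≤ c * s := mul_le_mul_of_nonneg_left (min_le_left _ _) hc0.le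
      _ ≤ a / 2 * s := mul_le_mul_of_nonneg_right hca hs.1
      _ ≤ f s := h2
  · rcases le_or_gt s (1 - η) with h' | h'
    · have h2 : f t0 ≤ f s := hmin ⟨h.le, h'⟩
      have h3 : min s (1 - s) ≤ 1 := (min_le_left _ _).trans hs.2
      calc c * min s (1 - s) ≤ c * 1 := mul_le_mul_of_nonneg_left h3 hc0.le
        _ ≤ f s := by linarith
    · have h2 := hn1 (1 - s) hs1 (by linarith)
      rw [sub_zero, sub_sub_cancel] at h2
      calc c * min s (1 - s) ≤ c * (1 - s) := mul_le_mul_of_nonneg_left (min_le_right _ _) hc0.le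
        _ ≤ b / 2 * (1 - s) := mul_le_mul_of_nonneg_right hcb hs1
        _ ≤ f s := h2

/-- upper bound of the reaction beyond 1 -/
theorem high_of_reaction {f : ℝ → ℝ} (hf : ContDiffOn ℝ 1 f (Ici 0)) (h1 : f 1 = 0)
    (hneg : ∀ t, 1 < t → f t < 0) (hd1 : derivWithin f (Ici 0) 1 < 0) (B : ℝ) :
    ∃ K : ℝ, 0 < K ∧ ∀ s, 1 ≤ s → s ≤ B → f s ≤ -(K * (s - 1)) := by
  have hd : HasDerivWithinAt f (derivWithin f (Ici 0) 1) (Ici 0) 1 :=
    (hf.differentiableOn (by norm_num) 1 (by norm_num : (0:ℝ) ≤ 1)).hasDerivWithinAt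
  have hsub : Ici (1:ℝ) ⊆ Ici 0 := Ici_subset_Ici.2 zero_le_one
  obtain ⟨η, hη, hn⟩ := near_left (x0 := 1) (f := fun t => - f t) hsub hd.fun_neg (by simp [h1])
    (by linarith : 0 < -(derivWithin f (Ici 0) 1))
  set b := -(derivWithin f (Ici 0) 1)
  have hb : 0 < b := by simp only [b]; linarith
  rcases le_or_gt B (1 + η) with hB | hB
  · refine ⟨b / 2, by positivity, fun s hs1 hs2 => ?_⟩
    have := hn s hs1 (by linarith)
    linarith
  · have hcont : ContinuousOn f (Icc (1 + η) B) :=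
      hf.continuousOn.mono fun t ht => by
        have := ht.1
        simp only [mem_Ici]; linarith
    obtain ⟨t0, ht0, hmax⟩ := isCompact_Icc.exists_isMaxOn (nonempty_Icc.2 hB.le) hcont
    have hm0 : f t0 < 0 := hneg t0 (by linarith [ht0.1])
    have hB1 : 0 < B - 1 := by linarith
    refine ⟨min (b / 2) (-(f t0) / (B - 1)), lt_min (by positivity) (div_pos (by linarith) hB1),
      fun s hs1 hs2 => ?_⟩
    have hs0 : 0 ≤ s - 1 := by linarith
    rcases le_or_gt s (1 + η) with h | h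
    · have h2 := hn s hs1 h
      have h3 : min (b / 2) (-(f t0) / (B - 1)) * (s - 1) ≤ b / 2 * (s - 1) :=
        mul_le_mul_of_nonneg_right (min_le_left _ _) hs0
      linarith
    · have h2 : f s ≤ f t0 := hmax ⟨h.le, hs2⟩
      have h3 : min (b / 2) (-(f t0) / (B - 1)) * (s - 1) ≤ -(f t0) / (B - 1) * (B - 1) := by
        refine mul_le_mul (min_le_right _ _) (by linarith) hs0 ?_
        exact div_nonneg (by linarith) hB1.le
      rw [div_mul_cancel₀ _ hB1.ne'] at h3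
      linarith

/-- the reaction properties used in the uniqueness proof -/
theorem rf_of_reaction {f : ℝ → ℝ} (hf : ContDiffOn ℝ 1 f (Ici 0)) (h0 : f 0 = 0) (h1 : f 1 = 0)
    (hpos : ∀ t, 0 < t → t < 1 → 0 < f t) (hd0 : 0 < derivWithin f (Ici 0) 0)
    (hd1 : derivWithin f (Ici 0) 1 < 0) : ∃ L cf : ℝ, Rf L cf f := by
  obtain ⟨L, hL0, hL⟩ := lip_of_contDiffOn hf 1
  obtain ⟨c, hc0, hc⟩ := low_of_reaction hf h0 h1 hpos hd0 hd1
  exact ⟨L, c, hL0, hc0, h0, h1, hL, hc⟩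

variable {d : ℕ}

/-- bounded positive solutions are at most 1 -/
theorem le_one_of_bounded {f : ℝ → ℝ} (hf : ContDiffOn ℝ 1 f (Ici 0)) (h1 : f 1 = 0)
    (hneg : ∀ t, 1 < t → f t < 0) (hd1 : derivWithin f (Ici 0) 1 < 0)
    {Ω : Set (Eu d)} (hΩ : IsOpen Ω) {u : Eu d → ℝ} (hc : ContDiffOn ℝ 2 u Ω)
    (hcont : ContinuousOn u (closure Ω)) {C : ℝ} (hC : ∀ x ∈ Ω, u x ≤ C)
    (hbd : ∀ x ∈ frontier Ω, u x = 0) (heq : ∀ x ∈ Ω, - lap u x = f (u x)) :
    ∀ x ∈ Ω, u x ≤ 1 := by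
  obtain ⟨K, hK, hf'⟩ := high_of_reaction hf h1 hneg hd1 C
  have := max_principle Ω hΩ K C hK (fun x => u x - 1)
    (hc.continuousOn.sub continuousOn_const) (fun x hx => by have := hC x hx; linarith) ?_ ?_
  · intro x hx
    linarith [this x hx]
  · intro p hp η hη
    have h2 : Tendsto u (𝓝[closure Ω] p) (𝓝 (u p)) := hcont p (frontier_subset_closure hp)
    have h3 : Tendsto u (𝓝[Ω] p) (𝓝 (u p)) := h2.mono_left (nhdsWithin_mono p subset_closure)
    rw [hbd p hp] at h3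
    filter_upwards [h3.eventually (gt_mem_nhds (by linarith : (0:ℝ) < 1))] with x hx
    linarith
  · intro x hx hpos
    have hcx : ContDiffAt ℝ 2 u x := hc.contDiffAt (hΩ.mem_nhds hx)
    refine ⟨hcx.sub contDiffAt_const, ?_⟩
    rw [lap_sub hcx contDiffAt_const, lap_const, sub_zero]
    have h2 := hf' (u x) (by linarith) (hC x hx)
    have h3 := heq x hx
    linarith

end Pool.Agent.K1H28.ES
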