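import Pool.Agent.K1H28.ES.Geo
import Pool.Agent.K1H28.ES.Bar

set_option autoImplicit false
open MeasureTheory Filter Topology Set Metric

namespace Pool.Agent.K1H28.ES
open Pool.Agent.H314.Dir

variable {d : ℕ}

/-- the properties of the reaction on `[0,1]` that are used -/
structure Rf (L cf : ℝ) (f : ℝ → ℝ) : Prop where
  L0 : 0 ≤ L
  cf0 : 0 < cf
  zero : f 0 = 0
  one : f 1 = 0
  lip : ∀ s ∈ Icc (0:ℝ) 1, ∀ t ∈ Icc (0:ℝ) 1, |f s - f t| ≤ L * |s - t|
  low : ∀ s ∈ Icc (0:ℝ) 1, cf * min s (1 - s) ≤ f s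

theorem Rf.nonneg {L cf : ℝ} {f : ℝ → ℝ} (h : Rf L cf f) {s : ℝ} (hs : s ∈ Icc (0:ℝ) 1) :
    0 ≤ f s := by
  refine le_trans ?_ (h.low s hs)
  exact mul_nonneg h.cf0.le (le_min hs.1 (by linarith [hs.2]))

theorem Rf.le {L cf : ℝ} {f : ℝ → ℝ} (h : Rf L cf f) {s : ℝ} (hs : s ∈ Icc (0:ℝ) 1) :
    f s ≤ L * s := by
  have h1 := h.lip s hs 0 ⟨le_rfl, zero_le_one⟩
  rw [h.zero, sub_zero, sub_zero, abs_of_nonneg hs.1] at h1
  exact (le_abs_self _).trans h1

theorem Rf.le' {L cf : ℝ} {f : ℝ → ℝ} (h : Rf L cf f) {s : ℝ} (hs : s ∈ Icc (0:ℝ) 1) :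
    f s ≤ L * (1 - s) := by
  have h1 := h.lip s hs 1 ⟨zero_le_one, le_rfl⟩
  rw [h.one, sub_zero, abs_sub_comm, abs_of_nonneg (by linarith [hs.2] : 0 ≤ 1 - s)] at h1
  exact (le_abs_self _).trans h1

/-- classical solutions with values in `(0,1]` -/
structure Sol (f : ℝ → ℝ) (Ω : Set (Eu d)) (u : Eu d → ℝ) : Prop where
  cd : ContDiffOn ℝ 2 u Ω
  cont : ContinuousOn u (closure Ω)
  pos : ∀ x ∈ Ω, 0 < u x
  le : ∀ x ∈ Ω, u x ≤ 1
  bd : ∀ x ∈ frontier Ω, u x = 0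
  eq : ∀ x ∈ Ω, - lap u x = f (u x)

theorem Sol.mem {f : ℝ → ℝ} {Ω : Set (Eu d)} {u : Eu d → ℝ} (h : Sol f Ω u) {x : Eu d}
    (hx : x ∈ Ω) : u x ∈ Icc (0:ℝ) 1 := ⟨(h.pos x hx).le, h.le x hx⟩

theorem Sol.cda {f : ℝ → ℝ} {Ω : Set (Eu d)} (hΩ : IsOpen Ω) {u : Eu d → ℝ} (h : Sol f Ω u)
    {x : Eu d} (hx : x ∈ Ω) : ContDiffAt ℝ 2 u x := h.cd.contDiffAt (hΩ.mem_nhds hx)

theorem Sol.nic {L cf : ℝ} {f : ℝ → ℝ} (hf : Rf L cf f) {Ω : Set (Eu d)} {u : Eu d → ℝ}
    (h : Sol f Ω u) : Nic L Ω u := by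
  refine ⟨h.cd, fun y hy => (h.pos y hy).le, fun y hy => ?_⟩
  have h1 := h.eq y hy
  have h2 : lap u y = - f (u y) := by linarith
  rw [h2, abs_neg, abs_of_nonneg (hf.nonneg (h.mem hy))]
  exact hf.le (h.mem hy)

theorem Sol.nic' {L cf : ℝ} {f : ℝ → ℝ} (hf : Rf L cf f) {Ω : Set (Eu d)} (hΩ : IsOpen Ω)
    {u : Eu d → ℝ} (h : Sol f Ω u) : Nic L Ω (fun x => 1 - u x) := by
  refine ⟨contDiffOn_const.sub h.cd, fun y hy => by linarith [h.le y hy], fun y hy => ?_⟩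
  have h1 := h.eq y hy
  rw [lap_sub contDiffAt_const (h.cda hΩ hy), lap_const, zero_sub, h1,
    abs_of_nonneg (hf.nonneg (h.mem hy))]
  exact hf.le' (h.mem hy)

/-- decay constant -/
noncomputable def C3 (d : ℕ) (L : ℝ) : ℝ := 3 * AA d L + 1

theorem one_le_C3 (d : ℕ) {L : ℝ} (hL : 0 ≤ L) : 1 ≤ C3 d L := by
  unfold C3
  linarith [AA_pos d hL]

/-- evaluation of the exterior barrier on the normal -/
theorem barrier_value {ρ0 r t A : ℝ} (hρ0 : 0 < ρ0) (hr : 0 < r) (hrρ : r ≤ ρ0) (ht : 0 ≤ t)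
    (htr : t ≤ r) (hA : 0 ≤ A) :
    A * (t ^ 2 + 2 * ρ0 * t) / (ρ0 * r) + t ^ 2 / r ^ 2 ≤ (3 * A + 1) * (t / r) := by
  have h1 : A * (t ^ 2 + 2 * ρ0 * t) / (ρ0 * r) ≤ 3 * A * (t / r) := by
    rw [div_le_iff₀ (by positivity)]
    have e : 3 * A * (t / r) * (ρ0 * r) = A * (3 * ρ0 * t) := by field_simp
    rw [e]
    refine mul_le_mul_of_nonneg_left ?_ hA
    nlinarith
  have h2 : t ^ 2 / r ^ 2 ≤ t / r := by
    rw [div_le_div_iff₀ (by positivity) hr]
    nlinarith [mul_nonneg ht hr.le, mul_nonneg (mul_nonneg ht hr.le) (by linarith : 0 ≤ r - t)]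
  linarith

theorem r_le {ρ0 r : ℝ} (hr : 0 < r) (hrρ : r * (d + 1) ≤ ρ0) : r ≤ ρ0 := by
  have : (0 : ℝ) ≤ d := Nat.cast_nonneg d
  nlinarith

theorem decay {L cf : ℝ} {f : ℝ → ℝ} (hf : Rf L cf f) {ρ0 : ℝ} {Ω : Set (Eu d)} (hT : TB ρ0 Ω)
    {v : Eu d → ℝ} (hv : Sol f Ω v) {p ν : Eu d} (hN : IsN ρ0 Ω p ν)
    {r S : ℝ} (hr : 0 < r) (hrρ : r * (d + 1) ≤ ρ0)
    (hS : ∀ x ∈ Ω, x ∈ closedBall p r → v x ≤ S) {t : ℝ} (ht0 : 0 < t) (htr : t < r) :
    v (p + t • ν) ≤ S * (C3 d L * (t / r)) := by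
  have hrle : r ≤ ρ0 := r_le hr hrρ
  have hmem : p + t • ν ∈ Ω := hN.mem ht0 (by linarith)
  have hnorm : ‖p + t • ν - p‖ = t := by
    rw [add_sub_cancel_left, norm_smul, hN.unit, mul_one, Real.norm_eq_abs, abs_of_pos ht0]
  have hmb : p + t • ν ∈ ball p r := by
    rw [mem_ball, dist_eq_norm, hnorm]; exact htr
  have hS0 : 0 ≤ S := (hv.pos _ hmem).le.trans (hS _ hmem (ball_subset_closedBall hmb))
  have h1 := barrier_ext hT.op hN.unit hT.pos hr (hrle.trans hT.le) hrρ hN.ext hf.L0 hS0 (g := v)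
    (hv.cont.mono (closure_mono inter_subset_left)) (fun x hx _ => (hv.bd x hx).le) hS
    (fun x hx hxb hpos => ⟨hv.cda hT.op hx, ?_⟩) _ hmem hmb
  · rw [hnorm] at h1
    have h2 : inner ℝ (p + t • ν - p) ν = t := by
      rw [add_sub_cancel_left, inner_smul_left, real_inner_self_eq_norm_sq, hN.unit]; simp
    rw [h2] at h1
    refine h1.trans (mul_le_mul_of_nonneg_left ?_ hS0)
    exact barrier_value hT.pos hr hrle ht0.le htr.le (AA_pos d hf.L0).le
  · have h2 := hv.eq x hx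
    have h3 := hf.le (hv.mem hx)
    have h4 := hS x hx (ball_subset_closedBall hxb)
    have h5 := mul_le_mul_of_nonneg_left h4 hf.L0
    linarith

theorem linear_bound {L cf : ℝ} {f : ℝ → ℝ} (hf : Rf L cf f) {ρ0 : ℝ} {Ω : Set (Eu d)}
    (hT : TB ρ0 Ω) (hne : Ωᶜ.Nonempty) :
    ∃ Cb : ℝ, 0 < Cb ∧ ∀ v : Eu d → ℝ, Sol f Ω v → ∀ x ∈ Ω, v x ≤ Cb * dd Ω x := by
  have hd0 : (0:ℝ) < d + 1 := by positivity
  set r : ℝ := ρ0 / (d + 1) with hr
  have hr0 : 0 < r := div_pos hT.pos hd0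
  have hrρ : r * (d + 1) ≤ ρ0 := by rw [hr, div_mul_cancel₀ _ hd0.ne']
  have hC3 := one_le_C3 d hf.L0
  refine ⟨C3 d L / r, by positivity, fun v hv x hx => ?_⟩
  obtain ⟨p, hp, hxp⟩ := exists_nearest hT.op hne hx
  obtain ⟨ν, hN⟩ := hT.normal p hp
  have ht0 := dd_pos hT.op hne hx
  rcases lt_or_ge (dd Ω x) r with h | h
  · have e := eq_add_normal hT.pos ht0 hN hxp (ball_dd_subset Ω x)
    have h1 := decay hf hT hv hN hr0 hrρ (S := 1) (fun y hy _ => hv.le y hy) ht0 h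
    rw [← e] at h1
    rw [one_mul] at h1
    calc v x ≤ C3 d L * (dd Ω x / r) := h1
      _ = C3 d L / r * dd Ω x := by ring
  · have h1 : 1 ≤ dd Ω x / r := by rwa [le_div_iff₀ hr0, one_mul]
    calc v x ≤ 1 := hv.le x hx
      _ ≤ C3 d L * (dd Ω x / r) := by nlinarith
      _ = C3 d L / r * dd Ω x := by ring

/-- quantitative strict upper bound for solutions -/
theorem one_sub_low {L cf : ℝ} {f : ℝ → ℝ} (hf : Rf L cf f) {ρ0 : ℝ} {Ω : Set (Eu d)}
    (hT : TB ρ0 Ω) (hne : Ωᶜ.Nonempty) :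
    ∃ r : ℝ, 0 < r ∧ r ≤ 1 ∧ ∀ v : Eu d → ℝ, Sol f Ω v → ∀ x ∈ Ω, ∀ n : ℕ, dd Ω x ≤ n * r →
      1 / 2 ≤ CH d L ^ n * (1 - v x) := by
  obtain ⟨Cb, hCb, hb⟩ := linear_bound hf hT hne (d := d)
  set s1 : ℝ := 1 / (2 * Cb) with hs1
  have hs10 : 0 < s1 := by positivity
  set r : ℝ := min (s1 / 5) 1 with hr
  have hr0 : 0 < r := lt_min (by positivity) one_pos
  have hr1 : r ≤ 1 := min_le_right _ _
  have hr5 : r ≤ s1 / 5 := min_le_left _ _
  refine ⟨r, hr0, hr1, fun v hv x hx n hn => ?_⟩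
  have hC := one_lt_CH d hf.L0
  have hCn : 1 ≤ CH d L ^ n := one_le_pow₀ hC.le
  have ht0 := dd_pos hT.op hne hx
  have hhalf : ∀ y ∈ Ω, dd Ω y ≤ s1 → 1 / 2 ≤ 1 - v y := by
    intro y hy h1
    have h2 := hb v hv y hy
    have h3 : Cb * dd Ω y ≤ Cb * s1 := mul_le_mul_of_nonneg_left h1 hCb.le
    have h4 : Cb * s1 = 1 / 2 := by rw [hs1]; field_simp
    linarith
  rcases le_or_gt (dd Ω x) s1 with h | h
  · have h1 := hhalf x hx h
    nlinarith
  · obtain ⟨p, hp, hxp⟩ := exists_nearest hT.op hne hx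
    set t := dd Ω x with ht
    set x' : Eu d := p + (s1 / t) • (x - p) with hx'
    have hst : s1 / t ≤ 1 := by rw [div_le_one ht0]; exact h.le
    have e1 : x' - x = (-(1 - s1 / t)) • (x - p) := by rw [hx']; module
    have h1 : ‖x' - x‖ = t - s1 := by
      rw [e1, norm_smul, norm_neg, Real.norm_eq_abs, abs_of_nonneg (by linarith), hxp]
      field_simp
    have h2 : x' ∈ Ω := by
      apply ball_dd_subset Ω x
      rw [mem_ball, dist_eq_norm, h1]
      linarith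
    have h3 : dd Ω x' ≤ s1 := by
      have h4 := dd_le_of_not_mem (x := x') (frontier_not_mem hT.op hp)
      have h5 : ‖x' - p‖ = s1 := by
        rw [hx', add_sub_cancel_left, norm_smul, hxp, Real.norm_eq_abs,
          abs_of_pos (by positivity)]
        field_simp
      linarith
    have h4 := hhalf x' h2 h3
    have h5 := chain hf.L0 hT.op (hv.nic' hf hT.op) hr0 hr1 n (x := x') (x' := x)
      (by rw [h1]; linarith) (fun y hy => ?_)
    · linarith
    · have h6 : y ∈ closedBall x (t - s1) := by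
        refine (convex_closedBall x (t - s1)).segment_subset ?_ ?_ hy
        · rw [mem_closedBall, dist_eq_norm, h1]
        · exact mem_closedBall_self (by linarith)
      refine Subset.trans ?_ (ball_dd_subset Ω x)
      intro w hw
      rw [mem_closedBall] at hw h6
      rw [mem_ball]
      have := dist_triangle w y x
      linarith

/-- Carleson type estimate -/
theorem carleson {L cf : ℝ} {f : ℝ → ℝ} (hf : Rf L cf f) {ρ0 : ℝ} {Ω : Set (Eu d)}
    (hT : TB ρ0 Ω) {ρ2 : ℝ} (hρ2 : 0 < ρ2) (hρ2' : ρ2 ≤ ρ0) :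
    ∃ s C : ℝ, 0 < s ∧ 1 ≤ C ∧ ∀ v : Eu d → ℝ, Sol f Ω v → ∀ p ν, p ∈ frontier Ω →
      IsN ρ0 Ω p ν → ∀ x ∈ Ω, x ∈ ball p s → v x ≤ C * v (p + ρ2 • ν) := by
  have hd0 : (0:ℝ) < d + 1 := by positivity
  have hCH := one_lt_CH d hf.L0
  have hC3 := one_le_C3 d hf.L0
  set s0 : ℝ := ρ2 / 10 with hs0
  have hs00 : 0 < s0 := by positivity
  set K : ℝ := 2 * C3 d L * CH d L with hK
  have hK1 : 1 ≤ K := by nlinarith
  obtain ⟨n0, hn0⟩ : ∃ n0 : ℕ, (4 / 5 : ℝ) ^ n0 < min (ρ0 / (d + 1)) (s0 / 40) / (K * ρ2) := by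
    refine exists_pow_lt_of_lt_one ?_ (by norm_num)
    have := hT.pos
    have : 0 < min (ρ0 / (d + 1)) (s0 / 40) := lt_min (by positivity) (by positivity)
    positivity
  set r0 : ℝ := K * (4 / 5) ^ n0 * ρ2 with hr0
  have hr00 : 0 < r0 := by positivity
  have hr0le : r0 ≤ min (ρ0 / (d + 1)) (s0 / 40) := by
    rw [lt_div_iff₀ (by positivity)] at hn0
    rw [hr0]; linarith
  have hr0a : r0 * (d + 1) ≤ ρ0 := by
    rw [← le_div_iff₀ hd0]; exact hr0le.trans (min_le_left _ _)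
  have hr0b : r0 ≤ s0 / 40 := hr0le.trans (min_le_right _ _)
  refine ⟨s0 / 4, CH d L ^ (n0 + 1), by positivity, one_le_pow₀ hCH.le, ?_⟩
  intro v hv p0 ν0 hp0 hN0 x0 hx0 hx0b
  by_contra hcon
  rw [not_le] at hcon
  set z0 : Eu d := p0 + ρ2 • ν0 with hz0
  have hz0Ω : z0 ∈ Ω := hN0.mem hρ2 hρ2'
  have hne : Ωᶜ.Nonempty := ⟨p0, frontier_not_mem hT.op hp0⟩
  have hvz : 0 < v z0 := hv.pos _ hz0Ω
  have hnic := hv.nic hf
  -- the induction
  have key : ∀ j : ℕ, ∃ x ∈ Ω, ‖x - p0‖ ≤ s0 / 4 + 10 * r0 * (1 - (4 / 5) ^ j) ∧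
      CH d L ^ (n0 + 1 + j) * v z0 < v x := by
    intro j
    induction j with
    | zero =>
      refine ⟨x0, hx0, ?_, by simpa using hcon⟩
      rw [mem_ball, dist_eq_norm] at hx0b
      simp; exact hx0b.le
    | succ j ih =>
      obtain ⟨x, hx, hxp0, hvx⟩ := ih
      have hpw : (0:ℝ) < (4 / 5) ^ j := by positivity
      have hpw1 : (4 / 5 : ℝ) ^ j ≤ 1 := pow_le_one₀ (by norm_num) (by norm_num)
      have hxs : ‖x - p0‖ ≤ s0 / 2 := by nlinarith
      obtain ⟨p, hp, hxp⟩ := exists_nearest hT.op hne hx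
      obtain ⟨ν, hN⟩ := hT.normal p hp
      have ht0 := dd_pos hT.op hne hx
      have hts : dd Ω x ≤ ‖x - p0‖ := dd_le_of_not_mem (frontier_not_mem hT.op hp0)
      have e := eq_add_normal hT.pos ht0 hN hxp (ball_dd_subset Ω x)
      set t := dd Ω x with ht
      have hpp0 : ‖p - p0‖ ≤ s0 := by
        have e2 : p - p0 = (x - p0) - (x - p) := by abel
        rw [e2]
        have := norm_sub_le (x - p0) (x - p)
        rw [hxp] at this
        linarith
      -- comparison of the two interior points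
      have hzz : v (p + ρ2 • ν) ≤ CH d L * v z0 := by
        refine harnack hf.L0 hT.op hnic (r := ρ2 / 5) (by positivity) ?_ ?_ ?_
        · have := hT.le; linarith
        · have e2 : p + ρ2 • ν - z0 = (p - p0) + ρ2 • (ν - ν0) := by
            rw [hz0, smul_sub]; abel
          rw [e2]
          have h1 := norm_add_le (p - p0) (ρ2 • (ν - ν0))
          rw [norm_smul, Real.norm_eq_abs, abs_of_pos hρ2] at h1
          have h2 := normals_lip hT.pos hN hN0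
          have h3 : ρ2 * ‖ν - ν0‖ ≤ ρ0 * ‖ν - ν0‖ :=
            mul_le_mul_of_nonneg_right hρ2' (norm_nonneg _)
          linarith
        · exact hN0.closedBall_subset hρ2' (by linarith)
      have htlt : t < (4 / 5) ^ (n0 + j) * ρ2 := by
        by_contra h1
        rw [not_lt] at h1
        have h2 := up_chain hf.L0 hT hnic hN (n0 + j) hρ2 hρ2' h1 (by linarith)
        rw [← e] at h2
        have h3 : CH d L ^ (n0 + j) * v (p + ρ2 • ν) ≤ CH d L ^ (n0 + j) * (CH d L * v z0) :=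
          mul_le_mul_of_nonneg_left hzz (by positivity)
        have h4 : CH d L ^ (n0 + j) * (CH d L * v z0) = CH d L ^ (n0 + 1 + j) * v z0 := by
          ring
        linarith
      set rj : ℝ := r0 * (4 / 5) ^ j with hrj
      have hrj0 : 0 < rj := by positivity
      have hrjle : rj ≤ r0 := by nlinarith
      have htrj : K * t < rj := by
        have h1 : K * t < K * ((4 / 5) ^ (n0 + j) * ρ2) := mul_lt_mul_of_pos_left htlt (by linarith)
        have h2 : K * ((4 / 5) ^ (n0 + j) * ρ2) = rj := by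
          rw [hrj, hr0]; ring
        linarith
      have htrj' : t < rj := by nlinarith
      obtain ⟨y, hy, hyb, hvy⟩ : ∃ y ∈ Ω, y ∈ closedBall p rj ∧ CH d L * v x < v y := by
        by_contra hno
        push Not at hno
        have h1 := decay hf hT hv hN hrj0
          ((mul_le_mul_of_nonneg_right hrjle hd0.le).trans hr0a) (S := CH d L * v x)
          (fun y hy hyb => hno y hy hyb) ht0 htrj'
        rw [← e] at h1
        have hvx0 := hv.pos x hx
        have h2 : CH d L * v x * (C3 d L * (t / rj)) = (K * t / rj) * v x / 2 := by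
          rw [hK]; ring
        rw [h2] at h1
        have h3 : K * t / rj < 1 := by rw [div_lt_one hrj0]; exact htrj
        nlinarith
      refine ⟨y, hy, ?_, ?_⟩
      · have e2 : y - p0 = (y - p) + ((p - x) + (x - p0)) := by abel
        rw [e2]
        have h1 := norm_add_le (y - p) ((p - x) + (x - p0))
        have h2 := norm_add_le (p - x) (x - p0)
        rw [norm_sub_rev p x, hxp] at h2
        rw [mem_closedBall, dist_eq_norm] at hyb
        have h3 : (10:ℝ) * r0 * (1 - (4 / 5) ^ (j + 1)) =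
            10 * r0 * (1 - (4 / 5) ^ j) + 2 * rj := by
          rw [hrj, pow_succ]; ring
        rw [h3]
        linarith
      · have h1 : CH d L * (CH d L ^ (n0 + 1 + j) * v z0) < CH d L * v x :=
          mul_lt_mul_of_pos_left hvx (by linarith)
        have h2 : CH d L ^ (n0 + 1 + (j + 1)) * v z0 =
            CH d L * (CH d L ^ (n0 + 1 + j) * v z0) := by ring
        rw [h2]
        linarith
  obtain ⟨j, hj⟩ := pow_unbounded_of_one_lt (1 / v z0) hCH
  obtain ⟨x, hx, -, hvx⟩ := key j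
  have h1 := hv.le x hx
  have h2 : CH d L ^ j ≤ CH d L ^ (n0 + 1 + j) := pow_le_pow_right₀ hCH.le (by omega)
  have h3 : CH d L ^ j * v z0 ≤ CH d L ^ (n0 + 1 + j) * v z0 :=
    mul_le_mul_of_nonneg_right h2 hvz.le
  rw [div_lt_iff₀ hvz] at hj
  linarith

end Pool.Agent.K1H28.ES
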